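import Mathlib
import Pool.Graph.R_seed8.Helper635.LLL

/-!
# One round of the local covering argument

`H` is a graph with all degrees at most `4 m`, `G` a graph on `N ≥ 16 m` vertices with the
property `P` and with maximum degree at most `D`. Random maps `V → W` pull back pieces of `H` with
the property `P`; the local lemma shows that a suitable number of maps reduces all degrees of the
rest of `H` to at most `3 m`.
-/

set_option autoImplicit false
set_option linter.all false

namespace Pool.Agent.H55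

open Finset Classical

/-- `f` is a homomorphism from `F` to `G` which is injective on the neighbourhoods. -/
structure LocInj {V W : Type} (F : SimpleGraph V) (G : SimpleGraph W) (f : V → W) : Prop where
  hom : ∀ x y, F.Adj x y → G.Adj (f x) (f y)
  inj : ∀ x y y', F.Adj x y → F.Adj x y' → f y = f y' → y = y'

lemma LocInj.comp {U V W : Type} {E : SimpleGraph U} {F : SimpleGraph V} {G : SimpleGraph W}
    {g : V → W} {f : U → V} (hg : LocInj F G g) (hf : LocInj E F f) : LocInj E G (g ∘ f) where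
  hom x y h := hg.hom _ _ (hf.hom x y h)
  inj x y y' h h' he := hf.inj x y y' h h' (hg.inj (f x) _ _ (hf.hom x y h) (hf.hom x y' h') he)

section resample

variable {V W : Type} [Fintype V] [Fintype W]

/-- resampling one coordinate of a random map -/
lemma resample (x : V) (φ : (V → W) → ℝ) :
    (Fintype.card W : ℝ) * ∑ f : V → W, φ f
      = ∑ f : V → W, ∑ a : W, φ (Function.update f x a) := by
  let σ : (V → W) × W ≃ (V → W) × W :=
    { toFun := fun p => (Function.update p.1 x p.2, p.1 x)
      invFun := fun p => (Function.update p.1 x p.2, p.1 x)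
      left_inv := by
        rintro ⟨f, a⟩
        simp
      right_inv := by
        rintro ⟨f, a⟩
        simp }
  have h1 : ∑ f : V → W, ∑ a : W, φ (Function.update f x a)
      = ∑ p : (V → W) × W, φ (σ p).1 := by
    rw [Fintype.sum_prod_type]
    rfl
  have h2 : ∑ p : (V → W) × W, φ (σ p).1 = ∑ p : (V → W) × W, φ p.1 :=
    Equiv.sum_comp σ (fun p => φ p.1)
  rw [h1, h2, Fintype.sum_prod_type]
  simp [Finset.sum_const, Finset.card_univ, Finset.mul_sum]

end resample

section stage

variable {V W : Type} [Fintype V] [Fintype W]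

/-- the part of `H` which the map `f` pulls back from `G`, after the removal of the edges whose
ends are confused with another neighbour of the other end -/
def pull (H : SimpleGraph V) (G : SimpleGraph W) (f : V → W) : SimpleGraph V where
  Adj x y := H.Adj x y ∧ G.Adj (f x) (f y) ∧ (∀ y', H.Adj x y' → f y' = f y → y' = y) ∧
    (∀ x', H.Adj y x' → f x' = f x → x' = x)
  symm := by
    constructor
    rintro x y ⟨h1, h2, h3, h4⟩
    exact ⟨h1.symm, h2.symm, h4, h3⟩
  loopless := ⟨fun x h => H.loopless.irrefl x h.1⟩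

lemma pull_le (H : SimpleGraph V) (G : SimpleGraph W) (f : V → W) : pull H G f ≤ H :=
  fun _ _ h => h.1

lemma pull_locInj (H : SimpleGraph V) (G : SimpleGraph W) (f : V → W) :
    LocInj (pull H G f) G f where
  hom x y h := h.2.1
  inj x y y' h h' he := (h.2.2.1 y' h'.1 he.symm).symm

/-- the neighbours of `x` -/
noncomputable def nb {U : Type} [Fintype U] (H : SimpleGraph U) (x : U) : Finset U :=
  univ.filter (fun y => H.Adj x y)

lemma mem_nb {U : Type} [Fintype U] {H : SimpleGraph U} {x y : U} : y ∈ nb H x ↔ H.Adj x y := by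
  simp [nb]

/-- the sum of the degrees -/
noncomputable def vol {U : Type} [Fintype U] (G : SimpleGraph U) : ℕ := ∑ a, (nb G a).card

lemma sum_adj (G : SimpleGraph W) {x y : V} (hxy : x ≠ y) :
    (Fintype.card W : ℝ) ^ 2 * ∑ f : V → W, (if G.Adj (f x) (f y) then (1 : ℝ) else 0)
      = (vol G : ℝ) * (Fintype.card (V → W) : ℝ) := by
  have h1 := resample (W := W) y (fun f : V → W => if G.Adj (f x) (f y) then (1 : ℝ) else 0)
  have h2 : ∀ f : V → W, ∑ a : W, (if G.Adj (Function.update f y a x) (Function.update f y a y)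
      then (1 : ℝ) else 0) = ((nb G (f x)).card : ℝ) := by
    intro f
    rw [nb, Finset.card_filter]
    push_cast
    refine Finset.sum_congr rfl fun a _ => ?_
    rw [Function.update_of_ne hxy, Function.update_self]
  simp only [h2] at h1
  have h3 := resample (W := W) x (fun f : V → W => ((nb G (f x)).card : ℝ))
  have h4 : ∀ f : V → W, ∑ a : W, ((nb G (Function.update f x a x)).card : ℝ) = (vol G : ℝ) := by
    intro f
    simp only [Function.update_self, vol]
    push_cast
    rfl
  simp only [h4, Finset.sum_const, Finset.card_univ, nsmul_eq_mul] at h3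
  calc (Fintype.card W : ℝ) ^ 2 * ∑ f : V → W, (if G.Adj (f x) (f y) then (1 : ℝ) else 0)
      = (Fintype.card W : ℝ) * ((Fintype.card W : ℝ) *
          ∑ f : V → W, (if G.Adj (f x) (f y) then (1 : ℝ) else 0)) := by ring
    _ = (Fintype.card W : ℝ) * ∑ f : V → W, ((nb G (f x)).card : ℝ) := by rw [h1]
    _ = (Fintype.card (V → W) : ℝ) * (vol G : ℝ) := h3
    _ = _ := by ring

lemma sum_coll (G : SimpleGraph W) {x y z : V} (hzx : z ≠ x) (hzy : z ≠ y) :
    (Fintype.card W : ℝ) *
        ∑ f : V → W, (if G.Adj (f x) (f y) ∧ f z = f y then (1 : ℝ) else 0)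
      = ∑ f : V → W, (if G.Adj (f x) (f y) then (1 : ℝ) else 0) := by
  rw [resample (W := W) z (fun f : V → W => if G.Adj (f x) (f y) ∧ f z = f y then (1 : ℝ) else 0)]
  refine Finset.sum_congr rfl fun f _ => ?_
  have h : ∀ a : W, (if G.Adj (Function.update f z a x) (Function.update f z a y) ∧
      Function.update f z a z = Function.update f z a y then (1 : ℝ) else 0)
      = if a = f y then (if G.Adj (f x) (f y) then (1 : ℝ) else 0) else 0 := by
    intro a
    rw [Function.update_of_ne hzx.symm, Function.update_of_ne hzy.symm, Function.update_self]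
    by_cases h1 : a = f y <;> by_cases h2 : G.Adj (f x) (f y) <;> simp [h1, h2]
  simp only [h]
  simp

lemma ind_pull (H : SimpleGraph V) (G : SimpleGraph W) (f : V → W) {x y : V} (hxy : H.Adj x y) :
    (if G.Adj (f x) (f y) then (1 : ℝ) else 0)
      - ∑ z ∈ (nb H x).erase y, (if G.Adj (f x) (f y) ∧ f z = f y then (1 : ℝ) else 0)
      - ∑ z ∈ (nb H y).erase x, (if G.Adj (f y) (f x) ∧ f z = f x then (1 : ℝ) else 0)
      ≤ (if (pull H G f).Adj x y then (1 : ℝ) else 0) := by
  have n1 : ∀ s : Finset V, 0 ≤ ∑ z ∈ s, (if G.Adj (f x) (f y) ∧ f z = f y then (1 : ℝ) else 0) :=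
    fun s => Finset.sum_nonneg fun z _ => by split_ifs <;> norm_num
  have n2 : ∀ s : Finset V, 0 ≤ ∑ z ∈ s, (if G.Adj (f y) (f x) ∧ f z = f x then (1 : ℝ) else 0) :=
    fun s => Finset.sum_nonneg fun z _ => by split_ifs <;> norm_num
  by_cases hp : (pull H G f).Adj x y
  · rw [if_pos hp]
    have := n1 ((nb H x).erase y)
    have := n2 ((nb H y).erase x)
    split_ifs <;> linarith
  · rw [if_neg hp]
    by_cases hG : G.Adj (f x) (f y)
    · rw [if_pos hG]
      have hp' : ¬ ((∀ y', H.Adj x y' → f y' = f y → y' = y) ∧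
          (∀ x', H.Adj y x' → f x' = f x → x' = x)) := by
        intro h
        exact hp ⟨hxy, hG, h.1, h.2⟩
      rw [not_and_or] at hp'
      rcases hp' with h | h
      · push Not at h
        obtain ⟨z, hz1, hz2, hz3⟩ := h
        have hz : z ∈ (nb H x).erase y := Finset.mem_erase.mpr ⟨hz3, mem_nb.mpr hz1⟩
        have : (1 : ℝ) ≤ ∑ z ∈ (nb H x).erase y,
            (if G.Adj (f x) (f y) ∧ f z = f y then (1 : ℝ) else 0) := by
          refine le_trans ?_ (Finset.single_le_sum (f := fun z =>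
            (if G.Adj (f x) (f y) ∧ f z = f y then (1 : ℝ) else 0))
            (fun z _ => by split_ifs <;> norm_num) hz)
          simp [hG, hz2]
        have := n2 ((nb H y).erase x)
        linarith
      · push Not at h
        obtain ⟨z, hz1, hz2, hz3⟩ := h
        have hz : z ∈ (nb H y).erase x := Finset.mem_erase.mpr ⟨hz3, mem_nb.mpr hz1⟩
        have : (1 : ℝ) ≤ ∑ z ∈ (nb H y).erase x,
            (if G.Adj (f y) (f x) ∧ f z = f x then (1 : ℝ) else 0) := by
          refine le_trans ?_ (Finset.single_le_sum (f := fun z =>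
            (if G.Adj (f y) (f x) ∧ f z = f x then (1 : ℝ) else 0))
            (fun z _ => by split_ifs <;> norm_num) hz)
          simp [hG.symm, hz2]
        have := n1 ((nb H x).erase y)
        linarith
    · rw [if_neg hG]
      have := n1 ((nb H x).erase y)
      have := n2 ((nb H y).erase x)
      linarith

/-- every edge of `H` is pulled back with the right probability -/
lemma sum_pull (H : SimpleGraph V) (G : SimpleGraph W) (m : ℕ) (hH : ∀ x, (nb H x).card ≤ 4 * m)
    (hN : 16 * m ≤ Fintype.card W) (hN0 : 0 < Fintype.card W) {x y : V} (hxy : H.Adj x y) :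
    (vol G : ℝ) / (2 * (Fintype.card W : ℝ) ^ 2) * (Fintype.card (V → W) : ℝ)
      ≤ ∑ f : V → W, (if (pull H G f).Adj x y then (1 : ℝ) else 0) := by
  have hne : x ≠ y := hxy.ne
  set N : ℝ := (Fintype.card W : ℝ) with hNdef
  have hNpos : 0 < N := by rw [hNdef]; exact_mod_cast hN0
  set A : ℝ := ∑ f : V → W, (if G.Adj (f x) (f y) then (1 : ℝ) else 0) with hA
  have hA0 : 0 ≤ A := Finset.sum_nonneg fun f _ => by split_ifs <;> norm_num
  have hAeq : N ^ 2 * A = (vol G : ℝ) * (Fintype.card (V → W) : ℝ) := sum_adj G hne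
  have hsum := Finset.sum_le_sum (s := (univ : Finset (V → W)))
    (fun f _ => ind_pull H G f hxy)
  rw [Finset.sum_sub_distrib, Finset.sum_sub_distrib, Finset.sum_comm,
    Finset.sum_comm (s := (univ : Finset (V → W))) (t := (nb H y).erase x)] at hsum
  have e1 : ∀ z ∈ (nb H x).erase y,
      ∑ f : V → W, (if G.Adj (f x) (f y) ∧ f z = f y then (1 : ℝ) else 0) = A / N := by
    intro z hz
    rw [Finset.mem_erase, mem_nb] at hz
    rw [eq_div_iff hNpos.ne', mul_comm]
    exact sum_coll G hz.2.ne' hz.1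
  have hA' : ∑ f : V → W, (if G.Adj (f y) (f x) then (1 : ℝ) else 0) = A := by
    refine Finset.sum_congr rfl fun f _ => ?_
    simp only [G.adj_comm]
  have e2 : ∀ z ∈ (nb H y).erase x,
      ∑ f : V → W, (if G.Adj (f y) (f x) ∧ f z = f x then (1 : ℝ) else 0) = A / N := by
    intro z hz
    rw [Finset.mem_erase, mem_nb] at hz
    rw [eq_div_iff hNpos.ne', mul_comm, ← hA']
    exact sum_coll G hz.2.ne' hz.1
  rw [Finset.sum_congr rfl e1, Finset.sum_congr rfl e2, Finset.sum_const, Finset.sum_const,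
    nsmul_eq_mul, nsmul_eq_mul] at hsum
  have c1 : (((nb H x).erase y).card : ℝ) ≤ 4 * m := by
    have := (Finset.card_erase_le (s := nb H x) (a := y)).trans (hH x)
    exact_mod_cast this
  have c2 : (((nb H y).erase x).card : ℝ) ≤ 4 * m := by
    have := (Finset.card_erase_le (s := nb H y) (a := x)).trans (hH y)
    exact_mod_cast this
  have hAN : 0 ≤ A / N := div_nonneg hA0 hNpos.le
  have h16 : (16 : ℝ) * m ≤ N := by rw [hNdef]; exact_mod_cast hN
  have h8 : (8 * m : ℝ) * (A / N) ≤ A / 2 := by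
    rw [mul_div_assoc', div_le_div_iff₀ hNpos (by norm_num)]
    nlinarith
  have h5 : A / 2 ≤ ∑ f : V → W, (if (pull H G f).Adj x y then (1 : ℝ) else 0) := by
    nlinarith [mul_le_mul_of_nonneg_right c1 hAN, mul_le_mul_of_nonneg_right c2 hAN]
  refine le_trans (le_of_eq ?_) h5
  have : A = (vol G : ℝ) * (Fintype.card (V → W) : ℝ) / N ^ 2 := by
    rw [eq_div_iff (by positivity), mul_comm]; exact hAeq
  rw [this]
  field_simp

/-- Bernoulli -/
lemma bern {D t : ℕ} (hD : 1 ≤ D) (ht : t ≤ D) :
    (1 : ℝ) ≤ (1 + 1 / (D : ℝ)) ^ t * (1 - t / (2 * D)) := by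
  have hD' : (0 : ℝ) < D := by exact_mod_cast hD
  have h1 : 1 + (t : ℝ) * (1 / (D : ℝ)) ≤ (1 + 1 / (D : ℝ)) ^ t :=
    one_add_mul_le_pow (by have : (0 : ℝ) ≤ 1 / D := by positivity
                           linarith) t
  have hu : (t : ℝ) / D ≤ 1 := by
    rw [div_le_one hD']; exact_mod_cast ht
  have hu0 : (0 : ℝ) ≤ (t : ℝ) / D := by positivity
  have e1 : 1 + (t : ℝ) * (1 / (D : ℝ)) = 1 + (t : ℝ) / D := by ring
  have e2 : (1 : ℝ) - t / (2 * D) = 1 - (t / D) / 2 := by ring
  rw [e1] at h1
  rw [e2]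
  calc (1 : ℝ) ≤ (1 + (t : ℝ) / D) * (1 - (t / D) / 2) := by nlinarith
    _ ≤ _ := mul_le_mul_of_nonneg_right h1 (by linarith)

lemma pull_deg (H : SimpleGraph V) (G : SimpleGraph W) (D : ℕ) (hG : ∀ a, (nb G a).card ≤ D)
    (f : V → W) (x : V) (L : Finset V) :
    (L.filter (fun y => (pull H G f).Adj x y)).card ≤ D := by
  refine le_trans ?_ (hG (f x))
  refine Finset.card_le_card_of_injOn f ?_ ?_
  · intro y hy
    rw [Finset.mem_coe, Finset.mem_filter] at hy
    rw [Finset.mem_coe, mem_nb]
    exact hy.2.2.1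
  · intro y hy y' hy' he
    rw [Finset.mem_coe, Finset.mem_filter] at hy hy'
    exact (pull_locInj H G f).inj x y y' hy.2 hy'.2 he

/-- one random map -/
lemma step_sum (H : SimpleGraph V) (G : SimpleGraph W) (m : ℕ) (hH : ∀ x, (nb H x).card ≤ 4 * m)
    (hN : 16 * m ≤ Fintype.card W) (hN0 : 0 < Fintype.card W) (D : ℕ) (hD : 1 ≤ D)
    (hG : ∀ a, (nb G a).card ≤ D) (x : V) (L : Finset V) (hL : L ⊆ nb H x) :
    ∑ f : V → W, (1 + 1 / (D : ℝ)) ^ (L.filter (fun y => ¬ (pull H G f).Adj x y)).card
      ≤ (Fintype.card (V → W) : ℝ) * ((1 + 1 / (D : ℝ)) ^ L.card *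
        (1 - L.card * ((vol G : ℝ) / (4 * D * (Fintype.card W : ℝ) ^ 2)))) := by
  set b : ℝ := 1 + 1 / (D : ℝ) with hb
  have hD' : (0 : ℝ) < D := by exact_mod_cast hD
  have hb0 : 0 < b := by positivity
  have hN' : (0 : ℝ) < Fintype.card W := by exact_mod_cast hN0
  have h1 : ∀ f : V → W, b ^ (L.filter (fun y => ¬ (pull H G f).Adj x y)).card
      ≤ b ^ L.card * (1 - ((L.filter (fun y => (pull H G f).Adj x y)).card : ℝ) / (2 * D)) := by
    intro f
    have hc := Finset.card_filter_add_card_filter_not (s := L)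
      (p := fun y => (pull H G f).Adj x y)
    have ht := pull_deg H G D hG f x L
    have hb1 := bern hD ht
    rw [← hb] at hb1
    have hpow : b ^ L.card = b ^ (L.filter (fun y => ¬ (pull H G f).Adj x y)).card *
        b ^ (L.filter (fun y => (pull H G f).Adj x y)).card := by
      rw [← pow_add]; congr 1; omega
    rw [hpow, mul_assoc]
    exact le_mul_of_one_le_right (by positivity) hb1
  have h2 : ∑ f : V → W, ((L.filter (fun y => (pull H G f).Adj x y)).card : ℝ)
      = ∑ y ∈ L, ∑ f : V → W, (if (pull H G f).Adj x y then (1 : ℝ) else 0) := by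
    rw [Finset.sum_comm]
    refine Finset.sum_congr rfl fun f _ => ?_
    rw [Finset.card_filter]
    push_cast
    rfl
  have h3 : (L.card : ℝ) * ((vol G : ℝ) / (2 * (Fintype.card W : ℝ) ^ 2) *
      (Fintype.card (V → W) : ℝ))
      ≤ ∑ f : V → W, ((L.filter (fun y => (pull H G f).Adj x y)).card : ℝ) := by
    rw [h2, ← nsmul_eq_mul, ← Finset.sum_const]
    refine Finset.sum_le_sum fun y hy => ?_
    exact sum_pull H G m hH hN hN0 (mem_nb.mp (hL hy))
  calc ∑ f : V → W, b ^ (L.filter (fun y => ¬ (pull H G f).Adj x y)).card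
      ≤ ∑ f : V → W, b ^ L.card *
        (1 - ((L.filter (fun y => (pull H G f).Adj x y)).card : ℝ) / (2 * D)) :=
        Finset.sum_le_sum fun f _ => h1 f
    _ = b ^ L.card * ((Fintype.card (V → W) : ℝ) -
        (∑ f : V → W, ((L.filter (fun y => (pull H G f).Adj x y)).card : ℝ)) / (2 * D)) := by
        rw [← Finset.mul_sum, Finset.sum_sub_distrib, Finset.sum_const, Finset.card_univ,
          nsmul_eq_mul, mul_one, Finset.sum_div]
    _ ≤ b ^ L.card * ((Fintype.card (V → W) : ℝ) -
        ((L.card : ℝ) * ((vol G : ℝ) / (2 * (Fintype.card W : ℝ) ^ 2) *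
      (Fintype.card (V → W) : ℝ))) / (2 * D)) := by
        refine mul_le_mul_of_nonneg_left ?_ (by positivity)
        have := div_le_div_of_nonneg_right h3 (show (0 : ℝ) ≤ 2 * D by positivity)
        linarith
    _ = _ := by
        field_simp
        ring

/-- the neighbours of `x` which are not neighbours of `x` in any of the pulled back graphs -/
noncomputable def rest (H : SimpleGraph V) (G : SimpleGraph W) {M : ℕ} (ω : Fin M → V → W)
    (x : V) : Finset V :=
  (nb H x).filter (fun y => ∀ i, ¬ (pull H G (ω i)).Adj x y)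

lemma rest_cons (H : SimpleGraph V) (G : SimpleGraph W) {M : ℕ} (f : V → W) (ω : Fin M → V → W)
    (x : V) : rest H G (Fin.cons f ω : Fin (M + 1) → V → W) x
      = (rest H G ω x).filter (fun y => ¬ (pull H G f).Adj x y) := by
  ext y
  simp only [rest, Finset.mem_filter, Fin.forall_fin_succ, Fin.cons_zero, Fin.cons_succ]
  tauto

/-- `M` random maps -/
lemma moment (H : SimpleGraph V) (G : SimpleGraph W) (m : ℕ) (hH : ∀ x, (nb H x).card ≤ 4 * m)
    (hN : 16 * m ≤ Fintype.card W) (hN0 : 0 < Fintype.card W) (D : ℕ) (hD : 1 ≤ D)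
    (hG : ∀ a, (nb G a).card ≤ D) (x : V) (a : ℝ)
    (ha : a = 1 - 2 * m * ((vol G : ℝ) / (4 * D * (Fintype.card W : ℝ) ^ 2)))
    (ha0 : 0 ≤ a) (M : ℕ) :
    ∑ ω : Fin M → V → W, (1 + 1 / (D : ℝ)) ^ (rest H G ω x).card
      ≤ (Fintype.card (V → W) : ℝ) ^ M * (a ^ M * (1 + 1 / (D : ℝ)) ^ (4 * m) +
        (1 - a ^ M) * (1 + 1 / (D : ℝ)) ^ (2 * m)) := by
  set b : ℝ := 1 + 1 / (D : ℝ) with hb
  set q : ℝ := (vol G : ℝ) / (4 * D * (Fintype.card W : ℝ) ^ 2) with hq
  have hD' : (0 : ℝ) < D := by exact_mod_cast hD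
  have hb1 : 1 ≤ b := by
    rw [hb]
    have : (0 : ℝ) < 1 / D := by positivity
    linarith
  have hq0 : 0 ≤ q := by positivity
  have ha1 : a ≤ 1 := by
    rw [ha]
    have : 0 ≤ 2 * (m : ℝ) * q := by positivity
    linarith
  induction M with
  | zero =>
    have hr : ∀ ω : Fin 0 → V → W, rest H G ω x = nb H x := by
      intro ω
      ext y
      simp [rest]
    simp only [hr, Finset.sum_const, Finset.card_univ]
    simp only [Fintype.card_pi, Finset.univ_eq_empty, Finset.prod_empty, one_smul, pow_zero,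
      one_mul, sub_self, zero_mul, add_zero]
    exact pow_le_pow_right₀ hb1 (hH x)
  | succ M ih =>
    rw [← (Fin.consEquiv (fun _ : Fin (M + 1) => V → W)).sum_comp, Fintype.sum_prod_type,
      Finset.sum_comm]
    have h1 : ∀ ω : Fin M → V → W, ∑ f : V → W,
        b ^ (rest H G (Fin.consEquiv (fun _ : Fin (M + 1) => V → W) (f, ω)) x).card
        ≤ (Fintype.card (V → W) : ℝ) * (a * b ^ (rest H G ω x).card +
          (1 - a) * b ^ (2 * m)) := by
      intro ω
      have h2 : ∀ f : V → W, rest H G (Fin.consEquiv (fun _ : Fin (M + 1) => V → W) (f, ω)) x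
          = (rest H G ω x).filter (fun y => ¬ (pull H G f).Adj x y) := fun f => rest_cons H G f ω x
      simp only [h2]
      refine (step_sum H G m hH hN hN0 D hD hG x (rest H G ω x)
        (Finset.filter_subset _ _)).trans ?_
      refine mul_le_mul_of_nonneg_left ?_ (by positivity)
      rw [← hb, ← hq]
      rcases le_or_gt (2 * m) (rest H G ω x).card with h | h
      · have h' : (2 * m : ℝ) ≤ (rest H G ω x).card := by exact_mod_cast h
        have h3 : 1 - ((rest H G ω x).card : ℝ) * q ≤ a := by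
          rw [ha]
          nlinarith
        have h4 : 0 ≤ (1 - a) * b ^ (2 * m) := by
          have : 0 ≤ b ^ (2 * m) := by positivity
          nlinarith
        have h5 : 0 ≤ b ^ (rest H G ω x).card := by positivity
        nlinarith
      · have h3 : b ^ (rest H G ω x).card ≤ b ^ (2 * m) := pow_le_pow_right₀ hb1 h.le
        have h5 : 0 ≤ b ^ (rest H G ω x).card := by positivity
        have h6 : 0 ≤ ((rest H G ω x).card : ℝ) * q := by positivity
        nlinarith
    refine (Finset.sum_le_sum fun ω _ => h1 ω).trans ?_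
    rw [← Finset.mul_sum, Finset.sum_add_distrib, ← Finset.mul_sum, Finset.sum_const,
      Finset.card_univ, nsmul_eq_mul]
    have hc : (Fintype.card (Fin M → V → W) : ℝ) = (Fintype.card (V → W) : ℝ) ^ M := by
      rw [Fintype.card_pi_const]
      push_cast
      rfl
    rw [hc]
    have hK : (0 : ℝ) ≤ (Fintype.card (V → W) : ℝ) := by positivity
    calc (Fintype.card (V → W) : ℝ) * (a * ∑ ω : Fin M → V → W, b ^ (rest H G ω x).card +
          (Fintype.card (V → W) : ℝ) ^ M * ((1 - a) * b ^ (2 * m)))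
        ≤ (Fintype.card (V → W) : ℝ) * (a * ((Fintype.card (V → W) : ℝ) ^ M *
          (a ^ M * b ^ (4 * m) + (1 - a ^ M) * b ^ (2 * m))) +
          (Fintype.card (V → W) : ℝ) ^ M * ((1 - a) * b ^ (2 * m))) := by
          refine mul_le_mul_of_nonneg_left ?_ hK
          have := mul_le_mul_of_nonneg_left ih ha0
          linarith
      _ = _ := by ring

/-- closed neighbourhoods -/
noncomputable def cn (H : SimpleGraph V) (x : V) : Finset V := insert x (nb H x)

lemma mem_cn {H : SimpleGraph V} {x y : V} : y ∈ cn H x ↔ y = x ∨ H.Adj x y := by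
  rw [cn, Finset.mem_insert, mem_nb]

lemma cn_symm {H : SimpleGraph V} {x y : V} (h : y ∈ cn H x) : x ∈ cn H y := by
  rw [mem_cn] at h ⊢
  rcases h with h | h
  · exact Or.inl h.symm
  · exact Or.inr h.symm

/-- closed balls of radius two -/
noncomputable def b2 (H : SimpleGraph V) (x : V) : Finset V := (cn H x).biUnion (cn H)

lemma b2_symm {H : SimpleGraph V} {x y : V} (h : y ∈ b2 H x) : x ∈ b2 H y := by
  rw [b2, Finset.mem_biUnion] at h ⊢
  obtain ⟨u, hu, hy⟩ := h
  exact ⟨u, cn_symm hy, cn_symm hu⟩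

lemma card_cn {H : SimpleGraph V} {d : ℕ} (hH : ∀ x, (nb H x).card ≤ d) (x : V) :
    (cn H x).card ≤ d + 1 :=
  (Finset.card_insert_le _ _).trans (Nat.add_le_add_right (hH x) 1)

lemma card_b2 {H : SimpleGraph V} {d : ℕ} (hH : ∀ x, (nb H x).card ≤ d) (x : V) :
    (b2 H x).card ≤ (d + 1) ^ 2 := by
  refine (Finset.card_biUnion_le_card_mul _ _ (d + 1) fun y _ => card_cn hH y).trans ?_
  rw [pow_two]
  exact Nat.mul_le_mul_right _ (card_cn hH x)

lemma pull_congr (H : SimpleGraph V) (G : SimpleGraph W) (f f' : V → W) (x : V)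
    (h : ∀ z ∈ b2 H x, f z = f' z) (y : V) (hp : (pull H G f).Adj x y) :
    (pull H G f').Adj x y := by
  obtain ⟨h1, h2, h3, h4⟩ := hp
  have mx : x ∈ b2 H x := Finset.mem_biUnion.mpr ⟨x, mem_cn.mpr (Or.inl rfl), mem_cn.mpr (Or.inl rfl)⟩
  have m1 : ∀ z, H.Adj x z → z ∈ b2 H x := fun z hz =>
    Finset.mem_biUnion.mpr ⟨x, mem_cn.mpr (Or.inl rfl), mem_cn.mpr (Or.inr hz)⟩
  have m2 : ∀ z, H.Adj y z → z ∈ b2 H x := fun z hz =>
    Finset.mem_biUnion.mpr ⟨y, mem_cn.mpr (Or.inr h1), mem_cn.mpr (Or.inr hz)⟩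
  refine ⟨h1, ?_, ?_, ?_⟩
  · rw [← h x mx, ← h y (m1 y h1)]; exact h2
  · intro y' hy' he
    refine h3 y' hy' ?_
    rw [h y' (m1 y' hy'), h y (m1 y h1)]; exact he
  · intro x' hx' he
    refine h4 x' hx' ?_
    rw [h x' (m2 x' hx'), h x mx]; exact he

/-- **One round.** -/
theorem stage (H : SimpleGraph V) (G : SimpleGraph W) (m : ℕ) (hH : ∀ x, (nb H x).card ≤ 4 * m)
    (hN : 16 * m ≤ Fintype.card W) (hN0 : 0 < Fintype.card W) (D : ℕ) (hD : 1 ≤ D)
    (hG : ∀ a, (nb G a).card ≤ D) (M : ℕ)
    (hM : 4 * (Fintype.card W : ℝ) ^ 2 ≤ M * vol G)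
    (hm : 8 * ((4 * m + 1 : ℕ) : ℝ) ^ 4 ≤ (1 + 1 / (D : ℝ)) ^ m) :
    ∃ f : Fin M → V → W, ∀ x, (rest H G f x).card ≤ 3 * m := by
  set b : ℝ := 1 + 1 / (D : ℝ) with hb
  set q : ℝ := (vol G : ℝ) / (4 * D * (Fintype.card W : ℝ) ^ 2) with hq
  set K : ℝ := (Fintype.card (V → W) : ℝ) with hK
  have hD' : (0 : ℝ) < D := by exact_mod_cast hD
  have hN' : (0 : ℝ) < Fintype.card W := by exact_mod_cast hN0
  have hb1 : 1 ≤ b := by
    rw [hb]
    have : (0 : ℝ) < 1 / D := by positivity
    linarith
  have hb0 : 0 < b := by linarith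
  have hq0 : 0 ≤ q := by positivity
  have hK0 : 0 ≤ K := by positivity
  have hvol : (vol G : ℝ) ≤ Fintype.card W * D := by
    have : vol G ≤ Fintype.card W * D := by
      rw [vol]
      refine (Finset.sum_le_card_nsmul _ _ D fun a _ => hG a).trans ?_
      rw [Finset.card_univ, smul_eq_mul]
    exact_mod_cast this
  set a : ℝ := 1 - 2 * m * q with ha
  have h16 : (16 : ℝ) * m ≤ Fintype.card W := by exact_mod_cast hN
  have ha0 : 0 ≤ a := by
    have h1 : 2 * (m : ℝ) * q ≤ 1 := by
      rw [hq, mul_div_assoc', div_le_one (by positivity)]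
      have : (m : ℝ) * vol G ≤ m * (Fintype.card W * D) :=
        mul_le_mul_of_nonneg_left hvol (by positivity)
      have h3 : (m : ℝ) * (Fintype.card W * D) ≤ (Fintype.card W : ℝ) * (Fintype.card W * D) :=
        mul_le_mul_of_nonneg_right (by linarith) (by positivity)
      nlinarith
    linarith
  -- the power of `a`
  have haM : a ^ M * b ^ (2 * m) ≤ 1 := by
    have h1 : a ≤ Real.exp (-(2 * m * q)) := by
      have := Real.add_one_le_exp (-(2 * m * q))
      linarith
    have h2 : a ^ M ≤ Real.exp (-(2 * m * q)) ^ M := pow_le_pow_left₀ ha0 h1 M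
    have h3 : b ≤ Real.exp (1 / D) := by
      have := Real.add_one_le_exp (1 / (D : ℝ))
      linarith
    have h4 : b ^ (2 * m) ≤ Real.exp (1 / D) ^ (2 * m) := pow_le_pow_left₀ hb0.le h3 _
    calc a ^ M * b ^ (2 * m) ≤ Real.exp (-(2 * m * q)) ^ M * Real.exp (1 / D) ^ (2 * m) :=
          mul_le_mul h2 h4 (by positivity) (by positivity)
      _ = Real.exp (M * (-(2 * m * q)) + (2 * m : ℕ) * (1 / D)) := by
          rw [← Real.exp_nat_mul, ← Real.exp_nat_mul, ← Real.exp_add]
      _ ≤ Real.exp 0 := by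
          refine Real.exp_le_exp.mpr ?_
          have h5 : 1 / (D : ℝ) ≤ M * q := by
            rw [hq, mul_div_assoc', div_le_div_iff₀ hD' (by positivity)]
            nlinarith
          push_cast
          have : (m : ℝ) * (1 / D) ≤ m * (M * q) := mul_le_mul_of_nonneg_left h5 (by positivity)
          linarith
      _ = 1 := Real.exp_zero
  -- the bad events
  let bad : V → (V → Fin M → W) → Prop := fun x τ => 3 * m < (rest H G (fun i v => τ v i) x).card
  have hcnt : ∀ x, (Helper635.LLL.cnt (bad x) : ℝ) ≤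
      (2 / b ^ m) * Fintype.card (V → Fin M → W) := by
    intro x
    have hmom := moment H G m hH hN hN0 D hD hG x a (by rw [ha]) ha0 M
    rw [← hb, ← hK] at hmom
    have e1 : ∑ τ : V → Fin M → W, b ^ (rest H G (fun i v => τ v i) x).card
        = ∑ ω : Fin M → V → W, b ^ (rest H G ω x).card := by
      refine Fintype.sum_equiv (Equiv.piComm fun _ _ => W) _ _ fun τ => rfl
    have e2 : (Helper635.LLL.cnt (bad x) : ℝ) * b ^ (3 * m)
        ≤ ∑ τ : V → Fin M → W, b ^ (rest H G (fun i v => τ v i) x).card := by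
      rw [Helper635.LLL.cnt, ← nsmul_eq_mul, ← Finset.sum_const]
      refine (Finset.sum_le_sum (g := fun τ => b ^ (rest H G (fun i v => τ v i) x).card)
        fun τ hτ => ?_).trans ?_
      · rw [Helper635.LLL.mem_ev] at hτ
        exact pow_le_pow_right₀ hb1 (le_of_lt hτ)
      · refine Finset.sum_le_sum_of_subset_of_nonneg (Finset.subset_univ _) fun τ _ _ => ?_
        positivity
    have e3 : (Fintype.card (V → Fin M → W) : ℝ) = K ^ M := by
      have : Fintype.card (V → Fin M → W) = (Fintype.card (V → W)) ^ M := by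
        simp only [Fintype.card_fun, Fintype.card_fin]
        rw [← pow_mul, ← pow_mul, mul_comm]
      rw [hK, this]
      push_cast
      rfl
    rw [e3]
    have h4 : a ^ M * b ^ (4 * m) + (1 - a ^ M) * b ^ (2 * m) ≤ 2 * b ^ (2 * m) := by
      have h5 : a ^ M * b ^ (4 * m) ≤ b ^ (2 * m) := by
        have : b ^ (4 * m) = b ^ (2 * m) * b ^ (2 * m) := by rw [← pow_add]; congr 1; ring
        rw [this, ← mul_assoc]
        exact mul_le_of_le_one_left (by positivity) haM
      have h6 : 0 ≤ a ^ M * b ^ (2 * m) := by positivity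
      nlinarith
    have h7 : (Helper635.LLL.cnt (bad x) : ℝ) * b ^ (3 * m) ≤ K ^ M * (2 * b ^ (2 * m)) := by
      refine (e2.trans (e1.le.trans hmom)).trans ?_
      exact mul_le_mul_of_nonneg_left h4 (by positivity)
    have h8 : b ^ (3 * m) = b ^ (2 * m) * b ^ m := by rw [← pow_add]; congr 1; ring
    rw [h8] at h7
    have hbm : 0 < b ^ m := by positivity
    have hb2m : 0 < b ^ (2 * m) := by positivity
    rw [div_mul_eq_mul_div, le_div_iff₀ hbm]
    by_contra hcon
    push Not at hcon
    nlinarith [mul_lt_mul_of_pos_right hcon hb2m]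
  have hdep : ∀ x ∈ (univ : Finset V), Helper635.LLL.DependsOn (bad x) (b2 H x) := by
    intro x _ τ τ' hτ hbad
    have : rest H G (fun i v => τ' v i) x = rest H G (fun i v => τ v i) x := by
      ext y
      rw [rest, rest, Finset.mem_filter, Finset.mem_filter]
      refine and_congr_right fun _ => ?_
      refine forall_congr' fun i => not_congr ⟨?_, ?_⟩
      · exact pull_congr H G _ _ x (fun z hz => by rw [hτ z hz]) y
      · exact pull_congr H G _ _ x (fun z hz => by rw [hτ z hz]) y
    change 3 * m < (rest H G (fun i v => τ' v i) x).card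
    rw [this]
    exact hbad
  have hdeg : ∀ x ∈ (univ : Finset V),
      ((univ : Finset V).filter (fun z => ¬ Disjoint (b2 H x) (b2 H z))).card
        ≤ (4 * m + 1) ^ 4 := by
    intro x _
    refine (Finset.card_le_card (t := (b2 H x).biUnion (b2 H)) ?_).trans ?_
    · intro z hz
      rw [Finset.mem_filter, Finset.not_disjoint_iff] at hz
      obtain ⟨_, u, hu, hu'⟩ := hz
      exact Finset.mem_biUnion.mpr ⟨u, hu, b2_symm hu'⟩
    · refine (Finset.card_biUnion_le_card_mul _ _ ((4 * m + 1) ^ 2)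
        fun y _ => card_b2 hH y).trans ?_
      calc (b2 H x).card * (4 * m + 1) ^ 2 ≤ (4 * m + 1) ^ 2 * (4 * m + 1) ^ 2 :=
            Nat.mul_le_mul_right _ (card_b2 hH x)
        _ = (4 * m + 1) ^ 4 := by ring
  have h4 : 4 * (2 / b ^ m) * (((4 * m + 1) ^ 4 : ℕ) : ℝ) ≤ 1 := by
    have hbm : 0 < b ^ m := by positivity
    rw [show 4 * (2 / b ^ m) * (((4 * m + 1) ^ 4 : ℕ) : ℝ)
      = 8 * (((4 * m + 1) ^ 4 : ℕ) : ℝ) / b ^ m by ring, div_le_one hbm]
    push_cast at hm ⊢
    exact hm
  have hne : 0 < Fintype.card (V → Fin M → W) := by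
    haveI : Nonempty W := Fintype.card_pos_iff.mp hN0
    exact Fintype.card_pos
  obtain ⟨τ, hτ⟩ := Helper635.LLL.lll (univ : Finset V) bad (b2 H) hdep (2 / b ^ m)
    ((4 * m + 1) ^ 4) (by positivity) (fun x _ => hcnt x)
    (by intro x hx; convert hdeg x hx) h4 (Nat.one_le_pow _ _ (by omega)) hne
  refine ⟨fun i v => τ v i, fun x => ?_⟩
  have := hτ x (Finset.mem_univ x)
  exact not_lt.mp this

end stage

end Pool.Agent.H55
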