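import Mathlib
import Pool.Agent.H55.Stage

/-!
# Covering graphs of bounded degree by graphs from a class

If a class `P` of graphs is closed under locally injective homomorphisms and its largest members
on `n` vertices have about `n ^ α` edges, `1 < α < 2`, then every graph with all degrees at most
`Δ` is the union of `O (Δ ^ (2 - α))` graphs from the class.
-/

set_option autoImplicit false
set_option linter.all false

namespace Pool.Agent.H55

open Finset Classical

/-- closed under locally injective homomorphisms, and containing the graphs of degree one -/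
structure LIClass (P : ∀ V : Type, SimpleGraph V → Prop) : Prop where
  pull : ∀ {V W : Type} [Finite V] [Finite W] (F : SimpleGraph V) (G : SimpleGraph W)
    (f : V → W), LocInj F G f → P W G → P V F
  single : ∀ {V : Type} [Finite V] (F : SimpleGraph V),
    (∀ x y z, F.Adj x y → F.Adj x z → y = z) → P V F

lemma LIClass.mono {P : ∀ V : Type, SimpleGraph V → Prop} (hP : LIClass P) {V : Type} [Finite V]
    {F G : SimpleGraph V} (h : F ≤ G) (hG : P V G) : P V F :=
  hP.pull F G id ⟨fun x y hxy => h hxy, fun x y y' _ _ he => he⟩ hG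

/-- `H` is the union of `M` graphs with the property `P` -/
def Cov (P : ∀ V : Type, SimpleGraph V → Prop) {V : Type} (H : SimpleGraph V) (M : ℕ) : Prop :=
  ∃ F : Fin M → SimpleGraph V, (∀ i, F i ≤ H ∧ P V (F i)) ∧ ∀ x y, H.Adj x y → ∃ i, (F i).Adj x y

/-- what is left -/
def leftover {V : Type} (H : SimpleGraph V) {M : ℕ} (F : Fin M → SimpleGraph V) :
    SimpleGraph V where
  Adj x y := H.Adj x y ∧ ∀ i, ¬ (F i).Adj x y
  symm := by
    constructor
    rintro x y ⟨h1, h2⟩
    exact ⟨h1.symm, fun i hi => h2 i hi.symm⟩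
  loopless := ⟨fun x h => H.loopless.irrefl x h.1⟩

lemma Cov.add {P : ∀ V : Type, SimpleGraph V → Prop} {V : Type} {H : SimpleGraph V} {M M' : ℕ}
    (F : Fin M → SimpleGraph V) (hF : ∀ i, F i ≤ H ∧ P V (F i)) (h : Cov P (leftover H F) M') :
    Cov P H (M + M') := by
  obtain ⟨F', hF', hc⟩ := h
  refine ⟨Fin.append F F', fun i => ?_, fun x y hxy => ?_⟩
  · refine Fin.addCases (fun j => ?_) (fun j => ?_) i
    · rw [Fin.append_left]; exact hF j
    · rw [Fin.append_right]
      exact ⟨(hF' j).1.trans fun _ _ h => h.1, (hF' j).2⟩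
  · by_cases h : ∃ i, (F i).Adj x y
    · obtain ⟨i, hi⟩ := h
      exact ⟨Fin.castAdd M' i, by rw [Fin.append_left]; exact hi⟩
    · push Not at h
      obtain ⟨j, hj⟩ := hc x y ⟨hxy, h⟩
      exact ⟨Fin.natAdd M j, by rw [Fin.append_right]; exact hj⟩

/-! ### Bounded degree -/

lemma greedy {ι : Type} (R : ι → ι → Prop) (hs : ∀ i j, R i j → R j i) [Fintype ι] (k : ℕ)
    (hR : ∀ i, (univ.filter (R i)).card < k) :
    ∃ χ : ι → Fin k, ∀ i j, i ≠ j → R i j → χ i ≠ χ j := by
  suffices h : ∀ s : Finset ι, ∃ χ : ι → Fin k, ∀ i ∈ s, ∀ j ∈ s, i ≠ j → R i j → χ i ≠ χ j by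
    obtain ⟨χ, hχ⟩ := h univ
    exact ⟨χ, fun i j => hχ i (mem_univ i) j (mem_univ j)⟩
  intro s
  induction s using Finset.induction_on with
  | empty =>
    by_cases hk : 0 < k
    · exact ⟨fun _ => ⟨0, hk⟩, by simp⟩
    · refine ⟨fun i => ?_, by simp⟩
      have := hR i
      omega
  | insert a s ha ih =>
    obtain ⟨χ, hχ⟩ := ih
    have hc : ∃ c : Fin k, c ∉ (univ.filter (R a)).image χ := by
      by_contra hcon
      push Not at hcon
      have h1 : (univ : Finset (Fin k)) ⊆ (univ.filter (R a)).image χ := fun c _ => hcon c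
      have h2 := Finset.card_le_card h1
      rw [Finset.card_univ, Fintype.card_fin] at h2
      have h3 := Finset.card_image_le (s := univ.filter (R a)) (f := χ)
      have := hR a
      omega
    obtain ⟨c, hc⟩ := hc
    have hc' : ∀ j, R a j → χ j ≠ c := by
      intro j hj he
      exact hc (Finset.mem_image.mpr ⟨j, by simp [hj], he⟩)
    refine ⟨Function.update χ a c, ?_⟩
    intro i hi j hj hij hr
    rcases Finset.mem_insert.mp hi with rfl | hi'
    · rw [Function.update_self, Function.update_of_ne hij.symm]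
      exact (hc' j hr).symm
    · rcases Finset.mem_insert.mp hj with rfl | hj'
      · rw [Function.update_self, Function.update_of_ne hij]
        exact hc' i (hs _ _ hr)
      · have h1 : i ≠ a := fun h => ha (h ▸ hi')
        have h2 : j ≠ a := fun h => ha (h ▸ hj')
        rw [Function.update_of_ne h1, Function.update_of_ne h2]
        exact hχ i hi' j hj' hij hr

lemma cov_small {P : ∀ V : Type, SimpleGraph V → Prop} (hP : LIClass P) {V : Type} [Fintype V]
    (H : SimpleGraph V) (d : ℕ) (hH : ∀ x, (nb H x).card ≤ d) : Cov P H (2 * d + 1) := by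
  let R : Sym2 V → Sym2 V → Prop := fun e e' => e ∈ H.edgeSet ∧ e' ∈ H.edgeSet ∧ ∃ v, v ∈ e ∧ v ∈ e'
  obtain ⟨χ, hχ⟩ := greedy R (fun e e' h => ⟨h.2.1, h.1, h.2.2.imp fun v hv => hv.symm⟩)
    (2 * d + 1) (by
      intro e
      induction e using Sym2.ind with
      | _ x y =>
        have : univ.filter (R s(x, y)) ⊆ (nb H x).image (fun z => s(x, z)) ∪
            (nb H y).image (fun z => s(y, z)) := by
          intro e' he'
          rw [Finset.mem_filter] at he'
          obtain ⟨_, _, h2, v, hv, hv'⟩ := he'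
          obtain ⟨z, rfl⟩ := hv'
          rw [Finset.mem_union, Finset.mem_image, Finset.mem_image]
          rw [SimpleGraph.mem_edgeSet] at h2
          rcases Sym2.mem_iff.mp hv with rfl | rfl
          · exact Or.inl ⟨z, mem_nb.mpr h2, rfl⟩
          · exact Or.inr ⟨z, mem_nb.mpr h2, rfl⟩
        have h1 := Finset.card_le_card this
        have h2 := Finset.card_union_le ((nb H x).image (fun z => s(x, z)))
          ((nb H y).image (fun z => s(y, z)))
        have h3 := Finset.card_image_le (s := nb H x) (f := fun z => s(x, z))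
        have h4 := Finset.card_image_le (s := nb H y) (f := fun z => s(y, z))
        have h5 := hH x
        have h6 := hH y
        have h7 : (univ.filter (R s(x, y))).card < 2 * d + 1 := by omega
        convert h7)
  refine ⟨fun i =>
    { Adj := fun x y => H.Adj x y ∧ χ s(x, y) = i
      symm := ⟨fun x y h => ⟨h.1.symm, by rw [Sym2.eq_swap]; exact h.2⟩⟩
      loopless := ⟨fun x h => H.loopless.irrefl x h.1⟩ }, fun i => ⟨fun x y h => h.1, ?_⟩,
    fun x y hxy => ⟨χ s(x, y), hxy, rfl⟩⟩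
  refine hP.single _ fun x y z hy hz => ?_
  by_contra hne
  refine hχ s(x, y) s(x, z) (fun h => hne ?_) ?_ (hy.2.trans hz.2.symm)
  · exact Sym2.congr_right.mp h
  · exact ⟨hy.1, hz.1, x, Sym2.mem_mk_left x y, Sym2.mem_mk_left x z⟩

/-! ### Pruning -/

/-- the degree sum inside a set -/
lemma vol_comap {V : Type} [Fintype V] (G : SimpleGraph V) (T : Finset V) :
    vol (G.comap (Subtype.val : {x // x ∈ T} → V))
      = ∑ u ∈ T, ((nb G u).filter (fun v => v ∈ T)).card := by
  rw [vol, ← Finset.sum_coe_sort T (fun u => ((nb G u).filter (fun v => v ∈ T)).card)]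
  refine Finset.sum_congr rfl fun u _ => ?_
  refine Finset.card_bij (fun v _ => v.1) ?_ ?_ ?_
  · intro v hv
    rw [mem_nb] at hv
    rw [Finset.mem_filter, mem_nb]
    exact ⟨hv, v.2⟩
  · intro v _ v' _ h
    exact Subtype.ext h
  · intro v hv
    rw [Finset.mem_filter, mem_nb] at hv
    exact ⟨⟨v, hv.2⟩, mem_nb.mpr hv.1, rfl⟩

/-- the edges which avoid a set -/
def avoid {V : Type} (G : SimpleGraph V) (A : Finset V) : SimpleGraph V where
  Adj x y := G.Adj x y ∧ x ∉ A ∧ y ∉ A
  symm := ⟨fun x y h => ⟨h.1.symm, h.2.2, h.2.1⟩⟩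
  loopless := ⟨fun x h => G.loopless.irrefl x h.1⟩

lemma vol_avoid {V : Type} [Fintype V] (G : SimpleGraph V) (A : Finset V) :
    vol G ≤ vol (avoid G A) + 2 * ∑ u ∈ A, (nb G u).card := by
  have h1 : ∀ u, (nb G u).card ≤ (nb (avoid G A) u).card +
      ((nb G u).filter (fun v => v ∈ A)).card + (if u ∈ A then (nb G u).card else 0) := by
    intro u
    by_cases hu : u ∈ A
    · rw [if_pos hu]; omega
    · rw [if_neg hu, add_zero]
      have : nb G u ⊆ nb (avoid G A) u ∪ (nb G u).filter (fun v => v ∈ A) := by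
        intro v hv
        rw [Finset.mem_union, Finset.mem_filter]
        by_cases hvA : v ∈ A
        · exact Or.inr ⟨hv, hvA⟩
        · exact Or.inl (mem_nb.mpr ⟨mem_nb.mp hv, hu, hvA⟩)
      exact (Finset.card_le_card this).trans (Finset.card_union_le _ _)
  have h2 : ∑ u, ((nb G u).filter (fun v => v ∈ A)).card = ∑ u ∈ A, (nb G u).card := by
    have e1 : ∀ u, ((nb G u).filter (fun v => v ∈ A)).card
        = ∑ v ∈ A, (if G.Adj u v then 1 else 0) := by
      intro u
      rw [← Finset.card_filter]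
      congr 1
      ext v
      simp only [Finset.mem_filter, mem_nb]
      tauto
    have e2 : ∀ v, (nb G v).card = ∑ u, (if G.Adj u v then 1 else 0) := by
      intro v
      rw [← Finset.card_filter]
      congr 1
      ext u
      simp only [Finset.mem_filter, mem_nb, Finset.mem_univ, true_and]
      exact G.adj_comm v u
    simp only [e1, e2]
    exact Finset.sum_comm
  calc vol G ≤ ∑ u, ((nb (avoid G A) u).card + ((nb G u).filter (fun v => v ∈ A)).card +
        (if u ∈ A then (nb G u).card else 0)) := Finset.sum_le_sum fun u _ => h1 u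
    _ = vol (avoid G A) + ∑ u ∈ A, (nb G u).card + ∑ u ∈ A, (nb G u).card := by
        rw [Finset.sum_add_distrib, Finset.sum_add_distrib, h2, vol]
        congr 1
        rw [← Finset.sum_filter]
        refine Finset.sum_congr ?_ fun _ _ => rfl
        ext u; simp
    _ = _ := by ring

/-- few edges meet a small set -/
lemma few_edges {P : ∀ V : Type, SimpleGraph V → Prop} (hP : LIClass P) (α C : ℝ) (hα : 1 < α)
    (hC : 0 < C)
    (hup : ∀ (V : Type) [Fintype V] (G : SimpleGraph V), P V G →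
      (vol G : ℝ) ≤ C * (Fintype.card V : ℝ) ^ α)
    {V : Type} [Fintype V] (G : SimpleGraph V) (hG : P V G) (A : Finset V) (m : ℕ) (hm : 1 ≤ m)
    (hA : A.card ≤ m) :
    ((∑ u ∈ A, (nb G u).card : ℕ) : ℝ) ≤
      ((Fintype.card V / m + 1 : ℕ) : ℝ) * (C * (2 * m : ℝ) ^ α) := by
  let e := Fintype.equivFin V
  let T : ℕ → Finset V := fun j => A ∪ univ.filter (fun v => (e v : ℕ) / m = j)
  have hT : ∀ j, (T j).card ≤ 2 * m := by
    intro j
    have h1 : (univ.filter (fun v => (e v : ℕ) / m = j)).card ≤ m := by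
      have h2 : (univ.filter (fun v => (e v : ℕ) / m = j)).card ≤ (Finset.range m).card := by
        refine Finset.card_le_card_of_injOn (fun v => (e v : ℕ) % m) ?_ ?_
        · intro v _
          rw [Finset.mem_coe, Finset.mem_range]
          exact Nat.mod_lt _ hm
        · intro v hv w hw h
          rw [Finset.mem_coe, Finset.mem_filter] at hv hw
          have h3 : (e v : ℕ) = e w := by
            rw [← Nat.div_add_mod (e v : ℕ) m, ← Nat.div_add_mod (e w : ℕ) m, hv.2, hw.2]
            simp only at h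
            rw [h]
          exact e.injective (Fin.ext h3)
      rwa [Finset.card_range] at h2
    have := Finset.card_union_le A (univ.filter (fun v => (e v : ℕ) / m = j))
    show (A ∪ univ.filter (fun v => (e v : ℕ) / m = j)).card ≤ 2 * m
    omega
  have hvolT : ∀ j, (vol (G.comap (Subtype.val : {x // x ∈ T j} → V)) : ℝ)
      ≤ C * (2 * m : ℝ) ^ α := by
    intro j
    refine (hup _ _ (hP.pull _ G Subtype.val ⟨fun x y h => h, fun x y y' _ _ he => Subtype.ext he⟩
      hG)).trans ?_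
    refine mul_le_mul_of_nonneg_left ?_ hC.le
    refine Real.rpow_le_rpow (by positivity) ?_ (by linarith)
    rw [Fintype.card_coe]
    exact_mod_cast hT j
  have hcov : ∑ u ∈ A, (nb G u).card ≤
      ∑ j ∈ Finset.range (Fintype.card V / m + 1),
        vol (G.comap (Subtype.val : {x // x ∈ T j} → V)) := by
    simp only [vol_comap]
    calc ∑ u ∈ A, (nb G u).card
        ≤ ∑ u ∈ A, ∑ j ∈ Finset.range (Fintype.card V / m + 1),
          ((nb G u).filter (fun v => v ∈ T j)).card := by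
          refine Finset.sum_le_sum fun u _ => ?_
          have : nb G u ⊆ (Finset.range (Fintype.card V / m + 1)).biUnion
              (fun j => (nb G u).filter (fun v => v ∈ T j)) := by
            intro v hv
            rw [Finset.mem_biUnion]
            refine ⟨(e v : ℕ) / m, ?_, ?_⟩
            · rw [Finset.mem_range]
              exact Nat.lt_succ_of_le (Nat.div_le_div_right (e v).2.le)
            · rw [Finset.mem_filter]
              refine ⟨hv, ?_⟩
              show v ∈ A ∪ univ.filter (fun w => (e w : ℕ) / m = (e v : ℕ) / m)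
              simp
          exact (Finset.card_le_card this).trans Finset.card_biUnion_le
      _ = ∑ j ∈ Finset.range (Fintype.card V / m + 1), ∑ u ∈ A,
          ((nb G u).filter (fun v => v ∈ T j)).card := Finset.sum_comm
      _ ≤ _ := by
          refine Finset.sum_le_sum fun j _ => ?_
          refine Finset.sum_le_sum_of_subset ?_
          exact Finset.subset_union_left
  calc ((∑ u ∈ A, (nb G u).card : ℕ) : ℝ)
      ≤ ((∑ j ∈ Finset.range (Fintype.card V / m + 1),
        vol (G.comap (Subtype.val : {x // x ∈ T j} → V)) : ℕ) : ℝ) := by exact_mod_cast hcov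
    _ ≤ ∑ j ∈ Finset.range (Fintype.card V / m + 1), C * (2 * m : ℝ) ^ α := by
        push_cast
        exact Finset.sum_le_sum fun j _ => hvolT j
    _ = _ := by
        rw [Finset.sum_const, Finset.card_range, nsmul_eq_mul]

/-- **Pruning.** -/
lemma prune {P : ∀ V : Type, SimpleGraph V → Prop} (hP : LIClass P) (α C c : ℝ) (hα : 1 < α)
    (hα2 : α < 2) (hC : 1 ≤ C) (hc : 0 < c)
    (hup : ∀ (V : Type) [Fintype V] (G : SimpleGraph V), P V G →
      (vol G : ℝ) ≤ C * (Fintype.card V : ℝ) ^ α) :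
    ∃ l : ℝ, 0 < l ∧ ∃ N₁ : ℕ, ∀ (V : Type) [Fintype V] (G : SimpleGraph V),
      N₁ ≤ Fintype.card V → P V G → c * (Fintype.card V : ℝ) ^ α ≤ vol G →
      ∃ G' : SimpleGraph V, P V G' ∧ c / 2 * (Fintype.card V : ℝ) ^ α ≤ vol G' ∧
        ∀ x, ((nb G' x).card : ℝ) ≤ l * (Fintype.card V : ℝ) ^ (α - 1) := by
  have hC0 : 0 < C := by linarith
  -- the parameter
  obtain ⟨θ, hθ0, hθ1, hθ⟩ : ∃ θ : ℝ, 0 < θ ∧ θ ≤ 1 ∧ θ ^ (α - 1) ≤ c / (64 * C) := by
    refine ⟨min 1 ((c / (64 * C)) ^ (1 / (α - 1))), lt_min one_pos (by positivity), min_le_left _ _,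
      ?_⟩
    calc (min 1 ((c / (64 * C)) ^ (1 / (α - 1)))) ^ (α - 1)
        ≤ ((c / (64 * C)) ^ (1 / (α - 1))) ^ (α - 1) :=
          Real.rpow_le_rpow (by positivity) (min_le_right _ _) (by linarith)
      _ = c / (64 * C) := by
          rw [← Real.rpow_mul (by positivity), one_div_mul_cancel (by linarith), Real.rpow_one]
  refine ⟨2 * C / θ, by positivity, ⌈2 / θ⌉₊, ?_⟩
  intro V _ G hN hG hvol
  set N : ℝ := (Fintype.card V : ℝ) with hNdef
  have hN1 : 2 / θ ≤ N := (Nat.le_ceil _).trans (by rw [hNdef]; exact_mod_cast hN)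
  have hNpos : 0 < N := lt_of_lt_of_le (by positivity) hN1
  have hθN : 2 ≤ θ * N := by
    rw [div_le_iff₀ hθ0] at hN1
    linarith
  set A : Finset V := univ.filter (fun x => 2 * C / θ * N ^ (α - 1) < ((nb G x).card : ℝ)) with hA
  have hNa : N ^ α = N ^ (α - 1) * N := by
    rw [← Real.rpow_add_one hNpos.ne']
    congr 1
    ring
  have hNa0 : 0 < N ^ (α - 1) := by positivity
  -- the size of `A`
  have hAcard : (A.card : ℝ) ≤ θ * N / 2 := by
    have h1 : (A.card : ℝ) * (2 * C / θ * N ^ (α - 1)) ≤ C * N ^ α := by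
      calc (A.card : ℝ) * (2 * C / θ * N ^ (α - 1)) ≤ ∑ x ∈ A, ((nb G x).card : ℝ) := by
            rw [← nsmul_eq_mul, ← Finset.sum_const]
            refine Finset.sum_le_sum fun x hx => ?_
            rw [hA, Finset.mem_filter] at hx
            exact hx.2.le
        _ ≤ ∑ x, ((nb G x).card : ℝ) :=
            Finset.sum_le_sum_of_subset_of_nonneg (Finset.subset_univ _) fun _ _ _ => by positivity
        _ = vol G := by rw [vol]; push_cast; rfl
        _ ≤ C * N ^ α := hup V G hG
    rw [hNa] at h1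
    have h2 : (A.card : ℝ) * (2 * C / θ) ≤ C * N := by
      refine le_of_mul_le_mul_right ?_ hNa0
      calc (A.card : ℝ) * (2 * C / θ) * N ^ (α - 1)
          = (A.card : ℝ) * (2 * C / θ * N ^ (α - 1)) := by ring
        _ ≤ C * (N ^ (α - 1) * N) := h1
        _ = C * N * N ^ (α - 1) := by ring
    rw [mul_div_assoc', div_le_iff₀ hθ0] at h2
    have h3 : (A.card : ℝ) * 2 ≤ θ * N := by
      refine le_of_mul_le_mul_right ?_ hC0
      linarith
    linarith
  set m : ℕ := ⌊θ * N⌋₊ with hm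
  have hm1 : (m : ℝ) ≤ θ * N := Nat.floor_le (by positivity)
  have hm2 : θ * N < m + 1 := Nat.lt_floor_add_one _
  have hmge : 1 ≤ m := by
    rw [hm]
    exact Nat.le_floor (by push_cast; linarith)
  have hmge' : (1 : ℝ) ≤ m := by exact_mod_cast hmge
  have hAm : A.card ≤ m := by
    have : (A.card : ℝ) ≤ m := by linarith
    exact_mod_cast this
  have hfew := few_edges hP α C hα hC0 hup G hG A m hmge hAm
  have hdiv : ((Fintype.card V / m + 1 : ℕ) : ℝ) ≤ 2 * N / m := by
    have h1 : ((Fintype.card V / m : ℕ) : ℝ) ≤ N / m := Nat.cast_div_le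
    have h2 : 1 ≤ N / m := by
      rw [one_le_div (by linarith)]
      nlinarith
    push_cast
    have : 2 * N / m = N / m + N / m := by ring
    linarith
  have hfew2 : ((∑ u ∈ A, (nb G u).card : ℕ) : ℝ) ≤ c / 4 * N ^ α := by
    refine hfew.trans ?_
    calc ((Fintype.card V / m + 1 : ℕ) : ℝ) * (C * (2 * m : ℝ) ^ α)
        ≤ 2 * N / m * (C * (2 * m : ℝ) ^ α) :=
          mul_le_mul_of_nonneg_right hdiv (by positivity)
      _ = 2 * N * C * (2 ^ α * (m : ℝ) ^ (α - 1)) := by
          rw [Real.mul_rpow (by norm_num) (by positivity)]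
          have : (m : ℝ) ^ α = (m : ℝ) ^ (α - 1) * m := by
            rw [← Real.rpow_add_one (by linarith)]
            congr 1
            ring
          rw [this]
          field_simp
      _ ≤ 2 * N * C * (2 ^ (2 : ℝ) * (θ * N) ^ (α - 1)) := by
          refine mul_le_mul_of_nonneg_left ?_ (by positivity)
          refine mul_le_mul ?_ ?_ (by positivity) (by positivity)
          · exact Real.rpow_le_rpow_of_exponent_le (by norm_num) hα2.le
          · exact Real.rpow_le_rpow (by positivity) hm1 (by linarith)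
      _ = 8 * C * N * (θ ^ (α - 1) * N ^ (α - 1)) := by
          rw [Real.mul_rpow hθ0.le hNpos.le]
          norm_num
          ring
      _ ≤ 8 * C * N * (c / (64 * C) * N ^ (α - 1)) := by
          refine mul_le_mul_of_nonneg_left ?_ (by positivity)
          exact mul_le_mul_of_nonneg_right hθ hNa0.le
      _ = c / 8 * N ^ α := by
          rw [hNa]
          field_simp
          ring
      _ ≤ c / 4 * N ^ α := by
          refine mul_le_mul_of_nonneg_right (by linarith) (by positivity)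
  refine ⟨avoid G A, hP.mono (fun x y h => h.1) hG, ?_, ?_⟩
  · have h1 : (vol G : ℝ) ≤ vol (avoid G A) + 2 * ((∑ u ∈ A, (nb G u).card : ℕ) : ℝ) := by
      exact_mod_cast vol_avoid G A
    linarith
  · intro x
    by_cases hx : x ∈ A
    · have : nb (avoid G A) x = ∅ := by
        ext y
        simp [mem_nb, avoid, hx]
      rw [this]
      simp only [Finset.card_empty, Nat.cast_zero]
      positivity
    · rw [hA, Finset.mem_filter] at hx
      push Not at hx
      refine le_trans ?_ (hx (Finset.mem_univ x))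
      have : nb (avoid G A) x ⊆ nb G x := by
        intro y hy
        exact mem_nb.mpr (mem_nb.mp hy).1
      exact_mod_cast Finset.card_le_card this

/-! ### Asymptotics -/

lemma poly_exp (κ γ : ℝ) (hκ : 0 < κ) (hγ : 0 < γ) :
    ∃ m₀ : ℕ, ∀ m : ℕ, m₀ ≤ m → 8 * ((4 * m + 1 : ℕ) : ℝ) ^ 4 ≤ Real.exp (κ * (m : ℝ) ^ γ) := by
  have h1 := tendsto_rpow_mul_exp_neg_mul_atTop_nhds_zero (4 / γ) κ hκ
  have h2 : Filter.Tendsto (fun m : ℕ => (m : ℝ) ^ γ) Filter.atTop Filter.atTop :=
    (tendsto_rpow_atTop hγ).comp tendsto_natCast_atTop_atTop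
  have h3 := h1.comp h2
  have h4 : ∀ᶠ m : ℕ in Filter.atTop,
      ((m : ℝ) ^ γ) ^ (4 / γ) * Real.exp (-κ * (m : ℝ) ^ γ) < 1 / 5000 :=
    h3.eventually (gt_mem_nhds (by norm_num))
  obtain ⟨m₀, hm₀⟩ := Filter.eventually_atTop.mp h4
  refine ⟨max m₀ 1, fun m hm => ?_⟩
  have h5 := hm₀ m (le_trans (le_max_left _ _) hm)
  have hm1 : (1 : ℝ) ≤ m := by exact_mod_cast le_trans (le_max_right _ _) hm
  have h6 : ((m : ℝ) ^ γ) ^ (4 / γ) = (m : ℝ) ^ 4 := by
    rw [← Real.rpow_mul (by positivity), mul_div_cancel₀ _ hγ.ne']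
    norm_cast
  rw [h6, show -κ * (m : ℝ) ^ γ = -(κ * (m : ℝ) ^ γ) by ring, Real.exp_neg,
    ← div_eq_mul_inv, div_lt_iff₀ (Real.exp_pos _)] at h5
  have h7 : ((4 * m + 1 : ℕ) : ℝ) ≤ 5 * m := by push_cast; linarith
  have h8 : ((4 * m + 1 : ℕ) : ℝ) ^ 4 ≤ (5 * m) ^ 4 := pow_le_pow_left₀ (by positivity) h7 4
  have h9 : (5 * (m : ℝ)) ^ 4 = 625 * (m : ℝ) ^ 4 := by ring
  rw [h9] at h8
  linarith

lemma pow_lower (D m : ℕ) (hD : 1 ≤ D) (κ : ℝ) (h : κ * D ≤ m / 2) :
    Real.exp κ ≤ (1 + 1 / (D : ℝ)) ^ m := by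
  have hD' : (0 : ℝ) < D := by exact_mod_cast hD
  have hD1 : (1 : ℝ) ≤ D := by exact_mod_cast hD
  have h1 : Real.exp (1 / (2 * D)) ≤ 1 + 1 / (D : ℝ) := by
    have h2 := Real.add_one_le_exp (-(1 / (2 * (D : ℝ))))
    have h3 : 1 / (2 * (D : ℝ)) ≤ 1 / 2 := by
      rw [div_le_div_iff₀ (by positivity) (by norm_num)]
      linarith
    have h4 : 0 < -(1 / (2 * (D : ℝ))) + 1 := by linarith
    have h5 : Real.exp (1 / (2 * D)) ≤ 1 / (-(1 / (2 * (D : ℝ))) + 1) := by
      rw [le_div_iff₀ h4]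
      calc Real.exp (1 / (2 * D)) * (-(1 / (2 * (D : ℝ))) + 1)
          ≤ Real.exp (1 / (2 * D)) * Real.exp (-(1 / (2 * (D : ℝ)))) :=
            mul_le_mul_of_nonneg_left h2 (Real.exp_pos _).le
        _ = 1 := by rw [← Real.exp_add]; simp
    refine h5.trans ?_
    rw [div_le_iff₀ h4]
    have h6 : (1 + 1 / (D : ℝ)) * (-(1 / (2 * (D : ℝ))) + 1)
        = 1 + (1 / (2 * (D : ℝ))) * (1 - 1 / (D : ℝ)) := by
      field_simp
      ring
    rw [h6]
    have : 1 / (D : ℝ) ≤ 1 := by rw [div_le_one hD']; exact hD1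
    have : 0 ≤ (1 / (2 * (D : ℝ))) * (1 - 1 / (D : ℝ)) := by
      apply mul_nonneg (by positivity)
      linarith
    linarith
  calc Real.exp κ ≤ Real.exp (m * (1 / (2 * D))) := by
        refine Real.exp_le_exp.mpr ?_
        rw [mul_one_div, le_div_iff₀ (by positivity)]
        linarith
    _ = Real.exp (1 / (2 * D)) ^ m := by rw [← Real.exp_nat_mul]
    _ ≤ _ := pow_le_pow_left₀ (Real.exp_pos _).le h1 m

/-- **The covering theorem.** -/
theorem cover {P : ∀ V : Type, SimpleGraph V → Prop} (hP : LIClass P) (α : ℝ) (hα : 1 < α)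
    (hα2 : α < 2)
    (hup : ∃ C : ℝ, ∀ (V : Type) [Fintype V] (G : SimpleGraph V), P V G →
      (vol G : ℝ) ≤ C * (Fintype.card V : ℝ) ^ α)
    (hlow : ∃ c : ℝ, 0 < c ∧ ∃ N₀ : ℕ, ∀ N : ℕ, N₀ ≤ N → ∃ G : SimpleGraph (Fin N),
      P (Fin N) G ∧ c * (N : ℝ) ^ α ≤ vol G) :
    ∃ K : ℝ, 0 < K ∧ ∀ (V : Type) [Fintype V] (H : SimpleGraph V) (d : ℕ), 1 ≤ d →
      (∀ x, (nb H x).card ≤ d) → ∃ M : ℕ, (M : ℝ) ≤ K * (d : ℝ) ^ (2 - α) ∧ Cov P H M := by
  obtain ⟨C, hC⟩ := hup
  obtain ⟨c, hc, N₀, hN₀⟩ := hlow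
  have hup' : ∀ (V : Type) [Fintype V] (G : SimpleGraph V), P V G →
      (vol G : ℝ) ≤ (max C 1) * (Fintype.card V : ℝ) ^ α := fun V _ G hG =>
    (hC V G hG).trans (mul_le_mul_of_nonneg_right (le_max_left _ _) (by positivity))
  obtain ⟨l, hl, N₁, hprune⟩ := prune hP α (max C 1) c hα hα2 (le_max_right _ _) hc hup'
  set γ : ℝ := 2 - α with hγ
  have hγ0 : 0 < γ := by linarith
  have hγ1 : γ < 1 := by linarith
  -- the constant in the exponent
  set κ : ℝ := 1 / (2 * (l * 16 ^ (α - 1) + 1)) with hκ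
  have hκ0 : 0 < κ := by positivity
  obtain ⟨m₀, hm₀⟩ := poly_exp κ γ hκ0 hγ0
  set C2 : ℝ := 5 * (8 / c + 1) with hC2
  have hC20 : 0 < C2 := by positivity
  set d₀ : ℕ := 18 + 4 * m₀ + N₀ + N₁ with hd₀
  have hr : (7 / 8 : ℝ) ^ γ < 1 := Real.rpow_lt_one (by norm_num) (by norm_num) hγ0
  set K : ℝ := max (2 * d₀ + 1) (C2 / (1 - (7 / 8 : ℝ) ^ γ)) with hK
  have hK1 : C2 ≤ K * (1 - (7 / 8 : ℝ) ^ γ) := by
    rw [← div_le_iff₀ (by linarith)]
    exact le_max_right _ _
  have hK2 : (2 * d₀ + 1 : ℝ) ≤ K := le_max_left _ _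
  have hK0 : 0 < K := lt_of_lt_of_le (by positivity) hK2
  refine ⟨K, hK0, ?_⟩
  intro V _ H d
  induction d using Nat.strong_induction_on generalizing H with
  | _ d ih =>
  intro hd hH
  have hd1 : (1 : ℝ) ≤ d := by exact_mod_cast hd
  rcases lt_or_ge d d₀ with hlt | hge
  · refine ⟨2 * d + 1, ?_, cov_small hP H d hH⟩
    have h1 : (1 : ℝ) ≤ (d : ℝ) ^ γ := Real.one_le_rpow hd1 hγ0.le
    have h2 : ((2 * d + 1 : ℕ) : ℝ) ≤ 2 * d₀ + 1 := by
      push_cast
      have : (d : ℝ) ≤ d₀ := by exact_mod_cast hlt.le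
      linarith
    nlinarith
  · set m : ℕ := (d + 3) / 4 with hm
    have hm4 : d ≤ 4 * m := by omega
    have hm3 : 4 * m ≤ d + 3 := by omega
    have hm5 : 8 * (3 * m) ≤ 7 * d := by omega
    have hmm : m₀ ≤ m := by omega
    have hmN₀ : N₀ ≤ 16 * m := by omega
    have hmN₁ : N₁ ≤ 16 * m := by omega
    have hm1 : 1 ≤ m := by omega
    have hm1' : (1 : ℝ) ≤ m := by exact_mod_cast hm1
    obtain ⟨G₀, hPG₀, hG₀⟩ := hN₀ (16 * m) hmN₀
    have hcardF : Fintype.card (Fin (16 * m)) = 16 * m := Fintype.card_fin _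
    obtain ⟨G, hPG, hGvol, hGdeg⟩ := hprune (Fin (16 * m)) G₀ (by rw [hcardF]; exact hmN₁) hPG₀
      (by rw [hcardF]; exact hG₀)
    rw [hcardF] at hGvol hGdeg
    set N : ℝ := ((16 * m : ℕ) : ℝ) with hN
    have hNm : N = 16 * m := by rw [hN]; push_cast; ring
    have hN1 : 1 ≤ N := by rw [hNm]; linarith
    have hN0 : 0 < N := by linarith
    have hNα : 0 < N ^ α := by positivity
    have hvol0 : 0 < (vol G : ℝ) := lt_of_lt_of_le (by positivity) hGvol
    -- the maximum degree
    set D : ℕ := ⌊l * N ^ (α - 1)⌋₊ with hD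
    have hGD : ∀ a, (nb G a).card ≤ D := fun a => Nat.le_floor (hGdeg a)
    have hD1 : 1 ≤ D := by
      by_contra hcon
      have hD0 : D = 0 := by omega
      have : vol G = 0 := by
        rw [vol]
        refine Finset.sum_eq_zero fun a _ => ?_
        have := hGD a
        omega
      rw [this] at hvol0
      simp at hvol0
    have hDle : (D : ℝ) ≤ l * N ^ (α - 1) := Nat.floor_le (by positivity)
    -- the number of maps
    set M : ℕ := ⌈4 * N ^ 2 / (vol G : ℝ)⌉₊ with hM
    have hM1 : 4 * N ^ 2 ≤ M * (vol G : ℝ) := by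
      rw [← div_le_iff₀ hvol0]
      exact Nat.le_ceil _
    have hM2 : (M : ℝ) ≤ C2 * (d : ℝ) ^ γ := by
      have h1 : (M : ℝ) < 4 * N ^ 2 / (vol G : ℝ) + 1 := Nat.ceil_lt_add_one (by positivity)
      have h2 : 4 * N ^ 2 / (vol G : ℝ) ≤ 8 / c * N ^ γ := by
        rw [div_le_iff₀ hvol0]
        have h3 : N ^ γ * N ^ α = N ^ 2 := by
          rw [← Real.rpow_add hN0, hγ, sub_add_cancel]
          norm_cast
        calc 4 * N ^ 2 = 8 / c * N ^ γ * (c / 2 * N ^ α) := by
              rw [← h3]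
              field_simp
              ring
          _ ≤ 8 / c * N ^ γ * vol G := mul_le_mul_of_nonneg_left hGvol (by positivity)
      have h4 : N ≤ 5 * d := by
        rw [hNm]
        have h5 : 16 * m ≤ 5 * d := by omega
        exact_mod_cast h5
      have h6 : N ^ γ ≤ 5 * (d : ℝ) ^ γ := by
        calc N ^ γ ≤ (5 * d) ^ γ := Real.rpow_le_rpow hN0.le h4 hγ0.le
          _ = 5 ^ γ * (d : ℝ) ^ γ := Real.mul_rpow (by norm_num) (by positivity)
          _ ≤ 5 * (d : ℝ) ^ γ := by
              refine mul_le_mul_of_nonneg_right ?_ (by positivity)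
              calc (5 : ℝ) ^ γ ≤ 5 ^ (1 : ℝ) :=
                    Real.rpow_le_rpow_of_exponent_le (by norm_num) hγ1.le
                _ = 5 := Real.rpow_one 5
      have h7 : (1 : ℝ) ≤ N ^ γ := Real.one_le_rpow hN1 hγ0.le
      calc (M : ℝ) ≤ 8 / c * N ^ γ + N ^ γ := by linarith
        _ = (8 / c + 1) * N ^ γ := by ring
        _ ≤ (8 / c + 1) * (5 * (d : ℝ) ^ γ) := mul_le_mul_of_nonneg_left h6 (by positivity)
        _ = C2 * (d : ℝ) ^ γ := by rw [hC2]; ring
    -- the condition of the local lemma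
    have hcond : 8 * ((4 * m + 1 : ℕ) : ℝ) ^ 4 ≤ (1 + 1 / (D : ℝ)) ^ m := by
      refine (hm₀ m hmm).trans (pow_lower D m hD1 _ ?_)
      have h1 : (D : ℝ) ≤ l * 16 ^ (α - 1) * (m : ℝ) ^ (α - 1) := by
        refine hDle.trans (le_of_eq ?_)
        rw [hNm, Real.mul_rpow (by norm_num) (by positivity)]
        ring
      have h2 : (m : ℝ) ^ γ * (m : ℝ) ^ (α - 1) = m := by
        rw [← Real.rpow_add (by linarith), hγ, show 2 - α + (α - 1) = (1 : ℝ) by ring,
          Real.rpow_one]
      have h3 : 0 < l * 16 ^ (α - 1) := by positivity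
      calc κ * (m : ℝ) ^ γ * D ≤ κ * (m : ℝ) ^ γ * (l * 16 ^ (α - 1) * (m : ℝ) ^ (α - 1)) :=
            mul_le_mul_of_nonneg_left h1 (by positivity)
        _ = κ * (l * 16 ^ (α - 1)) * ((m : ℝ) ^ γ * (m : ℝ) ^ (α - 1)) := by ring
        _ = κ * (l * 16 ^ (α - 1)) * m := by rw [h2]
        _ ≤ 1 / 2 * m := by
            refine mul_le_mul_of_nonneg_right ?_ (by linarith)
            rw [hκ, div_mul_eq_mul_div, one_mul, div_le_div_iff₀ (by positivity) (by norm_num)]
            linarith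
        _ = m / 2 := by ring
    obtain ⟨f, hf⟩ := stage (W := Fin (16 * m)) H G m (fun x => (hH x).trans hm4)
      (by rw [hcardF]) (by rw [hcardF]; omega) D hD1 hGD M (by rw [hcardF]; exact hM1) hcond
    -- the rest
    obtain ⟨M', hM', hcov⟩ := ih (3 * m) (by omega)
      (leftover H (fun i => Pool.Agent.H55.pull H G (f i))) (by omega) (fun x => by
        refine le_trans (Finset.card_le_card ?_) (hf x)
        intro y hy
        have := mem_nb.mp hy
        rw [rest, Finset.mem_filter, mem_nb]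
        exact this)
    refine ⟨M + M', ?_, Cov.add (fun i => Pool.Agent.H55.pull H G (f i)) (fun i =>
      ⟨pull_le H G (f i), hP.pull _ G (f i) (pull_locInj H G (f i)) hPG⟩) hcov⟩
    have h1 : ((3 * m : ℕ) : ℝ) ^ γ ≤ (7 / 8 : ℝ) ^ γ * (d : ℝ) ^ γ := by
      rw [← Real.mul_rpow (by norm_num) (by positivity)]
      refine Real.rpow_le_rpow (by positivity) ?_ hγ0.le
      have : (8 : ℝ) * ((3 * m : ℕ) : ℝ) ≤ 7 * d := by exact_mod_cast hm5
      linarith
    have h2 : 0 < (d : ℝ) ^ γ := by positivity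
    push_cast
    calc (M : ℝ) + M' ≤ C2 * (d : ℝ) ^ γ + K * ((3 * m : ℕ) : ℝ) ^ γ := add_le_add hM2 hM'
      _ ≤ C2 * (d : ℝ) ^ γ + K * ((7 / 8 : ℝ) ^ γ * (d : ℝ) ^ γ) := by
          have := mul_le_mul_of_nonneg_left h1 hK0.le
          linarith
      _ ≤ K * (1 - (7 / 8 : ℝ) ^ γ) * (d : ℝ) ^ γ + K * ((7 / 8 : ℝ) ^ γ * (d : ℝ) ^ γ) := by
          have := mul_le_mul_of_nonneg_right hK1 h2.le
          linarith
      _ = K * (d : ℝ) ^ γ := by ring

end Pool.Agent.H55
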