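import Mathlib
import Pool.Agent.H55.Cover

/-!
# Graphs without cycles of given lengths
-/

set_option autoImplicit false
set_option linter.all false

namespace Pool.Agent.H55

open Finset Classical SimpleGraph

/-- a cycle of length `L` given by a function -/
lemma cyc_of_fun {V : Type} (G : SimpleGraph V) (L : ℕ) (hL : 3 ≤ L) (c : ℕ → V)
    (hinj : ∀ i < L, ∀ j < L, c i = c j → i = j)
    (hadj : ∀ i, i + 1 < L → G.Adj (c i) (c (i + 1)))
    (hclose : G.Adj (c (L - 1)) (c 0)) : cycleGraph L ⊑ G := by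
  have key : ∀ u v : Fin L, (u - v).val = 1 → G.Adj (c v) (c u) := by
    intro u v h
    rw [Fin.sub_def] at h
    simp only at h
    have hu := u.2
    have hv := v.2
    rcases le_or_gt v.val u.val with hle | hlt
    · have e : L - v.val + u.val = (u.val - v.val) + L := by omega
      rw [e, Nat.add_mod_right, Nat.mod_eq_of_lt (by omega)] at h
      have : u.val = v.val + 1 := by omega
      rw [this]
      exact hadj _ (by omega)
    · rw [Nat.mod_eq_of_lt (by omega)] at h
      have h1 : v.val = L - 1 := by omega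
      have h2 : u.val = 0 := by omega
      rw [h1, h2]
      exact hclose
  refine ⟨⟨⟨fun i => c i, ?_⟩, ?_⟩⟩
  · intro u v h
    rcases cycleGraph_adj'.mp h with h | h
    · exact (key u v h).symm
    · exact key v u h
  · intro u v h
    exact Fin.ext (hinj u.val u.2 v.val v.2 h)

/-- a cycle of length `r`, given by a periodic function -/
def IsCyc {V : Type} (E : SimpleGraph V) (r : ℕ) (c : ℕ → V) : Prop :=
  (∀ i, E.Adj (c i) (c (i + 1))) ∧ ∀ i j, c i = c j ↔ i ≡ j [MOD r]

/-- adjacency in the cycle graph -/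
lemma cycleGraph_succ_adj {r : ℕ} (hr : 3 ≤ r) (i : ℕ) :
    (cycleGraph r).Adj ⟨i % r, Nat.mod_lt _ (by omega)⟩ ⟨(i + 1) % r, Nat.mod_lt _ (by omega)⟩ := by
  rw [cycleGraph_adj']
  right
  rw [Fin.sub_def]
  simp only
  have h1 : i % r < r := Nat.mod_lt _ (by omega)
  have h2 : (i + 1) % r = (i % r + 1) % r := by simp [Nat.add_mod]
  rw [h2]
  rcases Nat.lt_or_ge (i % r + 1) r with h | h
  · rw [Nat.mod_eq_of_lt h]
    have e : r - i % r + (i % r + 1) = 1 + r := by omega
    rw [e, Nat.add_mod_right, Nat.mod_eq_of_lt (by omega)]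
  · have e : i % r + 1 = r := by omega
    rw [e, Nat.mod_self, add_zero]
    have e2 : r - i % r = 1 := by omega
    rw [e2, Nat.mod_eq_of_lt (by omega)]

lemma exists_isCyc {V : Type} {E : SimpleGraph V} {r : ℕ} (hr : 3 ≤ r) (h : cycleGraph r ⊑ E) :
    ∃ c, IsCyc E r c := by
  obtain ⟨φ⟩ := h
  refine ⟨fun i => φ ⟨i % r, Nat.mod_lt _ (by omega)⟩, ?_, ?_⟩
  · intro i
    exact φ.toHom.map_adj (cycleGraph_succ_adj hr i)
  · intro i j
    constructor
    · intro h
      have := φ.injective h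
      exact Fin.mk.inj_iff.mp this
    · intro h
      have : i % r = j % r := h
      simp only [this]

lemma IsCyc.shift {V : Type} {E : SimpleGraph V} {r : ℕ} {c : ℕ → V} (h : IsCyc E r c) (a : ℕ) :
    IsCyc E r (fun i => c (a + i)) := by
  refine ⟨fun i => h.1 (a + i), fun i j => ?_⟩
  rw [h.2]
  exact ⟨fun h => Nat.ModEq.add_left_cancel' a h, fun h => Nat.ModEq.add_left a h⟩

lemma IsCyc.mono {V : Type} {E E' : SimpleGraph V} {r : ℕ} {c : ℕ → V} (h : IsCyc E r c)
    (hE : ∀ i, E'.Adj (c i) (c (i + 1))) : IsCyc E' r c := ⟨hE, h.2⟩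

/-- the walk along a function -/
def fwalk {V : Type} {E : SimpleGraph V} (c : ℕ → V) (h : ∀ i, E.Adj (c i) (c (i + 1))) :
    ∀ (i n : ℕ), E.Walk (c i) (c (i + n))
  | i, 0 => Walk.nil
  | i, n + 1 => Walk.cons (h i) ((fwalk c h (i + 1) n).copy rfl (by congr 1; omega))

lemma fwalk_length {V : Type} {E : SimpleGraph V} (c : ℕ → V)
    (h : ∀ i, E.Adj (c i) (c (i + 1))) : ∀ (n i : ℕ), (fwalk c h i n).length = n
  | 0, i => rfl
  | n + 1, i => by
    rw [fwalk, Walk.length_cons, Walk.length_copy, fwalk_length c h n (i + 1)]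

lemma fwalk_support {V : Type} {E : SimpleGraph V} (c : ℕ → V)
    (h : ∀ i, E.Adj (c i) (c (i + 1))) :
    ∀ (n i : ℕ), (fwalk c h i n).support = (List.range' i (n + 1)).map c
  | 0, i => by simp [fwalk]
  | n + 1, i => by
    rw [fwalk, Walk.support_cons, Walk.support_copy, fwalk_support c h n (i + 1)]
    rw [List.range'_succ (s := i) (n := n + 1)]
    simp

/-! ### Locally injective closed walks -/

lemma closed_walk {V : Type} (G : SimpleGraph V) (m : ℕ) (hm : 3 ≤ m) (u : ℕ → V)
    (hper : ∀ i, u (i + m) = u i) (hadj : ∀ i, G.Adj (u i) (u (i + 1)))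
    (hnb : ∀ i, u i ≠ u (i + 2)) :
    cycleGraph m ⊑ G ∨ ∃ j, 3 ≤ j ∧ 2 * j ≤ m ∧ cycleGraph j ⊑ G := by
  by_cases hinj : ∀ i < m, ∀ j < m, u i = u j → i = j
  · left
    refine cyc_of_fun G m hm u hinj (fun i _ => hadj i) ?_
    have h1 := hadj (m - 1)
    rw [show m - 1 + 1 = 0 + m by omega, hper 0] at h1
    exact h1
  · right
    push Not at hinj
    obtain ⟨a, ha, b, hb, hab, hne⟩ := hinj
    -- a short period
    have hex : ∃ t, 1 ≤ t ∧ 2 * t ≤ m ∧ ∃ i, u i = u (i + t) := by
      wlog hlt : a < b generalizing a b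
      · exact this b hb a ha hab.symm (Ne.symm hne) (by omega)
      rcases Nat.lt_or_ge m (2 * (b - a)) with h | h
      · refine ⟨m - (b - a), by omega, by omega, b, ?_⟩
        rw [show b + (m - (b - a)) = a + m by omega, hper]
        exact hab.symm
      · refine ⟨b - a, by omega, h, a, ?_⟩
        rw [show a + (b - a) = b by omega]
        exact hab
    set t := Nat.find hex with ht
    obtain ⟨h1, h2, i, hi⟩ := Nat.find_spec hex
    rw [← ht] at h1 h2 hi
    have ht3 : 3 ≤ t := by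
      by_contra hcon
      have : t = 1 ∨ t = 2 := by omega
      rcases this with h | h
      · rw [h] at hi
        exact (hadj i).ne hi
      · rw [h] at hi
        exact hnb i hi
    refine ⟨t, ht3, h2, cyc_of_fun G t ht3 (fun s => u (i + s)) ?_ (fun s _ => hadj (i + s)) ?_⟩
    · intro s hs s' hs' he
      by_contra hne'
      wlog hlt : s < s' generalizing s s'
      · exact this s' hs' s hs he.symm (Ne.symm hne') (by omega)
      refine Nat.find_min hex (m := s' - s) (by rw [← ht]; omega) ⟨by omega, by omega, i + s, ?_⟩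
      rw [show i + s + (s' - s) = i + s' by omega]
      exact he
    · have h3 := hadj (i + (t - 1))
      rw [show i + (t - 1) + 1 = i + t by omega, ← hi] at h3
      exact h3

/-- no cycle whose length is in `S` -/
def NoCyc (S : Set ℕ) (V : Type) (G : SimpleGraph V) : Prop :=
  ∀ m ∈ S, 3 ≤ m → (cycleGraph m).Free G

lemma locInj_cycle {V : Type} {G : SimpleGraph V} {m : ℕ} (hm : 3 ≤ m) (w : Fin m → V)
    (hw : LocInj (cycleGraph m) G w) :
    cycleGraph m ⊑ G ∨ ∃ j, 3 ≤ j ∧ 2 * j ≤ m ∧ cycleGraph j ⊑ G := by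
  refine closed_walk G m hm (fun i => w ⟨i % m, Nat.mod_lt _ (by omega)⟩) ?_ ?_ ?_
  · intro i
    simp
  · intro i
    exact hw.hom _ _ (cycleGraph_succ_adj hm i)
  · intro i he
    have h1 := hw.inj _ _ _ (cycleGraph_succ_adj hm i).symm (cycleGraph_succ_adj hm (i + 1)) he
    have h2 : i % m = (i + 2) % m := Fin.mk.inj_iff.mp h1
    have h3 : i ≡ i + 2 [MOD m] := h2
    have h4 : 0 ≡ 2 [MOD m] := Nat.ModEq.add_left_cancel' i (by simpa using h3)
    have h5 : 0 % m = 2 % m := h4
    rw [Nat.zero_mod, Nat.mod_eq_of_lt (by omega)] at h5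
    omega

lemma noCyc_class (S : Set ℕ) (hS : ∀ m ∈ S, ∀ j, 3 ≤ j → 2 * j ≤ m → j ∈ S) :
    LIClass (NoCyc S) where
  pull := by
    intro V W _ _ F G f hf hG m hm hm3 hcon
    obtain ⟨φ⟩ := hcon
    have hφ : LocInj (cycleGraph m) F φ :=
      ⟨fun x y h => φ.toHom.map_adj h, fun x y y' _ _ h => φ.injective h⟩
    rcases locInj_cycle hm3 _ (hf.comp hφ) with h | ⟨j, h1, h2, h3⟩
    · exact hG m hm hm3 h
    · exact hG j (hS m hm j h1 h2) h1 h3
  single := by
    intro V _ F hF m hm hm3 hcon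
    obtain ⟨φ⟩ := hcon
    have h1 := φ.toHom.map_adj (cycleGraph_succ_adj hm3 0).symm
    have h2 := φ.toHom.map_adj (cycleGraph_succ_adj hm3 1)
    have h3 := hF _ _ _ h1 h2
    have h4 := φ.injective h3
    have h5 : 0 % m = (1 + 1) % m := Fin.mk.inj_iff.mp h4
    rw [Nat.zero_mod, Nat.mod_eq_of_lt (by omega)] at h5
    omega

end Pool.Agent.H55
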