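import Mathlib
import Pool.Agent.H55.Cyc

/-!
# Removing the cycles of length `r` from a graph without cycles of length `2 + j (r - 2)`

Every graph without cycles of length `L = 2 + j (r - 2)` has a subgraph without cycles of length
`r` with a proportion `2 ^ (-(L + 2))` of the edges. (Kühn and Osthus, for even lengths, with a
better constant.)
-/

set_option autoImplicit false
set_option linter.all false

namespace Pool.Agent.H55

open Finset Classical SimpleGraph

/-- for every edge `e` and every set `S` of at most `s` vertices outside of `e` there is a cycle of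
length `r` through `e` which avoids `S` -/
def Rich {V : Type} (E : SimpleGraph V) (r s : ℕ) : Prop :=
  ∀ x y, E.Adj x y → ∀ S : Finset V, S.card ≤ s → x ∉ S → y ∉ S →
    ∃ c, IsCyc E r c ∧ s(c 0, c 1) = s(x, y) ∧ ∀ i, c i ∉ S

lemma rich_path {V : Type} {E : SimpleGraph V} {r s : ℕ} (hr : 3 ≤ r) (hE : Rich E r s) {x y : V}
    (hxy : E.Adj x y) (S : Finset V) (hS : S.card ≤ s) (hx : x ∉ S) (hy : y ∉ S) :
    ∃ q : E.Walk x y, q.IsPath ∧ q.length = r - 1 ∧ ∀ z ∈ q.support, z ∉ S := by
  obtain ⟨c, hc, he, hS'⟩ := hE x y hxy S hS hx hy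
  have hend : c (1 + (r - 1)) = c 0 := by
    rw [hc.2]
    rw [show 1 + (r - 1) = r by omega]
    exact (Nat.modEq_zero_iff_dvd.mpr dvd_rfl)
  set w : E.Walk (c 1) (c 0) := (fwalk c hc.1 1 (r - 1)).copy rfl hend with hw
  have hlen : w.length = r - 1 := by rw [hw, Walk.length_copy, fwalk_length]
  have hsup : w.support = (List.range' 1 r).map c := by
    rw [hw, Walk.support_copy, fwalk_support, show r - 1 + 1 = r by omega]
  have hpath : w.IsPath := by
    rw [Walk.isPath_def, hsup]
    refine List.Nodup.map_on ?_ List.nodup_range'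
    intro i hi j hj h
    rw [List.mem_range'_1] at hi hj
    have h1 := (hc.2 i j).mp h
    rcases Nat.lt_trichotomy i j with h2 | h2 | h2
    · exfalso
      have := (Nat.modEq_iff_dvd' h2.le).mp h1
      have := Nat.le_of_dvd (by omega) this
      omega
    · exact h2
    · exfalso
      have := (Nat.modEq_iff_dvd' h2.le).mp h1.symm
      have := Nat.le_of_dvd (by omega) this
      omega
  have hav : ∀ z ∈ w.support, z ∉ S := by
    intro z hz
    rw [hsup, List.mem_map] at hz
    obtain ⟨i, _, rfl⟩ := hz
    exact hS' i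
  rw [Sym2.eq_iff] at he
  rcases he with ⟨h0, h1⟩ | ⟨h0, h1⟩
  · subst h0 h1
    refine ⟨w.reverse, hpath.reverse, ?_, ?_⟩
    · rw [Walk.length_reverse, hlen]
    · intro z hz
      rw [Walk.support_reverse, List.mem_reverse] at hz
      exact hav z hz
  · subst h0 h1
    exact ⟨w, hpath, hlen, hav⟩

lemma rich_long {V : Type} {E : SimpleGraph V} {r s : ℕ} (hr : 3 ≤ r) (hE : Rich E r s) :
    ∀ (j : ℕ), 1 + j * (r - 2) ≤ s + (r - 2) → ∀ a b, E.Adj a b →
      ∃ p : E.Walk a b, p.IsPath ∧ p.length = 1 + j * (r - 2) := by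
  intro j
  induction j with
  | zero =>
    intro _ a b hab
    refine ⟨Walk.cons hab Walk.nil, ?_, by simp⟩
    simp [Walk.cons_isPath_iff, hab.ne]
  | succ j ih =>
    intro hj a b hab
    have hj' : 1 + j * (r - 2) ≤ s := by
      have : (j + 1) * (r - 2) = j * (r - 2) + (r - 2) := by ring
      omega
    obtain ⟨p, hp, hlen⟩ := ih (by omega) a b hab
    cases p with
    | nil =>
      exfalso
      rw [Walk.length_nil] at hlen
      omega
    | @cons _ x _ h p' =>
      rw [Walk.cons_isPath_iff] at hp
      rw [Walk.length_cons] at hlen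
      have hxs : (p'.support.toFinset.erase x).card ≤ s := by
        refine (Finset.card_erase_le).trans ?_
        refine (List.toFinset_card_le _).trans ?_
        rw [Walk.length_support]
        omega
      obtain ⟨q, hq, hql, hqS⟩ := rich_path hr hE h (p'.support.toFinset.erase x) hxs
        (by
          rw [Finset.mem_erase, List.mem_toFinset]
          exact fun h => hp.2 h.2)
        (by simp)
      refine ⟨q.append p', ?_, ?_⟩
      · rw [Walk.isPath_def, Walk.support_append, List.nodup_append]
        refine ⟨hq.support_nodup, hp.1.support_nodup.tail, ?_⟩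
        intro z hz z' hz' he
        subst he
        have h1 := hp.1.support_nodup
        rw [Walk.support_eq_cons] at h1
        have hzx : z ≠ x := by
          rintro rfl
          exact (List.nodup_cons.mp h1).1 hz'
        refine hqS z hz ?_
        rw [Finset.mem_erase, List.mem_toFinset]
        exact ⟨hzx, List.mem_of_mem_tail hz'⟩
      · rw [Walk.length_append, hql]
        have : (j + 1) * (r - 2) = j * (r - 2) + (r - 2) := by ring
        omega

lemma rich_cycle {V : Type} {E : SimpleGraph V} {r s : ℕ} (hr : 3 ≤ r) (hE : Rich E r s)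
    (j : ℕ) (hj1 : 1 ≤ j) (hj : 1 + j * (r - 2) ≤ s + (r - 2)) {a b : V} (hab : E.Adj a b) :
    cycleGraph (2 + j * (r - 2)) ⊑ E := by
  obtain ⟨p, hp, hlen⟩ := rich_long hr hE j hj a b hab
  have hjr : 1 ≤ j * (r - 2) := Nat.mul_pos hj1 (by omega)
  refine cyc_of_fun E _ (by omega) p.getVert ?_ ?_ ?_
  · intro i hi i' hi' h
    exact hp.getVert_injOn (by simp only [Set.mem_setOf_eq]; omega)
      (by simp only [Set.mem_setOf_eq]; omega) h
  · intro i hi
    exact p.adj_getVert_succ (by omega)
  · rw [show 2 + j * (r - 2) - 1 = p.length by omega, Walk.getVert_length, Walk.getVert_zero]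
    exact hab.symm

/-- Either some subgraph with an edge is rich, or small sets hit all cycles of length `r`. -/
lemma dichotomy {V : Type} [Fintype V] (r s : ℕ) :
    ∀ (n : ℕ) (E : SimpleGraph V), vol E = n →
      (∃ E' ≤ E, (∃ x y, E'.Adj x y) ∧ Rich E' r s) ∨
      ∃ S : Sym2 V → Finset V, (∀ e, (S e).card ≤ s) ∧ (∀ x y, x ∉ S s(x, y)) ∧
        ∀ c, IsCyc E r c → ∃ i k, c k ∈ S s(c i, c (i + 1)) := by
  intro n
  induction n using Nat.strong_induction_on with
  | _ n ih =>
  intro E hn
  by_cases hrich : Rich E r s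
  · by_cases hne : ∃ x y, E.Adj x y
    · exact Or.inl ⟨E, le_refl E, hne, hrich⟩
    · right
      refine ⟨fun _ => ∅, by simp, by simp, fun c hc => ?_⟩
      exact absurd ⟨c 0, c 1, hc.1 0⟩ hne
  · rw [Rich] at hrich
    push Not at hrich
    obtain ⟨x, y, hxy, S₀, hS₀, hx, hy, hc₀⟩ := hrich
    -- remove the edge
    let E₁ : SimpleGraph V :=
      { Adj := fun a b => E.Adj a b ∧ s(a, b) ≠ s(x, y)
        symm := ⟨fun a b h => ⟨h.1.symm, by rw [Sym2.eq_swap]; exact h.2⟩⟩
        loopless := ⟨fun a h => E.loopless.irrefl a h.1⟩ }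
    have hE₁ : ∀ a b, E₁.Adj a b ↔ E.Adj a b ∧ s(a, b) ≠ s(x, y) := fun a b => Iff.rfl
    have hlt : vol E₁ < n := by
      rw [← hn, vol, vol]
      refine Finset.sum_lt_sum (fun a _ => ?_) ⟨x, Finset.mem_univ x, ?_⟩
      · refine Finset.card_le_card fun b hb => ?_
        exact mem_nb.mpr ((hE₁ a b).mp (mem_nb.mp hb)).1
      · refine Finset.card_lt_card ⟨fun b hb => ?_, fun hsub => ?_⟩
        · exact mem_nb.mpr ((hE₁ x b).mp (mem_nb.mp hb)).1
        · exact ((hE₁ x y).mp (mem_nb.mp (hsub (mem_nb.mpr hxy)))).2 rfl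
    rcases ih (vol E₁) hlt E₁ rfl with ⟨E', hE', h1, h2⟩ | ⟨S, hS1, hS2, hS3⟩
    · exact Or.inl ⟨E', fun a b h => ((hE₁ a b).mp (hE' h)).1, h1, h2⟩
    · right
      refine ⟨Function.update S s(x, y) S₀, ?_, ?_, ?_⟩
      · intro e
        by_cases he : e = s(x, y)
        · rw [he, Function.update_self]; exact hS₀
        · rw [Function.update_of_ne he]; exact hS1 e
      · intro a b
        by_cases he : s(a, b) = s(x, y)
        · rw [he, Function.update_self]
          rw [Sym2.eq_iff] at he
          rcases he with ⟨h, _⟩ | ⟨h, _⟩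
          · rw [h]; exact hx
          · rw [h]; exact hy
        · rw [Function.update_of_ne he]; exact hS2 a b
      · intro c hc
        by_cases hex : ∃ i, s(c i, c (i + 1)) = s(x, y)
        · obtain ⟨i, hi⟩ := hex
          obtain ⟨k, hk⟩ := hc₀ (fun k => c (i + k)) (hc.shift i) hi
          refine ⟨i, i + k, ?_⟩
          rw [hi, Function.update_self]
          exact hk
        · push Not at hex
          obtain ⟨i, k, hik⟩ := hS3 c ⟨fun i => ⟨hc.1 i, hex i⟩, hc.2⟩
          exact ⟨i, k, by rw [Function.update_of_ne (hex i)]; exact hik⟩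

/-- the number of maps with prescribed values -/
lemma prescribed {V : Type} [Fintype V] (g : V → Bool) (T : Finset V) :
    (2 : ℝ) ^ T.card * ∑ f : V → Bool, (if ∀ v ∈ T, f v = g v then (1 : ℝ) else 0)
      = (Fintype.card (V → Bool) : ℝ) := by
  induction T using Finset.induction_on with
  | empty => simp
  | insert a T ha ih =>
    rw [Finset.card_insert_of_notMem ha, pow_succ, mul_assoc]
    have h1 := resample (W := Bool) a
      (fun f : V → Bool => if ∀ v ∈ insert a T, f v = g v then (1 : ℝ) else 0)
    rw [Fintype.card_bool] at h1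
    push_cast at h1
    rw [h1, ← ih]
    congr 1
    refine Finset.sum_congr rfl fun f _ => ?_
    have h2 : ∀ b : Bool, (if ∀ v ∈ insert a T, Function.update f a b v = g v then (1 : ℝ) else 0)
        = if b = g a then (if ∀ v ∈ T, f v = g v then (1 : ℝ) else 0) else 0 := by
      intro b
      have h3 : (∀ v ∈ insert a T, Function.update f a b v = g v) ↔
          b = g a ∧ ∀ v ∈ T, f v = g v := by
        constructor
        · intro h
          refine ⟨?_, fun v hv => ?_⟩
          · have := h a (Finset.mem_insert_self a T)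
            rwa [Function.update_self] at this
          · have := h v (Finset.mem_insert_of_mem hv)
            rwa [Function.update_of_ne (by rintro rfl; exact ha hv)] at this
        · rintro ⟨h1, h2⟩ v hv
          rcases Finset.mem_insert.mp hv with rfl | hv'
          · rw [Function.update_self]; exact h1
          · rw [Function.update_of_ne (by rintro rfl; exact ha hv')]; exact h2 v hv'
      by_cases h4 : b = g a
      · rw [if_pos h4]
        by_cases h5 : ∀ v ∈ T, f v = g v
        · rw [if_pos h5, if_pos (h3.mpr ⟨h4, h5⟩)]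
        · rw [if_neg h5, if_neg (fun h => h5 (h3.mp h).2)]
      · rw [if_neg h4, if_neg (fun h => h4 (h3.mp h).1)]
    simp only [h2]
    simp

lemma vol_eq_sum {V : Type} [Fintype V] (G : SimpleGraph V) :
    (vol G : ℝ) = ∑ x, ∑ y, (if G.Adj x y then (1 : ℝ) else 0) := by
  rw [vol]
  push_cast
  refine Finset.sum_congr rfl fun x _ => ?_
  rw [nb, Finset.card_filter]
  push_cast
  rfl

/-- random subgraphs -/
lemma random_sub {V : Type} [Fintype V] (G : SimpleGraph V) (K : (V → Bool) → SimpleGraph V)
    (p : ℝ) (hp : ∀ x y, G.Adj x y → p * (Fintype.card (V → Bool) : ℝ) ≤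
      ∑ f : V → Bool, (if (K f).Adj x y then (1 : ℝ) else 0)) (hK : ∀ f, K f ≤ G) :
    ∃ f, p * vol G ≤ vol (K f) := by
  by_contra hcon
  push Not at hcon
  have h1 : ∑ f : V → Bool, (vol (K f) : ℝ) < ∑ f : V → Bool, p * vol G :=
    Finset.sum_lt_sum_of_nonempty ⟨fun _ => true, Finset.mem_univ _⟩ fun f _ => hcon f
  rw [Finset.sum_const, Finset.card_univ, nsmul_eq_mul] at h1
  have h2 : ∑ f : V → Bool, (vol (K f) : ℝ)
      = ∑ x, ∑ y, ∑ f : V → Bool, (if (K f).Adj x y then (1 : ℝ) else 0) := by
    simp only [vol_eq_sum]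
    rw [Finset.sum_comm]
    refine Finset.sum_congr rfl fun x _ => ?_
    rw [Finset.sum_comm]
  have h3 : ∑ x, ∑ y, (if G.Adj x y then p * (Fintype.card (V → Bool) : ℝ) else 0)
      ≤ ∑ x, ∑ y, ∑ f : V → Bool, (if (K f).Adj x y then (1 : ℝ) else 0) := by
    refine Finset.sum_le_sum fun x _ => Finset.sum_le_sum fun y _ => ?_
    split_ifs with h
    · exact hp x y h
    · exact Finset.sum_nonneg fun f _ => by split_ifs <;> norm_num
  have h4 : ∑ x, ∑ y, (if G.Adj x y then p * (Fintype.card (V → Bool) : ℝ) else 0)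
      = (Fintype.card (V → Bool) : ℝ) * (p * vol G) := by
    rw [vol_eq_sum]
    simp only [Finset.mul_sum]
    refine Finset.sum_congr rfl fun x _ => Finset.sum_congr rfl fun y _ => ?_
    split_ifs <;> ring
  linarith

/-- the edges between vertices with the value `true` whose hitting set has the value `false` -/
def keep {V : Type} (G : SimpleGraph V) (S : Sym2 V → Finset V) (f : V → Bool) :
    SimpleGraph V where
  Adj x y := G.Adj x y ∧ f x = true ∧ f y = true ∧ ∀ z ∈ S s(x, y), f z = false
  symm := ⟨fun x y h => ⟨h.1.symm, h.2.2.1, h.2.1, by rw [Sym2.eq_swap]; exact h.2.2.2⟩⟩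
  loopless := ⟨fun x h => G.loopless.irrefl x h.1⟩

/-- the edges between different values -/
def cross {V : Type} (G : SimpleGraph V) (f : V → Bool) : SimpleGraph V where
  Adj x y := G.Adj x y ∧ f x ≠ f y
  symm := ⟨fun x y h => ⟨h.1.symm, h.2.symm⟩⟩
  loopless := ⟨fun x h => G.loopless.irrefl x h.1⟩

/-- **Cleaning.** -/
theorem clean {V : Type} [Fintype V] (G : SimpleGraph V) (r j : ℕ) (hr : 3 ≤ r) (hj : 1 ≤ j)
    (hG : (cycleGraph (2 + j * (r - 2))).Free G) :
    ∃ G' ≤ G, (cycleGraph r).Free G' ∧
      (vol G : ℝ) / 2 ^ (2 + j * (r - 2) + 2) ≤ vol G' := by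
  set s : ℕ := 2 + j * (r - 2) with hs
  rcases dichotomy r s (vol G) G rfl with ⟨E', hE', ⟨x, y, hxy⟩, hrich⟩ | ⟨S, hS1, hS2, hS3⟩
  · exfalso
    refine hG ?_
    have := rich_cycle hr hrich j hj (by omega) hxy
    exact this.trans ⟨⟨SimpleGraph.Hom.ofLE hE', fun _ _ h => h⟩⟩
  · have hKG : ∀ f, keep G S f ≤ G := fun f x y h => h.1
    obtain ⟨f, hf⟩ := random_sub G (keep G S) (1 / 2 ^ (s + 2)) (by
      intro x y hxy
      set T : Finset V := insert x (insert y (S s(x, y))) with hT
      have hTc : T.card ≤ s + 2 := by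
        have h1 := Finset.card_insert_le x (insert y (S s(x, y)))
        have h2 := Finset.card_insert_le y (S s(x, y))
        have h3 := hS1 s(x, y)
        rw [hT]
        omega
      set g : V → Bool := fun v => decide (v ∉ S s(x, y)) with hg
      have h1 := prescribed g T
      have hx : x ∉ S s(x, y) := hS2 x y
      have hy : y ∉ S s(x, y) := by
        have := hS2 y x
        rwa [Sym2.eq_swap] at this
      have h2 : ∑ f : V → Bool, (if ∀ v ∈ T, f v = g v then (1 : ℝ) else 0)
          ≤ ∑ f : V → Bool, (if (keep G S f).Adj x y then (1 : ℝ) else 0) := by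
        refine Finset.sum_le_sum fun f _ => ?_
        by_cases h : ∀ v ∈ T, f v = g v
        · have : (keep G S f).Adj x y := by
            refine ⟨hxy, ?_, ?_, fun z hz => ?_⟩
            · rw [h x (by simp [hT])]; simp [hg, hx]
            · rw [h y (by simp [hT])]; simp [hg, hy]
            · rw [h z (by simp [hT, hz])]; simp [hg, hz]
          rw [if_pos h, if_pos this]
        · rw [if_neg h]
          split_ifs <;> norm_num
      refine le_trans ?_ h2
      rw [one_div, inv_mul_le_iff₀ (by positivity), ← h1]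
      refine mul_le_mul_of_nonneg_right ?_ (Finset.sum_nonneg fun f _ => by split_ifs <;> norm_num)
      exact pow_le_pow_right₀ (by norm_num) hTc) hKG
    refine ⟨keep G S f, hKG f, ?_, ?_⟩
    · intro hcon
      obtain ⟨c, hc⟩ := exists_isCyc hr hcon
      obtain ⟨i, k, hik⟩ := hS3 c ⟨fun i => (hc.1 i).1, hc.2⟩
      have h1 := (hc.1 i).2.2.2 (c k) hik
      have h2 := (hc.1 k).2.1
      rw [h1] at h2
      exact absurd h2 (by simp)
    · rw [show s + 2 = 2 + j * (r - 2) + 2 by omega] at hf
      rw [one_div, inv_mul_eq_div] at hf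
      exact hf

/-- the bipartite subgraph -/
lemma bip_sub {V : Type} [Fintype V] (G : SimpleGraph V) :
    ∃ G' ≤ G, G'.Colorable 2 ∧ (vol G : ℝ) / 2 ≤ vol G' := by
  have hKG : ∀ f, cross G f ≤ G := fun f x y h => h.1
  obtain ⟨f, hf⟩ := random_sub G (cross G) (1 / 2) (by
    intro x y hxy
    have h1 := resample (W := Bool) y
      (fun f : V → Bool => if (cross G f).Adj x y then (1 : ℝ) else 0)
    have h2 : ∀ f : V → Bool, ∑ b : Bool, (if (cross G (Function.update f y b)).Adj x y
        then (1 : ℝ) else 0) = 1 := by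
      intro f
      have h3 : ∀ b : Bool, (cross G (Function.update f y b)).Adj x y ↔ f x ≠ b := by
        intro b
        show (G.Adj x y ∧ Function.update f y b x ≠ Function.update f y b y) ↔ f x ≠ b
        rw [Function.update_self, Function.update_of_ne hxy.ne]
        exact ⟨fun h => h.2, fun h => ⟨hxy, h⟩⟩
      simp only [h3]
      cases f x <;> simp
    simp only [h2, Finset.sum_const, Finset.card_univ, nsmul_eq_mul, mul_one] at h1
    rw [Fintype.card_bool] at h1
    push_cast at h1 ⊢
    linarith) hKG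
  refine ⟨cross G f, hKG f, ?_, by linarith⟩
  have c : (cross G f).Coloring Bool := SimpleGraph.Coloring.mk f (fun {a b} h => h.2)
  simpa using c.colorable

lemma bip_odd {V : Type} {G : SimpleGraph V} (hG : G.Colorable 2) (m : ℕ) (hm : Odd m)
    (hm3 : 3 ≤ m) : (cycleGraph m).Free G := by
  rintro ⟨φ⟩
  have h1 : (cycleGraph m).Colorable 2 := by
    obtain ⟨c⟩ := hG
    exact ⟨c.comp φ.toHom⟩
  have h2 := SimpleGraph.chromaticNumber_cycleGraph_of_odd m (by omega) hm
  have h3 := h1.chromaticNumber_le
  rw [h2] at h3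
  norm_num at h3

end Pool.Agent.H55
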