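import Mathlib
import Pool.Agent.H55.Clean

/-!
# Turán numbers, decompositions of graphs of bounded degree, and Ramsey numbers
-/

set_option autoImplicit false
set_option linter.all false

namespace Pool.Agent.H55

open Finset Classical SimpleGraph

/-- The graph `H` is the union of `M` of its subgraphs which have the property `P`. -/
def UnionOf {V : Type} (P : SimpleGraph V → Prop) (H : SimpleGraph V) (M : ℕ) : Prop :=
  ∃ F : Fin M → SimpleGraph V, (∀ i, F i ≤ H ∧ P (F i)) ∧ H = ⨆ i, F i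

/-- The edges of colour `i` in a colouring of the edges of the complete graph on `Fin n`. -/
def colourClass {n q : ℕ} (χ : Sym2 (Fin n) → Fin q) (i : Fin q) : SimpleGraph (Fin n) where
  Adj x y := x ≠ y ∧ χ s(x, y) = i
  symm := ⟨fun x y h => ⟨h.1.symm, by rw [Sym2.eq_swap]; exact h.2⟩⟩
  loopless := ⟨fun x h => h.1 rfl⟩

lemma cov_unionOf {P : ∀ V : Type, SimpleGraph V → Prop} {V : Type} {H : SimpleGraph V} {M : ℕ}
    (h : Cov P H M) : UnionOf (P V) H M := by
  obtain ⟨F, hF, hc⟩ := h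
  refine ⟨F, hF, le_antisymm (fun x y hxy => ?_) (iSup_le fun i => (hF i).1)⟩
  obtain ⟨i, hi⟩ := hc x y hxy
  rw [SimpleGraph.iSup_adj]
  exact ⟨i, hi⟩

lemma vol_eq {V : Type} [Fintype V] (G : SimpleGraph V) : vol G = 2 * G.edgeSet.ncard := by
  have h1 := G.sum_degrees_eq_twice_card_edges
  have h2 : G.edgeSet.ncard = #G.edgeFinset := by
    rw [Set.ncard_eq_toFinset_card', SimpleGraph.edgeFinset]
  rw [h2, ← h1, vol]
  refine Finset.sum_congr rfl fun x _ => ?_
  rw [← SimpleGraph.card_neighborFinset_eq_degree]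
  congr 1
  ext y
  rw [mem_nb, SimpleGraph.mem_neighborFinset]

lemma nb_card {V : Type} [Fintype V] (G : SimpleGraph V) (x : V) :
    (nb G x).card = (G.neighborSet x).ncard := by
  rw [← Set.ncard_coe_finset]
  congr 1
  ext y
  rw [Finset.mem_coe, mem_nb, SimpleGraph.mem_neighborSet]

/-- dense graphs with the property `P` -/
def Dense (P : ∀ V : Type, SimpleGraph V → Prop) (α : ℝ) : Prop :=
  ∃ c : ℝ, 0 < c ∧ ∃ N : ℕ, ∀ n : ℕ, N ≤ n → ∃ G : SimpleGraph (Fin n), P (Fin n) G ∧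
    c * (n : ℝ) ^ α ≤ (G.edgeSet.ncard : ℝ)

/-- every graph of maximum degree at most `d` is the union of `O (d ^ β)` graphs with the
property `P` -/
def Decomposes (P : ∀ V : Type, SimpleGraph V → Prop) (β : ℝ) : Prop :=
  ∃ C : ℝ, ∀ (V : Type) [Finite V] (H : SimpleGraph V) (d : ℕ), 1 ≤ d →
    (∀ x, (H.neighborSet x).ncard ≤ d) → ∃ M : ℕ, (M : ℝ) ≤ C * (d : ℝ) ^ β ∧ UnionOf (P V) H M

/-- for some `c > 0` the edges of the complete graph on `n ≤ c q ^ (1 / β)` vertices can be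
coloured with `q` colours such that all colour classes have the property `P` -/
def Colours (P : ∀ V : Type, SimpleGraph V → Prop) (β : ℝ) : Prop :=
  ∃ c : ℝ, 0 < c ∧ ∀ q n : ℕ, (n : ℝ) ≤ c * (q : ℝ) ^ (1 / β) →
    ∃ χ : Sym2 (Fin n) → Fin q, ∀ i, P (Fin n) (colourClass χ i)

lemma dense_decomposes {P : ∀ V : Type, SimpleGraph V → Prop} (hP : LIClass P) (α : ℝ)
    (hα : 1 < α) (hα2 : α < 2)
    (hup : ∃ C : ℝ, ∀ (V : Type) [Fintype V] (G : SimpleGraph V), P V G →
      (G.edgeSet.ncard : ℝ) ≤ C * (Fintype.card V : ℝ) ^ α)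
    (h : Dense P α) : Decomposes P (2 - α) := by
  obtain ⟨C, hC⟩ := hup
  obtain ⟨c, hc, N, hN⟩ := h
  obtain ⟨K, hK, hcov⟩ := cover hP α hα hα2 ⟨2 * C, fun V _ G hG => by
      have := hC V G hG
      rw [vol_eq]
      push_cast
      linarith⟩ ⟨c, hc, N, fun n hn => by
      obtain ⟨G, hG, hd⟩ := hN n hn
      refine ⟨G, hG, ?_⟩
      rw [vol_eq]
      push_cast
      have : 0 ≤ c * (n : ℝ) ^ α := by positivity
      linarith⟩
  refine ⟨K, fun V _ H d hd hH => ?_⟩
  haveI : Fintype V := Fintype.ofFinite V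
  obtain ⟨M, hM, hM'⟩ := hcov V H d hd (fun x => by rw [nb_card]; exact hH x)
  exact ⟨M, hM, cov_unionOf hM'⟩

lemma decomposes_mono {P Q : ∀ V : Type, SimpleGraph V → Prop} {β : ℝ}
    (hPQ : ∀ (V : Type) [Finite V] (G : SimpleGraph V), P V G → Q V G) (h : Decomposes P β) :
    Decomposes Q β := by
  obtain ⟨C, hC⟩ := h
  refine ⟨C, fun V _ H d hd hH => ?_⟩
  obtain ⟨M, hM, F, hF, hc⟩ := hC V H d hd hH
  exact ⟨M, hM, F, fun i => ⟨(hF i).1, hPQ V _ (hF i).2⟩, hc⟩

lemma decomposes_colours {P : ∀ V : Type, SimpleGraph V → Prop}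
    (hmono : ∀ (V : Type) [Finite V] (F G : SimpleGraph V), F ≤ G → P V G → P V F)
    (hbot : ∀ (V : Type) [Finite V], P V ⊥) {β : ℝ} (hβ : 0 < β) (h : Decomposes P β) :
    Colours P β := by
  obtain ⟨C, hC⟩ := h
  set C' : ℝ := max C 1 with hC'
  have hC'1 : 1 ≤ C' := le_max_right _ _
  have hC'0 : 0 < C' := by linarith
  refine ⟨C' ^ (-(1 / β)), by positivity, fun q n hn => ?_⟩
  rcases Nat.eq_zero_or_pos n with hn0 | hn0
  · subst hn0
    haveI : IsEmpty (Sym2 (Fin 0)) := by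
      refine ⟨fun e => ?_⟩
      induction e using Sym2.ind with
      | _ x y => exact x.elim0
    refine ⟨fun e => isEmptyElim e, fun i => hmono _ _ ⊥ (fun x => x.elim0) (hbot _)⟩
  · have hn1 : (1 : ℝ) ≤ n := by exact_mod_cast hn0
    have hq0 : 0 < q := by
      rcases Nat.eq_zero_or_pos q with hq | hq
      · rw [hq, Nat.cast_zero, Real.zero_rpow (by positivity), mul_zero] at hn
        linarith
      · exact hq
    have hq0' : (0 : ℝ) < q := by exact_mod_cast hq0
    obtain ⟨M, hM, F, hF, hc⟩ := hC (Fin n) ⊤ n hn0 (fun x => by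
      refine (Set.ncard_le_card _).trans ?_
      rw [Nat.card_eq_fintype_card, Fintype.card_fin])
    have hMq : M ≤ q := by
      have h1 : (n : ℝ) ^ β ≤ C'⁻¹ * q := by
        calc (n : ℝ) ^ β ≤ (C' ^ (-(1 / β)) * (q : ℝ) ^ (1 / β)) ^ β :=
              Real.rpow_le_rpow (by positivity) hn hβ.le
          _ = C'⁻¹ * q := by
              rw [Real.mul_rpow (by positivity) (by positivity), ← Real.rpow_mul hC'0.le,
                ← Real.rpow_mul hq0'.le, neg_mul, one_div_mul_cancel hβ.ne', Real.rpow_one,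
                Real.rpow_neg_one]
      have h2 : (M : ℝ) ≤ q := by
        calc (M : ℝ) ≤ C * (n : ℝ) ^ β := hM
          _ ≤ C' * (n : ℝ) ^ β := mul_le_mul_of_nonneg_right (le_max_left _ _) (by positivity)
          _ ≤ C' * (C'⁻¹ * q) := mul_le_mul_of_nonneg_left h1 hC'0.le
          _ = q := by field_simp
      exact_mod_cast h2
    have hex : ∀ e : Sym2 (Fin n), ∃ i : Fin q, ¬ e.IsDiag →
        ∃ j : Fin M, i = Fin.castLE hMq j ∧ e ∈ (F j).edgeSet := by
      intro e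
      by_cases he : e.IsDiag
      · exact ⟨⟨0, hq0⟩, fun h => absurd he h⟩
      · induction e using Sym2.ind with
        | _ x y =>
          have hxy : (⊤ : SimpleGraph (Fin n)).Adj x y := by
            rw [SimpleGraph.top_adj]
            exact he
          rw [hc, SimpleGraph.iSup_adj] at hxy
          obtain ⟨j, hj⟩ := hxy
          exact ⟨Fin.castLE hMq j, fun _ => ⟨j, rfl, hj⟩⟩
    choose χ hχ using hex
    refine ⟨χ, fun i => ?_⟩
    by_cases hi : i.val < M
    · refine hmono _ _ (F ⟨i.val, hi⟩) (fun x y h => ?_) (hF _).2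
      obtain ⟨hxy, hχi⟩ := h
      obtain ⟨j, hj, hj'⟩ := hχ s(x, y) (by simpa using hxy)
      rw [hχi] at hj
      have : j = ⟨i.val, hi⟩ := by
        refine Fin.ext ?_
        have := congrArg Fin.val hj
        simpa using this.symm
      rw [← this]
      exact hj'
    · refine hmono _ _ ⊥ (fun x y h => ?_) (hbot _)
      obtain ⟨hxy, hχi⟩ := h
      obtain ⟨j, hj, hj'⟩ := hχ s(x, y) (by simpa using hxy)
      rw [hχi] at hj
      exact absurd (by rw [hj]; exact j.2) hi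

lemma vol_top (n : ℕ) : vol (⊤ : SimpleGraph (Fin n)) = n * (n - 1) := by
  rw [vol]
  have : ∀ x : Fin n, (nb (⊤ : SimpleGraph (Fin n)) x).card = n - 1 := by
    intro x
    have : nb (⊤ : SimpleGraph (Fin n)) x = univ.erase x := by
      ext y
      simp [mem_nb, eq_comm]
    rw [this, Finset.card_erase_of_mem (Finset.mem_univ x), Finset.card_univ, Fintype.card_fin]
  simp [this]

lemma sum_classes {n q : ℕ} (χ : Sym2 (Fin n) → Fin q) :
    ∑ i, (vol (colourClass χ i) : ℝ) = vol (⊤ : SimpleGraph (Fin n)) := by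
  simp only [vol_eq_sum]
  rw [Finset.sum_comm]
  refine Finset.sum_congr rfl fun x _ => ?_
  rw [Finset.sum_comm]
  refine Finset.sum_congr rfl fun y _ => ?_
  by_cases hxy : x = y
  · subst hxy
    rw [Finset.sum_eq_zero]
    · simp
    · intro i _
      rw [if_neg (fun h => (colourClass χ i).loopless.irrefl x h)]
  · rw [Finset.sum_eq_single (χ s(x, y))]
    · rw [if_pos (show (colourClass χ (χ s(x, y))).Adj x y from ⟨hxy, rfl⟩),
        if_pos (by simpa using hxy)]
    · intro i _ hi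
      rw [if_neg (fun h : (colourClass χ i).Adj x y => hi h.2.symm)]
    · intro h
      exact absurd (Finset.mem_univ _) h

lemma colours_dense {P : ∀ V : Type, SimpleGraph V → Prop} {α : ℝ} (hα : 1 < α) (hα2 : α < 2)
    (h : Colours P (2 - α)) : Dense P α := by
  obtain ⟨c, hc, h⟩ := h
  set β : ℝ := 2 - α with hβ
  have hβ0 : 0 < β := by linarith
  refine ⟨c ^ β / 8, by positivity, ⌈c⌉₊ + 2, fun n hn => ?_⟩
  have hn2 : (2 : ℝ) ≤ n := by exact_mod_cast (by omega : 2 ≤ n)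
  have hnc : c ≤ n := (Nat.le_ceil c).trans (by exact_mod_cast (by omega : ⌈c⌉₊ ≤ n))
  have hn0 : (0 : ℝ) < n := by linarith
  set q : ℕ := ⌈((n : ℝ) / c) ^ β⌉₊ with hq
  have h1 : 1 ≤ ((n : ℝ) / c) ^ β := Real.one_le_rpow (by rw [le_div_iff₀ hc]; linarith) hβ0.le
  have hq1 : ((n : ℝ) / c) ^ β ≤ q := Nat.le_ceil _
  have hq2 : (q : ℝ) ≤ 2 * ((n : ℝ) / c) ^ β := by
    have := Nat.ceil_lt_add_one (a := ((n : ℝ) / c) ^ β) (by positivity)
    rw [← hq] at this
    linarith
  have hq0 : (0 : ℝ) < q := by linarith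
  obtain ⟨χ, hχ⟩ := h q n (by
    have h2 : (n : ℝ) / c ≤ (q : ℝ) ^ (1 / β) := by
      calc (n : ℝ) / c = (((n : ℝ) / c) ^ β) ^ (1 / β) := by
            rw [← Real.rpow_mul (by positivity), mul_one_div_cancel hβ0.ne', Real.rpow_one]
        _ ≤ _ := Real.rpow_le_rpow (by positivity) hq1 (by positivity)
    rw [div_le_iff₀ hc] at h2
    linarith)
  -- pigeonhole
  have hpig : ∃ i, (vol (⊤ : SimpleGraph (Fin n)) : ℝ) / q ≤ vol (colourClass χ i) := by
    by_contra hcon
    push Not at hcon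
    have hqn : 0 < q := by exact_mod_cast hq0
    have h3 := Finset.sum_lt_sum_of_nonempty (s := (univ : Finset (Fin q)))
      ⟨⟨0, hqn⟩, Finset.mem_univ _⟩ (fun i _ => hcon i)
    rw [sum_classes, Finset.sum_const, Finset.card_univ, Fintype.card_fin, nsmul_eq_mul] at h3
    rw [mul_div_cancel₀ _ hq0.ne'] at h3
    exact lt_irrefl _ h3
  obtain ⟨i, hi⟩ := hpig
  refine ⟨colourClass χ i, hχ i, ?_⟩
  rw [vol_top] at hi
  rw [vol_eq] at hi
  push_cast at hi
  have h4 : ((n * (n - 1) : ℕ) : ℝ) = n * (n - 1) := by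
    rw [Nat.cast_mul, Nat.cast_sub (by omega)]
    simp
  have h5 : (n : ℝ) * n / 2 ≤ n * (n - 1) := by nlinarith
  have h6 : (n : ℝ) * n / 2 / (2 * ((n : ℝ) / c) ^ β) ≤ 2 * ((colourClass χ i).edgeSet.ncard : ℝ) := by
    refine le_trans ?_ hi
    have h7 : (n : ℝ) * n / 2 ≤ n * ((n - 1 : ℕ) : ℝ) := by
      rw [Nat.cast_sub (by omega)]
      push_cast
      exact h5
    exact div_le_div₀ (by positivity) h7 hq0 hq2
  have h8 : (n : ℝ) * n / 2 / (2 * ((n : ℝ) / c) ^ β) = 2 * (c ^ β / 8 * (n : ℝ) ^ α) := by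
    have e1 : (n : ℝ) * n = (n : ℝ) ^ α * (n : ℝ) ^ β := by
      rw [← Real.rpow_add hn0, hβ, add_sub_cancel]
      norm_cast
      ring
    rw [Real.div_rpow hn0.le hc.le, e1]
    have : (n : ℝ) ^ β ≠ 0 := by positivity
    field_simp
    ring
  linarith

/-- The three statements are equivalent. -/
theorem three_equiv {P Q : ∀ V : Type, SimpleGraph V → Prop} (hP : LIClass P) (α : ℝ)
    (hα : 1 < α) (hα2 : α < 2)
    (hup : ∃ C : ℝ, ∀ (V : Type) [Fintype V] (G : SimpleGraph V), P V G →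
      (G.edgeSet.ncard : ℝ) ≤ C * (Fintype.card V : ℝ) ^ α)
    (hmono : ∀ (V : Type) [Finite V] (F G : SimpleGraph V), F ≤ G → Q V G → Q V F)
    (hPQ : ∀ (V : Type) [Finite V] (G : SimpleGraph V), P V G → Q V G)
    (hQP : Dense Q α → Dense P α) :
    (Dense Q α ↔ Decomposes Q (2 - α)) ∧ (Dense Q α ↔ Colours Q (2 - α)) := by
  have hbot : ∀ (V : Type) [Finite V], Q V ⊥ := fun V _ => hPQ V ⊥ (hP.single ⊥ (by simp))
  have h1 : Dense Q α → Decomposes Q (2 - α) := fun h =>
    decomposes_mono hPQ (dense_decomposes hP α hα hα2 hup (hQP h))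
  have h2 : Decomposes Q (2 - α) → Colours Q (2 - α) := fun h =>
    decomposes_colours hmono hbot (by linarith) h
  have h3 : Colours Q (2 - α) → Dense Q α := fun h => colours_dense hα hα2 h
  exact ⟨⟨h1, fun h => h3 (h2 h)⟩, ⟨fun h => h2 (h1 h), h3⟩⟩

end Pool.Agent.H55
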