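import Mathlib
import Pool.Agent.H55.CoverDeg

/-!
# Four equivalent statements about a class of graphs closed under locally injective homomorphisms
-/

set_option autoImplicit false
set_option linter.all false

namespace Pool.Agent.H55

open Finset Classical SimpleGraph

/-- every graph of maximum degree at most `d` is the union of `O (d ^ β)` graphs with the
property `P` and all degrees `O (d ^ δ)` -/
def DecomposesB (P : ∀ V : Type, SimpleGraph V → Prop) (β δ : ℝ) : Prop :=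
  ∃ C : ℝ, ∀ (V : Type) [Finite V] (H : SimpleGraph V) (d : ℕ), 1 ≤ d →
    (∀ x, (H.neighborSet x).ncard ≤ d) → ∃ M : ℕ, (M : ℝ) ≤ C * (d : ℝ) ^ β ∧
      UnionOf (fun F : SimpleGraph V => P V F ∧
        ∀ x, ((F.neighborSet x).ncard : ℝ) ≤ C * (d : ℝ) ^ δ) H M

/-- every graph `H` of maximum degree at most `d` has a subgraph with the property `P` with at
least `c d ^ (-β) e(H)` edges -/
def Relative (P : ∀ V : Type, SimpleGraph V → Prop) (β : ℝ) : Prop :=
  ∃ c : ℝ, 0 < c ∧ ∀ (V : Type) [Finite V] (H : SimpleGraph V) (d : ℕ), 1 ≤ d →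
    (∀ x, (H.neighborSet x).ncard ≤ d) → ∃ F ≤ H, P V F ∧
      c * (d : ℝ) ^ (-β) * (H.edgeSet.ncard : ℝ) ≤ (F.edgeSet.ncard : ℝ)

lemma dense_decomposesB {P : ∀ V : Type, SimpleGraph V → Prop} (hP : LIClass P) (α : ℝ)
    (hα : 1 < α) (hα2 : α < 2)
    (hup : ∃ C : ℝ, ∀ (V : Type) [Fintype V] (G : SimpleGraph V), P V G →
      (G.edgeSet.ncard : ℝ) ≤ C * (Fintype.card V : ℝ) ^ α)
    (h : Dense P α) : DecomposesB P (2 - α) (α - 1) := by
  obtain ⟨C, hC⟩ := hup
  obtain ⟨c, hc, N, hN⟩ := h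
  obtain ⟨K, hK, hcov⟩ := cover2 hP α hα hα2 ⟨2 * C, fun V _ G hG => by
      have := hC V G hG
      rw [vol_eq]
      push_cast
      linarith⟩ ⟨c, hc, N, fun n hn => by
      obtain ⟨G, hG, hd⟩ := hN n hn
      refine ⟨G, hG, ?_⟩
      rw [vol_eq]
      push_cast
      have : 0 ≤ c * (n : ℝ) ^ α := by positivity
      linarith⟩
  refine ⟨K, fun V _ H d hd hH => ?_⟩
  haveI : Fintype V := Fintype.ofFinite V
  obtain ⟨M, hM, hM'⟩ := hcov V H d hd (fun x => by rw [nb_card]; exact hH x)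
  exact ⟨M, hM, cov_unionOf hM'⟩

lemma decomposesB_decomposes {P : ∀ V : Type, SimpleGraph V → Prop} {β δ : ℝ}
    (h : DecomposesB P β δ) : Decomposes P β := by
  obtain ⟨C, hC⟩ := h
  refine ⟨C, fun V _ H d hd hH => ?_⟩
  obtain ⟨M, hM, F, hF, hc⟩ := hC V H d hd hH
  exact ⟨M, hM, F, fun i => ⟨(hF i).1, (hF i).2.1⟩, hc⟩

lemma decomposes_relative {P : ∀ V : Type, SimpleGraph V → Prop}
    (hbot : ∀ (V : Type) [Finite V], P V ⊥) {β : ℝ} (h : Decomposes P β) : Relative P β := by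
  obtain ⟨C, hC⟩ := h
  set C' : ℝ := max C 1 with hC'
  have hC'0 : 0 < C' := lt_of_lt_of_le one_pos (le_max_right _ _)
  refine ⟨C'⁻¹, by positivity, fun V _ H d hd hH => ?_⟩
  have hd0 : (0 : ℝ) < d := by exact_mod_cast hd
  obtain ⟨M, hM, F, hF, hc⟩ := hC V H d hd hH
  have hsub : H.edgeSet ⊆ ⋃ i, (F i).edgeSet := by
    intro e he
    induction e using Sym2.ind with
    | _ x y =>
      rw [SimpleGraph.mem_edgeSet, hc, SimpleGraph.iSup_adj] at he
      obtain ⟨i, hi⟩ := he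
      exact Set.mem_iUnion.mpr ⟨i, hi⟩
  have hsum : H.edgeSet.ncard ≤ ∑ i, (F i).edgeSet.ncard := by
    refine (Set.ncard_le_ncard hsub (Set.toFinite _)).trans ?_
    have : ∀ s : Finset (Fin M), (⋃ i ∈ s, (F i).edgeSet).ncard ≤ ∑ i ∈ s, (F i).edgeSet.ncard := by
      intro s
      induction s using Finset.induction_on with
      | empty => simp
      | insert a s ha ih =>
        rw [Finset.sum_insert ha, Finset.set_biUnion_insert]
        exact (Set.ncard_union_le _ _).trans (Nat.add_le_add_left ih _)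
    simpa using this univ
  rcases Nat.eq_zero_or_pos M with hM0 | hM0
  · subst hM0
    refine ⟨⊥, bot_le, hbot V, ?_⟩
    have : H.edgeSet.ncard = 0 := by
      have := hsum
      simp at this
      simpa using this
    rw [this]
    simp
  · obtain ⟨i, hi⟩ : ∃ i, (H.edgeSet.ncard : ℝ) / M ≤ ((F i).edgeSet.ncard : ℝ) := by
      by_contra hcon
      push Not at hcon
      have h3 := Finset.sum_lt_sum_of_nonempty (s := (univ : Finset (Fin M)))
        ⟨⟨0, hM0⟩, Finset.mem_univ _⟩ (fun i _ => hcon i)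
      rw [Finset.sum_const, Finset.card_univ, Fintype.card_fin, nsmul_eq_mul,
        mul_div_cancel₀ _ (by positivity)] at h3
      have : (H.edgeSet.ncard : ℝ) ≤ ∑ i, ((F i).edgeSet.ncard : ℝ) := by exact_mod_cast hsum
      linarith
    refine ⟨F i, (hF i).1, (hF i).2, le_trans ?_ hi⟩
    have hM0' : (0 : ℝ) < M := by exact_mod_cast hM0
    have hM2 : (M : ℝ) ≤ C' * (d : ℝ) ^ β :=
      hM.trans (mul_le_mul_of_nonneg_right (le_max_left _ _) (by positivity))
    rw [Real.rpow_neg hd0.le, ← mul_inv, inv_mul_eq_div]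
    exact div_le_div_of_nonneg_left (by positivity) hM0' hM2

lemma relative_dense {P : ∀ V : Type, SimpleGraph V → Prop} {α : ℝ}
    (h : Relative P (2 - α)) : Dense P α := by
  obtain ⟨c, hc, h⟩ := h
  refine ⟨c / 4, by positivity, 2, fun n hn => ?_⟩
  have hn2 : (2 : ℝ) ≤ n := by exact_mod_cast hn
  obtain ⟨F, _, hF, hd⟩ := h (Fin n) ⊤ n (by omega) (fun x => by
      refine (Set.ncard_le_card _).trans ?_
      rw [Nat.card_eq_fintype_card, Fintype.card_fin])
  refine ⟨F, hF, le_trans ?_ hd⟩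
  have h1 := vol_eq (⊤ : SimpleGraph (Fin n))
  rw [vol_top] at h1
  have h2 : (n : ℝ) * (n - 1) = 2 * ((⊤ : SimpleGraph (Fin n)).edgeSet.ncard : ℝ) := by
    have : ((n * (n - 1) : ℕ) : ℝ) = 2 * ((⊤ : SimpleGraph (Fin n)).edgeSet.ncard : ℝ) := by
      exact_mod_cast h1
    rw [Nat.cast_mul, Nat.cast_sub (by omega)] at this
    simpa using this
  have h3 : (n : ℝ) ^ 2 / 4 ≤ ((⊤ : SimpleGraph (Fin n)).edgeSet.ncard : ℝ) := by nlinarith
  have h4 : (n : ℝ) ^ α = (n : ℝ) ^ (-(2 - α)) * (n : ℝ) ^ 2 := by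
    have : (n : ℝ) ^ 2 = (n : ℝ) ^ (2 : ℝ) := by norm_cast
    rw [this, ← Real.rpow_add (by linarith)]
    congr 1
    ring
  rw [h4]
  calc c / 4 * ((n : ℝ) ^ (-(2 - α)) * (n : ℝ) ^ 2)
      = c * (n : ℝ) ^ (-(2 - α)) * ((n : ℝ) ^ 2 / 4) := by ring
    _ ≤ _ := mul_le_mul_of_nonneg_left h3 (by positivity)

/-- **The four statements are equivalent.** -/
theorem four_equiv {P : ∀ V : Type, SimpleGraph V → Prop} (hP : LIClass P) (α : ℝ)
    (hα : 1 < α) (hα2 : α < 2)
    (hup : ∃ C : ℝ, ∀ (V : Type) [Fintype V] (G : SimpleGraph V), P V G →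
      (G.edgeSet.ncard : ℝ) ≤ C * (Fintype.card V : ℝ) ^ α) :
    (Dense P α ↔ DecomposesB P (2 - α) (α - 1)) ∧ (Dense P α ↔ Relative P (2 - α)) ∧
      (Dense P α ↔ Colours P (2 - α)) := by
  have hbot : ∀ (V : Type) [Finite V], P V ⊥ := fun V _ => hP.single ⊥ (by simp)
  have h1 : Dense P α → DecomposesB P (2 - α) (α - 1) := dense_decomposesB hP α hα hα2 hup
  have h2 : DecomposesB P (2 - α) (α - 1) → Decomposes P (2 - α) := decomposesB_decomposes
  have h3 : Decomposes P (2 - α) → Relative P (2 - α) := decomposes_relative hbot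
  have h4 : Relative P (2 - α) → Dense P α := relative_dense
  have h5 : Decomposes P (2 - α) → Colours P (2 - α) := fun h =>
    decomposes_colours (fun V _ F G hle hG => hP.mono hle hG) hbot (by linarith) h
  have h6 : Colours P (2 - α) → Dense P α := fun h => colours_dense hα hα2 h
  exact ⟨⟨h1, fun h => h4 (h3 (h2 h))⟩, ⟨fun h => h3 (h2 (h1 h)), h4⟩,
    ⟨fun h => h5 (h2 (h1 h)), h6⟩⟩

lemma decomposesB_mono {P Q : ∀ V : Type, SimpleGraph V → Prop} {β δ : ℝ}
    (hPQ : ∀ (V : Type) [Finite V] (G : SimpleGraph V), P V G → Q V G) (h : DecomposesB P β δ) :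
    DecomposesB Q β δ := by
  obtain ⟨C, hC⟩ := h
  refine ⟨C, fun V _ H d hd hH => ?_⟩
  obtain ⟨M, hM, F, hF, hc⟩ := hC V H d hd hH
  exact ⟨M, hM, F, fun i => ⟨(hF i).1, hPQ V _ (hF i).2.1, (hF i).2.2⟩, hc⟩

/-- The same for a monotone class `Q` which contains a suitable class `P` as dense as `Q`. -/
theorem four_equiv' {P Q : ∀ V : Type, SimpleGraph V → Prop} (hP : LIClass P) (α : ℝ)
    (hα : 1 < α) (hα2 : α < 2)
    (hup : ∃ C : ℝ, ∀ (V : Type) [Fintype V] (G : SimpleGraph V), P V G →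
      (G.edgeSet.ncard : ℝ) ≤ C * (Fintype.card V : ℝ) ^ α)
    (hmono : ∀ (V : Type) [Finite V] (F G : SimpleGraph V), F ≤ G → Q V G → Q V F)
    (hPQ : ∀ (V : Type) [Finite V] (G : SimpleGraph V), P V G → Q V G)
    (hQP : Dense Q α → Dense P α) :
    (Dense Q α ↔ DecomposesB Q (2 - α) (α - 1)) ∧ (Dense Q α ↔ Relative Q (2 - α)) ∧
      (Dense Q α ↔ Colours Q (2 - α)) := by
  have hbot : ∀ (V : Type) [Finite V], Q V ⊥ := fun V _ => hPQ V ⊥ (hP.single ⊥ (by simp))
  have h1 : Dense Q α → DecomposesB Q (2 - α) (α - 1) := fun h =>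
    decomposesB_mono hPQ (dense_decomposesB hP α hα hα2 hup (hQP h))
  have h2 : DecomposesB Q (2 - α) (α - 1) → Decomposes Q (2 - α) := decomposesB_decomposes
  have h3 : Decomposes Q (2 - α) → Relative Q (2 - α) := decomposes_relative hbot
  have h4 : Relative Q (2 - α) → Dense Q α := relative_dense
  have h5 : Decomposes Q (2 - α) → Colours Q (2 - α) := fun h =>
    decomposes_colours hmono hbot (by linarith) h
  have h6 : Colours Q (2 - α) → Dense Q α := fun h => colours_dense hα hα2 h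
  exact ⟨⟨h1, fun h => h4 (h3 (h2 h))⟩, ⟨fun h => h3 (h2 (h1 h)), h4⟩,
    ⟨fun h => h5 (h2 (h1 h)), h6⟩⟩

end Pool.Agent.H55
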