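import Mathlib
import Pool.Agent.H55.Equiv
import Pool.Graph.R_pool_sql_team_seeded_64922ed1.X73.RK.Even
import Pool.Graph.R_pool_sql_team_seeded_9f66d723.W5h1.SL.Wenger

/-!
# Even cycles: the ingredients
-/

set_option autoImplicit false
set_option linter.all false

namespace Pool.Agent.H55

open Finset Classical SimpleGraph

lemma free_of_le {V W : Type} {A : SimpleGraph W} {F G : SimpleGraph V} (h : F ≤ G)
    (hG : A.Free G) : A.Free F := fun hF =>
  hG (hF.trans ⟨⟨SimpleGraph.Hom.ofLE h, fun _ _ h => h⟩⟩)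

/-- Bondy and Simonovits -/
lemma bs {k : ℕ} (hk : 2 ≤ k) (V : Type) [Fintype V] (G : SimpleGraph V)
    (hG : (cycleGraph (2 * k)).Free G) :
    (G.edgeSet.ncard : ℝ) ≤ (k * (2 * k - 3)) * (Fintype.card V : ℝ) ^ (1 + 1 / (k : ℝ)) := by
  have hcard : G.edgeSet.ncard = #G.edgeFinset := by
    rw [Set.ncard_eq_toFinset_card', SimpleGraph.edgeFinset]
  rw [hcard]
  have h1 := Pool.Agent.X73.RK.rank_even G hk hG
  have hk0 : (0 : ℝ) < k := by exact_mod_cast (by omega : 0 < k)
  have hk' : (2 : ℝ) ≤ k := by exact_mod_cast hk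
  have hK : (0 : ℝ) < k * (2 * k - 3) := mul_pos hk0 (by linarith)
  rcases Nat.eq_zero_or_pos (Fintype.card V) with hn | hn
  · have hV : IsEmpty V := Fintype.card_eq_zero_iff.mp hn
    have he : #G.edgeFinset = 0 := by
      rw [Finset.card_eq_zero, Finset.eq_empty_iff_forall_notMem]
      intro x _
      induction x with
      | _ x y => exact hV.elim x
    rw [he, Nat.cast_zero]
    positivity
  · have hn0 : (0 : ℝ) < Fintype.card V := by exact_mod_cast hn
    have h2 : ((G.adjMatrix ℝ).rank : ℝ) ≤ Fintype.card V := by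
      exact_mod_cast Matrix.rank_le_card_width (G.adjMatrix ℝ)
    have h3 := h1.trans h2
    have h4 : (#G.edgeFinset : ℝ) / (k * (2 * k - 3) * Fintype.card V)
        ≤ (Fintype.card V : ℝ) ^ (1 / (k : ℝ)) := by
      calc (#G.edgeFinset : ℝ) / (k * (2 * k - 3) * Fintype.card V)
          = (((#G.edgeFinset : ℝ) / (k * (2 * k - 3) * Fintype.card V)) ^ k) ^ (1 / (k : ℝ)) := by
            rw [one_div, Real.pow_rpow_inv_natCast (by positivity) (by omega)]
        _ ≤ _ := Real.rpow_le_rpow (by positivity) h3 (by positivity)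
    rw [div_le_iff₀ (by positivity)] at h4
    refine h4.trans (le_of_eq ?_)
    rw [Real.rpow_add hn0, Real.rpow_one]
    ring

/-- the lengths `3, …, k` and `2 k` -/
def lens (k : ℕ) : Set ℕ := {m | m ≤ k ∨ m = 2 * k}

lemma lens_class (k : ℕ) : LIClass (NoCyc (lens k)) := by
  refine noCyc_class (lens k) fun m hm j hj3 hj => ?_
  left
  rcases hm with h | h <;> omega

/-- the subgraph without the short cycles -/
lemma prep (k : ℕ) (hk : k = 2 ∨ k = 3 ∨ k = 4 ∨ k = 5 ∨ k = 7) {V : Type} [Fintype V]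
    (G : SimpleGraph V) (hG : (cycleGraph (2 * k)).Free G) :
    ∃ G' ≤ G, NoCyc (lens k) V G' ∧ (vol G : ℝ) / 2 ^ 40 ≤ vol G' := by
  obtain ⟨G₁, hG₁, hcol, hv₁⟩ := bip_sub G
  obtain ⟨G₂, hG₂, h4, hv₂⟩ := clean G₁ 4 (k - 1) (by norm_num) (by omega) (by
    have : 2 + (k - 1) * (4 - 2) = 2 * k := by omega
    rw [this]
    exact free_of_le hG₁ hG)
  have hcol₂ : G₂.Colorable 2 := hcol.mono_left hG₂
  have h0 : (0 : ℝ) ≤ vol G := by positivity
  have h02 : (0 : ℝ) ≤ vol G₂ := by positivity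
  have hk16 : 2 + (k - 1) * (4 - 2) + 2 ≤ 16 := by omega
  have hv₂' : (vol G : ℝ) / 2 ^ 17 ≤ vol G₂ := by
    have h1 : (vol G₁ : ℝ) ≤ 2 ^ 16 * vol G₂ := by
      rw [div_le_iff₀ (by positivity)] at hv₂
      refine hv₂.trans ?_
      rw [mul_comm]
      exact mul_le_mul_of_nonneg_right (pow_le_pow_right₀ (by norm_num) hk16) h02
    rw [div_le_iff₀ (by positivity)]
    rw [div_le_iff₀ (by positivity)] at hv₁
    nlinarith
  by_cases hk7 : k = 7
  · obtain ⟨G₃, hG₃, h6, hv₃⟩ := clean G₂ 6 3 (by norm_num) (by omega) (by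
      have : 2 + 3 * (6 - 2) = 2 * k := by omega
      rw [this]
      exact free_of_le hG₂ (free_of_le hG₁ hG))
    have hcol₃ : G₃.Colorable 2 := hcol₂.mono_left hG₃
    refine ⟨G₃, hG₃.trans (hG₂.trans hG₁), ?_, ?_⟩
    · intro m hm hm3
      rcases hm with hm | hm
      · rcases Nat.even_or_odd m with he | ho
        · have : m = 4 ∨ m = 6 := by
            obtain ⟨t, ht⟩ := he
            omega
          rcases this with rfl | rfl
          · exact free_of_le hG₃ h4
          · exact h6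
        · exact bip_odd hcol₃ m ho hm3
      · rw [hm]
        exact free_of_le (hG₃.trans (hG₂.trans hG₁)) hG
    · norm_num at hv₃ hv₂' ⊢
      linarith
  · refine ⟨G₂, hG₂.trans hG₁, ?_, ?_⟩
    · intro m hm hm3
      rcases hm with hm | hm
      · rcases Nat.even_or_odd m with he | ho
        · have : m = 4 := by
            obtain ⟨t, ht⟩ := he
            omega
          rw [this]
          exact h4
        · exact bip_odd hcol₂ m ho hm3
      · rw [hm]
        exact free_of_le (hG₂.trans hG₁) hG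
    · refine le_trans ?_ hv₂'
      exact div_le_div_of_nonneg_left h0 (by norm_num) (by norm_num)

/-! ### Wenger's graphs -/

lemma free_map {V W U : Type} {A : SimpleGraph U} (hA : ∀ u, ∃ v, A.Adj u v) {G : SimpleGraph V}
    (e : V ↪ W) (hG : A.Free G) : A.Free (G.map e) := by
  rintro ⟨φ⟩
  have h1 : ∀ u, ∃ a, e a = φ u := by
    intro u
    obtain ⟨v, huv⟩ := hA u
    have := φ.toHom.map_adj huv
    rw [SimpleGraph.map_adj] at this
    obtain ⟨a, b, _, ha, _⟩ := this
    exact ⟨a, ha⟩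
  choose ψ hψ using h1
  refine hG ⟨⟨⟨ψ, ?_⟩, ?_⟩⟩
  · intro u v huv
    have := φ.toHom.map_adj huv
    rw [SimpleGraph.map_adj] at this
    obtain ⟨a, b, hab, ha, hb⟩ := this
    have h2 : a = ψ u := e.injective (ha.trans (hψ u).symm)
    have h3 : b = ψ v := e.injective (hb.trans (hψ v).symm)
    rw [← h2, ← h3]
    exact hab
  · intro u v huv
    have : ψ u = ψ v := huv
    refine φ.injective ?_
    show φ u = φ v
    rw [← hψ u, ← hψ v, this]

lemma vol_map {V W : Type} [Fintype V] [Fintype W] (G : SimpleGraph V) (e : V ↪ W) :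
    vol G ≤ vol (G.map e) := by
  have h : ∀ a : V, (nb G a).card ≤ (nb (G.map e) (e a)).card := by
    intro a
    refine Finset.card_le_card_of_injOn e ?_ (e.injective.injOn)
    intro b hb
    rw [Finset.mem_coe, mem_nb] at hb ⊢
    exact (SimpleGraph.map_adj_apply (f := e)).mpr hb
  calc vol G ≤ ∑ a : V, (nb (G.map e) (e a)).card := Finset.sum_le_sum fun a _ => h a
    _ = ∑ w ∈ (univ : Finset V).map e, (nb (G.map e) w).card := by rw [Finset.sum_map]
    _ ≤ vol (G.map e) := Finset.sum_le_sum_of_subset (Finset.subset_univ _)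

open Pool.Agent.W5h1.SL in
lemma wg_vol (p k : ℕ) [Fact p.Prime] :
    p ^ (k + 2) ≤ vol (WG (ZMod p) k) := by
  have h : ∀ x : Fin (k + 1) → ZMod p, p ≤ (nb (WG (ZMod p) k) (0, x)).card := by
    intro x
    have : ∀ t : ZMod p, ∃ y, WR x y ∧ y 0 = t := fun t => exists_line x t
    choose y hy using this
    calc p = (univ : Finset (ZMod p)).card := by rw [Finset.card_univ, ZMod.card]
      _ ≤ _ := by
          refine Finset.card_le_card_of_injOn (fun t => ((1 : ZMod 2), y t)) ?_ ?_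
          · intro t _
            rw [Finset.mem_coe, mem_nb]
            exact Or.inl ⟨rfl, rfl, (hy t).1⟩
          · intro t _ t' _ h
            have h1 : y t = y t' := (Prod.ext_iff.mp h).2
            rw [← (hy t).2, ← (hy t').2, h1]
  calc p ^ (k + 2) = ∑ x : Fin (k + 1) → ZMod p, p := by
        rw [Finset.sum_const, Finset.card_univ, Fintype.card_fun, Fintype.card_fin, ZMod.card,
          smul_eq_mul]
        ring
    _ ≤ ∑ x : Fin (k + 1) → ZMod p, (nb (WG (ZMod p) k) ((0 : ZMod 2), x)).card :=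
        Finset.sum_le_sum fun x _ => h x
    _ ≤ ∑ i : ZMod 2, ∑ x : Fin (k + 1) → ZMod p, (nb (WG (ZMod p) k) (i, x)).card :=
        Finset.single_le_sum (f := fun i : ZMod 2 =>
          ∑ x : Fin (k + 1) → ZMod p, (nb (WG (ZMod p) k) (i, x)).card)
          (fun _ _ => Nat.zero_le _) (Finset.mem_univ (0 : ZMod 2))
    _ = vol (WG (ZMod p) k) := by
        rw [vol, Fintype.sum_prod_type]

open Pool.Agent.W5h1.SL in
lemma wenger_dense (k : ℕ) (hk : k = 2 ∨ k = 3 ∨ k = 5) :
    Dense (fun V G => (cycleGraph (2 * k)).Free G) (1 + 1 / (k : ℝ)) := by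
  have hk2 : 2 ≤ k := by omega
  have hk0 : (0 : ℝ) < k := by exact_mod_cast (by omega : 0 < k)
  refine ⟨1 / 2 ^ (k + 4), by positivity, 2 * 2 ^ k, fun n hn => ?_⟩
  have hn' : (2 : ℝ) * 2 ^ k ≤ n := by exact_mod_cast hn
  have hn0 : (0 : ℝ) < n := lt_of_lt_of_le (by positivity) hn'
  set x : ℝ := ((n : ℝ) / 2) ^ (1 / (k : ℝ)) with hx
  have hx0 : 0 < x := by positivity
  have hxk : x ^ k = n / 2 := by
    rw [hx, one_div]
    exact Real.rpow_inv_natCast_pow (by positivity) (by omega)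
  have hx2 : 2 ≤ x := by
    by_contra hcon
    push Not at hcon
    have : x ^ k < 2 ^ k := pow_lt_pow_left₀ hcon hx0.le (by omega)
    rw [hxk] at this
    linarith
  set r : ℕ := ⌊x⌋₊ with hr
  have hr1 : (r : ℝ) ≤ x := Nat.floor_le hx0.le
  have hr2 : x < r + 1 := Nat.lt_floor_add_one x
  have hr3 : 2 ≤ r := Nat.le_floor (by push_cast; exact hx2)
  obtain ⟨p, hp, hp1, hp2⟩ := Nat.exists_prime_lt_and_le_two_mul (r / 2) (by omega)
  haveI : Fact p.Prime := ⟨hp⟩
  have hpr : p ≤ r := by omega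
  have hpx : x < 2 * p := by
    have : r + 1 ≤ 2 * p := by omega
    have : ((r : ℝ) + 1) ≤ 2 * p := by exact_mod_cast this
    linarith
  have hcard : Fintype.card (ZMod 2 × (Fin (k - 1 + 1) → ZMod p)) ≤ n := by
    have h1 : Fintype.card (ZMod 2 × (Fin (k - 1 + 1) → ZMod p)) = 2 * p ^ k := by
      rw [Fintype.card_prod, Fintype.card_fun, Fintype.card_fin, ZMod.card, ZMod.card,
        Nat.sub_add_cancel (by omega)]
    rw [h1]
    have h2 : (2 : ℝ) * (p : ℝ) ^ k ≤ n := by
      have h3 : (p : ℝ) ≤ x := le_trans (by exact_mod_cast hpr) hr1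
      have h4 : (p : ℝ) ^ k ≤ x ^ k := pow_le_pow_left₀ (by positivity) h3 k
      rw [hxk] at h4
      linarith
    exact_mod_cast h2
  obtain ⟨e⟩ : Nonempty ((ZMod 2 × (Fin (k - 1 + 1) → ZMod p)) ↪ Fin n) :=
    Function.Embedding.nonempty_of_card_le (by rw [Fintype.card_fin]; exact hcard)
  refine ⟨(WG (ZMod p) (k - 1)).map e, ?_, ?_⟩
  · have h1 : (cycleGraph (2 * k)).Free (WG (ZMod p) (k - 1)) := by
      have h := wg_free (F := ZMod p) (k := k - 1) (by omega)
      have e : 2 * k = 2 * (k - 1 + 1) := by omega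
      rw [e]
      exact h
    refine free_map ?_ e h1
    intro u
    refine ⟨⟨(u.val + 1) % (2 * k), Nat.mod_lt _ (by omega)⟩, ?_⟩
    have := cycleGraph_succ_adj (r := 2 * k) (by omega) u.val
    convert this using 1
    exact Fin.ext (Nat.mod_eq_of_lt u.2).symm
  · have h1 := vol_map (WG (ZMod p) (k - 1)) e
    have h2 := wg_vol p (k - 1)
    rw [vol_eq ((WG (ZMod p) (k - 1)).map e)] at h1
    have h3 : (p : ℝ) ^ (k + 1) ≤ 2 * (((WG (ZMod p) (k - 1)).map e).edgeSet.ncard : ℝ) := by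
      have : p ^ (k - 1 + 2) ≤ 2 * (((WG (ZMod p) (k - 1)).map e).edgeSet.ncard) := h2.trans h1
      rw [show k - 1 + 2 = k + 1 by omega] at this
      exact_mod_cast this
    have h4 : x ^ (k + 1) ≤ 2 ^ (k + 1) * (p : ℝ) ^ (k + 1) := by
      rw [← mul_pow]
      exact pow_le_pow_left₀ hx0.le hpx.le _
    have h5 : (n : ℝ) ^ (1 + 1 / (k : ℝ)) ≤ 4 * x ^ (k + 1) := by
      have e1 : x ^ (k + 1) = ((n : ℝ) / 2) ^ (1 + 1 / (k : ℝ)) := by
        rw [pow_succ, hxk, Real.rpow_add (by positivity), Real.rpow_one]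
      rw [e1, Real.div_rpow hn0.le (by norm_num)]
      have e2 : (2 : ℝ) ^ (1 + 1 / (k : ℝ)) ≤ 4 := by
        calc (2 : ℝ) ^ (1 + 1 / (k : ℝ)) ≤ 2 ^ (2 : ℝ) := by
              refine Real.rpow_le_rpow_of_exponent_le (by norm_num) ?_
              have : 1 / (k : ℝ) ≤ 1 := by
                rw [div_le_one hk0]
                exact_mod_cast (by omega : 1 ≤ k)
              linarith
          _ = 4 := by norm_num
      have e3 : 0 < (n : ℝ) ^ (1 + 1 / (k : ℝ)) := by positivity
      rw [mul_div_assoc', le_div_iff₀ (by positivity)]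
      nlinarith
    have h6 : (2 : ℝ) ^ (k + 4) = 8 * 2 ^ (k + 1) := by ring
    rw [h6, one_div, inv_mul_le_iff₀ (by positivity)]
    calc (n : ℝ) ^ (1 + 1 / (k : ℝ)) ≤ 4 * x ^ (k + 1) := h5
      _ ≤ 4 * (2 ^ (k + 1) * (p : ℝ) ^ (k + 1)) := by linarith
      _ ≤ 4 * (2 ^ (k + 1) * (2 * (((WG (ZMod p) (k - 1)).map e).edgeSet.ncard : ℝ))) := by
          refine mul_le_mul_of_nonneg_left ?_ (by norm_num)
          exact mul_le_mul_of_nonneg_left h3 (by positivity)
      _ = _ := by ring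

end Pool.Agent.H55
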