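import Mathlib
import Pool.Agent.H55.EquivDeg
import Pool.Agent.H55.Even

/-!
# Splitting vertices

A graph from a class closed under locally injective homomorphisms can be replaced by one with the
same number of edges, all degrees at most `D` and few more vertices: split every vertex into
vertices of degree at most `D`.
-/

set_option autoImplicit false
set_option linter.all false

namespace Pool.Agent.H55

open Finset Classical SimpleGraph

/-- the rank of `w` among the neighbours of `v` -/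
noncomputable def rk {n : ℕ} (G : SimpleGraph (Fin n)) (v w : Fin n) : ℕ := ((nb G v).filter (fun u => u < w)).card

lemma rk_lt {n : ℕ} (G : SimpleGraph (Fin n)) {v w : Fin n} (h : G.Adj v w) :
    rk G v w < (nb G v).card := by
  refine Finset.card_lt_card (Finset.filter_ssubset.mpr ⟨w, mem_nb.mpr h, lt_irrefl _⟩)

lemma rk_mono {n : ℕ} (G : SimpleGraph (Fin n)) {v w w' : Fin n} (h : G.Adj v w) (hw : w < w') :
    rk G v w < rk G v w' := by
  refine Finset.card_lt_card ⟨fun u hu => ?_, fun hsub => ?_⟩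
  · rw [Finset.mem_filter] at hu ⊢
    exact ⟨hu.1, hu.2.trans hw⟩
  · have : w ∈ (nb G v).filter (fun u => u < w') := Finset.mem_filter.mpr ⟨mem_nb.mpr h, hw⟩
    have h2 := hsub this
    rw [Finset.mem_filter] at h2
    exact lt_irrefl _ h2.2

lemma rk_inj {n : ℕ} (G : SimpleGraph (Fin n)) {v w w' : Fin n} (h : G.Adj v w) (h' : G.Adj v w')
    (he : rk G v w = rk G v w') : w = w' := by
  rcases lt_trichotomy w w' with hlt | heq | hgt
  · exact absurd he (rk_mono G h hlt).ne
  · exact heq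
  · exact absurd he.symm (rk_mono G h' hgt).ne

/-- the vertices of the split graph -/
abbrev SV {n : ℕ} (G : SimpleGraph (Fin n)) (D : ℕ) : Type :=
  Σ v : Fin n, Fin ((nb G v).card / D + 1)

/-- the split graph -/
def splitG {n : ℕ} (G : SimpleGraph (Fin n)) (D : ℕ) : SimpleGraph (SV G D) where
  Adj a b := G.Adj a.1 b.1 ∧ rk G a.1 b.1 / D = a.2.1 ∧ rk G b.1 a.1 / D = b.2.1
  symm := ⟨fun a b h => ⟨h.1.symm, h.2.2, h.2.1⟩⟩
  loopless := ⟨fun a h => G.loopless.irrefl _ h.1⟩

lemma card_SV {n : ℕ} (G : SimpleGraph (Fin n)) (D : ℕ) (hD : 1 ≤ D) :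
    Fintype.card (SV G D) ≤ n + vol G / D := by
  rw [Fintype.card_sigma]
  simp only [Fintype.card_fin]
  rw [Finset.sum_add_distrib]
  simp only [Finset.sum_const, Finset.card_univ, Fintype.card_fin, smul_eq_mul, mul_one]
  have : (∑ v : Fin n, (nb G v).card / D) ≤ vol G / D := by
    rw [Nat.le_div_iff_mul_le (by omega), Finset.sum_mul, vol]
    exact Finset.sum_le_sum fun v _ => Nat.div_mul_le_self _ _
  omega

/-- the neighbours which belong to one part -/
lemma nb_split {n : ℕ} (G : SimpleGraph (Fin n)) (D : ℕ) (hD : 1 ≤ D) (a : SV G D) :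
    (nb (splitG G D) a).card = ((nb G a.1).filter (fun w => rk G a.1 w / D = a.2.1)).card := by
  refine Finset.card_bij (fun b _ => b.1) ?_ ?_ ?_
  · intro b hb
    rw [mem_nb] at hb
    rw [Finset.mem_filter, mem_nb]
    exact ⟨hb.1, hb.2.1⟩
  · rintro ⟨b, i⟩ hb ⟨b', i'⟩ hb' h
    rw [mem_nb] at hb hb'
    have h1 : b = b' := h
    subst h1
    have h2 : i = i' := Fin.ext (hb.2.2.symm.trans hb'.2.2)
    rw [h2]
  · intro w hw
    rw [Finset.mem_filter, mem_nb] at hw
    have hlt := rk_lt G hw.1.symm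
    refine ⟨⟨w, ⟨rk G w a.1 / D, ?_⟩⟩, ?_, rfl⟩
    · exact Nat.lt_succ_of_le (Nat.div_le_div_right hlt.le)
    · rw [mem_nb]
      exact ⟨hw.1, hw.2, rfl⟩

lemma deg_split {n : ℕ} (G : SimpleGraph (Fin n)) (D : ℕ) (hD : 1 ≤ D) (a : SV G D) :
    (nb (splitG G D) a).card ≤ D := by
  rw [nb_split G D hD]
  have : ((nb G a.1).filter (fun w => rk G a.1 w / D = a.2.1)).card ≤
      (Finset.Ico (a.2.1 * D) (a.2.1 * D + D)).card := by
    refine Finset.card_le_card_of_injOn (fun w => rk G a.1 w) ?_ ?_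
    · intro w hw
      rw [Finset.mem_coe, Finset.mem_filter] at hw
      simp only [Finset.coe_Ico, Set.mem_Ico]
      have h1 := hw.2
      rw [Nat.div_eq_iff (by omega)] at h1
      constructor
      · exact h1.1
      · have := h1.2
        omega
    · intro w hw w' hw' he
      rw [Finset.mem_coe, Finset.mem_filter, mem_nb] at hw hw'
      exact rk_inj G hw.1 hw'.1 he
  simpa using this

lemma vol_split {n : ℕ} (G : SimpleGraph (Fin n)) (D : ℕ) (hD : 1 ≤ D) :
    vol G = vol (splitG G D) := by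
  rw [vol, vol, Fintype.sum_sigma]
  refine Finset.sum_congr rfl fun v _ => ?_
  simp only [nb_split G D hD, Finset.card_filter]
  rw [Finset.sum_comm, Finset.card_eq_sum_ones]
  refine Finset.sum_congr rfl fun w hw => ?_
  have hlt := rk_lt G (mem_nb.mp hw)
  symm
  have key : ∀ (k t : ℕ), t < k →
      (∑ x : Fin k, if t = (x : ℕ) then (1 : ℕ) else 0) = 1 := by
    intro k t ht
    rw [Finset.sum_eq_single (⟨t, ht⟩ : Fin k)]
    · simp
    · intro b _ hb
      rw [if_neg]
      intro h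
      exact hb (Fin.ext h.symm)
    · intro h
      exact absurd (Finset.mem_univ _) h
  rw [Finset.card_eq_sum_ones] at hlt
  exact key _ _ (Nat.lt_succ_of_le (Nat.div_le_div_right hlt.le))

/-- **Splitting.** -/
lemma split {P : ∀ V : Type, SimpleGraph V → Prop} (hP : LIClass P) {n N D : ℕ} (hn : 0 < n)
    (G : SimpleGraph (Fin n)) (hG : P (Fin n) G) (hD : 1 ≤ D) (hN : n + vol G / D ≤ N) :
    ∃ G' : SimpleGraph (Fin N), P (Fin N) G' ∧ vol G ≤ vol G' ∧ ∀ x, (nb G' x).card ≤ D := by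
  have hcard : Fintype.card (SV G D) ≤ Fintype.card (Fin N) := by
    rw [Fintype.card_fin]
    exact (card_SV G D hD).trans hN
  obtain ⟨e⟩ := Function.Embedding.nonempty_of_card_le hcard
  set g : Fin N → Fin n := fun x => if h : ∃ a : SV G D, e a = x then h.choose.1 else ⟨0, hn⟩
    with hg
  have hge : ∀ a : SV G D, g (e a) = a.1 := by
    intro a
    have h : ∃ b : SV G D, e b = e a := ⟨a, rfl⟩
    rw [hg]
    simp only [h, dif_pos]
    have := e.injective h.choose_spec
    rw [this]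
  refine ⟨(splitG G D).map e, ?_, ?_, ?_⟩
  · refine hP.pull _ G g ⟨?_, ?_⟩ hG
    · intro x y hxy
      rw [SimpleGraph.map_adj] at hxy
      obtain ⟨a, b, hab, rfl, rfl⟩ := hxy
      rw [hge, hge]
      exact hab.1
    · intro x y z hxy hxz he
      rw [SimpleGraph.map_adj] at hxy hxz
      obtain ⟨a, b, hab, rfl, rfl⟩ := hxy
      obtain ⟨a', c, hac, ha', rfl⟩ := hxz
      have haa : a' = a := e.injective ha'
      subst haa
      rw [hge, hge] at he
      obtain ⟨b, i⟩ := b
      obtain ⟨c, j⟩ := c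
      have hbc : b = c := he
      subst hbc
      have hij : i = j := Fin.ext (hab.2.2.symm.trans hac.2.2)
      rw [hij]
  · rw [vol_split G D hD]
    exact vol_map _ e
  · intro x
    by_cases h : ∃ a : SV G D, e a = x
    · obtain ⟨a, rfl⟩ := h
      refine le_trans ?_ (deg_split G D hD a)
      have : nb ((splitG G D).map e) (e a) ⊆ (nb (splitG G D) a).map e := by
        intro y hy
        rw [mem_nb, SimpleGraph.map_adj] at hy
        obtain ⟨a', b, hab, ha', rfl⟩ := hy
        have haa : a' = a := e.injective ha'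
        subst haa
        exact Finset.mem_map_of_mem _ (mem_nb.mpr hab)
      exact (Finset.card_le_card this).trans (by rw [Finset.card_map])
    · have : nb ((splitG G D).map e) x = ∅ := by
        rw [Finset.eq_empty_iff_forall_notMem]
        intro y hy
        rw [mem_nb, SimpleGraph.map_adj] at hy
        obtain ⟨a, b, hab, ha, _⟩ := hy
        exact h ⟨a, ha⟩
      rw [this]
      simp

/-- the property `P`, many edges and all degrees small -/
def DenseReg (P : ∀ V : Type, SimpleGraph V → Prop) (α : ℝ) : Prop :=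
  ∃ c l : ℝ, 0 < c ∧ 0 < l ∧ ∃ N₀ : ℕ, ∀ N : ℕ, N₀ ≤ N → ∃ G : SimpleGraph (Fin N),
    P (Fin N) G ∧ c * (N : ℝ) ^ α ≤ vol G ∧
      ∀ x, ((nb G x).card : ℝ) ≤ l * (N : ℝ) ^ (α - 1)

/-- a subgraph with a given number of edges -/
lemma thin {V : Type} [Fintype V] (G : SimpleGraph V) (k : ℕ) (hk : k ≤ G.edgeSet.ncard) :
    ∃ F ≤ G, F.edgeSet.ncard = k := by
  obtain ⟨s, hs, hsk⟩ := Set.exists_subset_card_eq hk
  refine ⟨SimpleGraph.fromEdgeSet s, ?_, ?_⟩
  · intro x y h
    rw [SimpleGraph.fromEdgeSet_adj] at h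
    exact hs h.1
  · rw [SimpleGraph.edgeSet_fromEdgeSet]
    have : s \ Sym2.diagSet = s := by
      ext e
      simp only [Set.mem_diff, Sym2.mem_diagSet, and_iff_left_iff_imp]
      intro he
      exact G.not_isDiag_of_mem_edgeSet (hs he)
    rw [this]
    exact hsk

theorem dense_denseReg {P : ∀ V : Type, SimpleGraph V → Prop} (hP : LIClass P) (α : ℝ)
    (hα : 1 < α) (h : Dense P α) : DenseReg P α := by
  obtain ⟨c, hc, N₀, h⟩ := h
  obtain ⟨q, hq⟩ := exists_nat_ge (2 * c + 5)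
  have hq5 : (5 : ℝ) ≤ q := by linarith
  have hq0 : 0 < q := by
    have : (0 : ℝ) < q := by linarith
    exact_mod_cast this
  refine ⟨2 * c / (2 * q) ^ α, 2, by positivity, by norm_num, 2 * q * (N₀ + 1), fun N hN => ?_⟩
  set n : ℕ := N / q with hn
  have hn1 : N₀ + 1 ≤ n := by
    rw [hn, Nat.le_div_iff_mul_le hq0]
    nlinarith
  have hn0 : 0 < n := by omega
  have hnR : (1 : ℝ) ≤ n := by exact_mod_cast hn0
  have hnq : n * q ≤ N := Nat.div_mul_le_self _ _
  have hNn : N < (n + 1) * q := by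
    rw [hn]
    exact Nat.lt_mul_of_div_lt (Nat.lt_succ_self _) hq0
  have hNn' : (N : ℝ) ≤ 2 * q * n := by
    have h1 : (N : ℝ) ≤ (n + 1) * q := by exact_mod_cast hNn.le
    nlinarith
  have hnN : (n : ℝ) ≤ N := by
    have h1 : (n : ℝ) * q ≤ N := by exact_mod_cast hnq
    nlinarith
  obtain ⟨G, hG, hGe⟩ := h n (by omega)
  have hkle : ⌈c * (n : ℝ) ^ α⌉₊ ≤ G.edgeSet.ncard := Nat.ceil_le.mpr hGe
  obtain ⟨F, hFG, hFk⟩ := thin G _ hkle
  have hF : P (Fin n) F := hP.mono hFG hG
  set D : ℕ := ⌈(n : ℝ) ^ (α - 1)⌉₊ with hD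
  have hpow1 : (1 : ℝ) ≤ (n : ℝ) ^ (α - 1) := Real.one_le_rpow hnR (by linarith)
  have hD1 : 1 ≤ D := by
    rw [hD]
    exact Nat.one_le_iff_ne_zero.mpr (Nat.ceil_pos.mpr (by linarith)).ne'
  have hDle : (D : ℝ) ≤ 2 * (n : ℝ) ^ (α - 1) := by
    have := (Nat.ceil_lt_add_one (by positivity : (0 : ℝ) ≤ (n : ℝ) ^ (α - 1))).le
    rw [← hD] at this
    linarith
  have hDge : (n : ℝ) ^ (α - 1) ≤ D := Nat.le_ceil _
  have hvol : vol F = 2 * ⌈c * (n : ℝ) ^ α⌉₊ := by rw [vol_eq, hFk]
  have hvolR : (vol F : ℝ) ≤ 2 * (c * (n : ℝ) ^ α + 1) := by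
    rw [hvol]
    push_cast
    have := (Nat.ceil_lt_add_one (by positivity : (0 : ℝ) ≤ c * (n : ℝ) ^ α)).le
    linarith
  have hvolL : 2 * (c * (n : ℝ) ^ α) ≤ vol F := by
    rw [hvol]
    push_cast
    have := Nat.le_ceil (c * (n : ℝ) ^ α)
    linarith
  have hpα : (n : ℝ) ^ α = n * (n : ℝ) ^ (α - 1) := by
    rw [Real.rpow_sub_one (by linarith)]
    field_simp
  have hsize : n + vol F / D ≤ N := by
    have h1 : ((vol F / D : ℕ) : ℝ) ≤ (vol F : ℝ) / D := Nat.cast_div_le
    have h2 : (vol F : ℝ) / D ≤ 2 * c * n + 2 := by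
      rw [div_le_iff₀ (by exact_mod_cast hD1)]
      have h3 : 0 ≤ 2 * c * n + 2 := by positivity
      have h4 : 2 * (c * (n : ℝ) ^ α + 1) ≤ (2 * c * n + 2) * (n : ℝ) ^ (α - 1) := by
        rw [hpα]
        nlinarith
      exact hvolR.trans (h4.trans (mul_le_mul_of_nonneg_left hDge h3))
    have h5 : (n : ℝ) * q ≤ N := by exact_mod_cast hnq
    have h6 : ((n + vol F / D : ℕ) : ℝ) ≤ N := by
      push_cast
      nlinarith
    exact_mod_cast h6
  obtain ⟨G', hPG', hv, hd⟩ := split hP hn0 F hF hD1 hsize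
  refine ⟨G', hPG', ?_, fun x => ?_⟩
  · have h1 : (vol F : ℝ) ≤ vol G' := by exact_mod_cast hv
    have h2 : (N : ℝ) ^ α ≤ (2 * q) ^ α * (n : ℝ) ^ α := by
      rw [← Real.mul_rpow (by positivity) (by positivity)]
      exact Real.rpow_le_rpow (by positivity) hNn' (by linarith)
    calc 2 * c / (2 * q) ^ α * (N : ℝ) ^ α
        ≤ 2 * c / (2 * q) ^ α * ((2 * q) ^ α * (n : ℝ) ^ α) :=
          mul_le_mul_of_nonneg_left h2 (by positivity)
      _ = 2 * (c * (n : ℝ) ^ α) := by
          have : (0 : ℝ) < (2 * q) ^ α := by positivity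
          field_simp
      _ ≤ vol F := hvolL
      _ ≤ vol G' := h1
  · have h1 : ((nb G' x).card : ℝ) ≤ D := by exact_mod_cast hd x
    refine h1.trans (hDle.trans ?_)
    exact mul_le_mul_of_nonneg_left (Real.rpow_le_rpow (by positivity) hnN (by linarith))
      (by norm_num)

end Pool.Agent.H55
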