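import Mathlib
import Pool.Agent.H55.Split

/-!
# Covering graphs of bounded degree by graphs from a class, for every exponent

Compared with `cover2` no upper bound for the number of edges of the graphs in the class is needed.
-/

set_option autoImplicit false
set_option linter.all false

namespace Pool.Agent.H55

open Finset Classical SimpleGraph

/-- **The covering theorem, for all exponents.** -/
theorem cover3 {P : ∀ V : Type, SimpleGraph V → Prop} (hP : LIClass P) (α : ℝ) (hα : 1 < α)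
    (hα2 : α < 2)
    (hreg : DenseReg P α) :
    ∃ K : ℝ, 0 < K ∧ ∀ (V : Type) [Fintype V] (H : SimpleGraph V) (d : ℕ), 1 ≤ d →
      (∀ x, (nb H x).card ≤ d) → ∃ M : ℕ, (M : ℝ) ≤ K * (d : ℝ) ^ (2 - α) ∧
        Cov (PB P (K * (d : ℝ) ^ (α - 1))) H M := by
  obtain ⟨c', l, hc', hl, N₀, hN₀⟩ := hreg
  set c : ℝ := 2 * c' with hc2
  have hc : 0 < c := by positivity
  set γ : ℝ := 2 - α with hγ
  have hγ0 : 0 < γ := by linarith
  have hγ1 : γ < 1 := by linarith
  -- the constant in the exponent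
  set κ : ℝ := 1 / (2 * (l * 16 ^ (α - 1) + 1)) with hκ
  have hκ0 : 0 < κ := by positivity
  obtain ⟨m₀, hm₀⟩ := poly_exp κ γ hκ0 hγ0
  set C2 : ℝ := 5 * (8 / c + 1) with hC2
  have hC20 : 0 < C2 := by positivity
  set d₀ : ℕ := 18 + 4 * m₀ + N₀ with hd₀
  have hr : (7 / 8 : ℝ) ^ γ < 1 := Real.rpow_lt_one (by norm_num) (by norm_num) hγ0
  set K : ℝ := max (2 * d₀ + 1) (max (C2 / (1 - (7 / 8 : ℝ) ^ γ)) (5 * l)) with hK
  have hK1 : C2 ≤ K * (1 - (7 / 8 : ℝ) ^ γ) := by
    rw [← div_le_iff₀ (by linarith)]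
    exact le_trans (le_max_left _ _) (le_max_right _ _)
  have hK2 : (2 * d₀ + 1 : ℝ) ≤ K := le_max_left _ _
  have hK3 : 5 * l ≤ K := le_trans (le_max_right _ _) (le_max_right _ _)
  have hK0 : 0 < K := lt_of_lt_of_le (by positivity) hK2
  refine ⟨K, hK0, ?_⟩
  intro V _ H d
  induction d using Nat.strong_induction_on generalizing H with
  | _ d ih =>
  intro hd hH
  have hd1 : (1 : ℝ) ≤ d := by exact_mod_cast hd
  rcases lt_or_ge d d₀ with hlt | hge
  · have h1 : (1 : ℝ) ≤ (d : ℝ) ^ γ := Real.one_le_rpow hd1 hγ0.le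
    refine ⟨2 * d + 1, ?_, (cov_small (single_class hP) H d hH).imp' ?_⟩
    swap
    · intro F hF
      have h3 : (1 : ℝ) ≤ (d : ℝ) ^ (α - 1) := Real.one_le_rpow hd1 (by linarith)
      have h4 : (1 : ℝ) ≤ K := le_trans (by have : (0 : ℝ) ≤ d₀ := by positivity
                                            linarith) hK2
      refine ⟨hF.1, fun x => ?_⟩
      have h5 : (F.neighborSet x).ncard ≤ 1 := by
        rw [Set.ncard_le_one_iff]
        intro y z hy hz
        exact hF.2 x y z hy hz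
      have h6 : ((F.neighborSet x).ncard : ℝ) ≤ 1 := by exact_mod_cast h5
      nlinarith
    have h2 : ((2 * d + 1 : ℕ) : ℝ) ≤ 2 * d₀ + 1 := by
      push_cast
      have : (d : ℝ) ≤ d₀ := by exact_mod_cast hlt.le
      linarith
    nlinarith
  · set m : ℕ := (d + 3) / 4 with hm
    have hm4 : d ≤ 4 * m := by omega
    have hm3 : 4 * m ≤ d + 3 := by omega
    have hm5 : 8 * (3 * m) ≤ 7 * d := by omega
    have hmm : m₀ ≤ m := by omega
    have hmN₀ : N₀ ≤ 16 * m := by omega
    have hm1 : 1 ≤ m := by omega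
    have hm1' : (1 : ℝ) ≤ m := by exact_mod_cast hm1
    have hcardF : Fintype.card (Fin (16 * m)) = 16 * m := Fintype.card_fin _
    obtain ⟨G, hPG, hGvol', hGdeg⟩ := hN₀ (16 * m) hmN₀
    have hGvol : c / 2 * ((16 * m : ℕ) : ℝ) ^ α ≤ vol G := by
      have hcc : c / 2 = c' := by rw [hc2]; ring
      rw [hcc]
      exact hGvol'
    set N : ℝ := ((16 * m : ℕ) : ℝ) with hN
    have hNm : N = 16 * m := by rw [hN]; push_cast; ring
    have hN1 : 1 ≤ N := by rw [hNm]; linarith
    have hN0 : 0 < N := by linarith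
    have hNα : 0 < N ^ α := by positivity
    have hvol0 : 0 < (vol G : ℝ) := lt_of_lt_of_le (by positivity) hGvol
    -- the maximum degree
    set D : ℕ := ⌊l * N ^ (α - 1)⌋₊ with hD
    have hGD : ∀ a, (nb G a).card ≤ D := fun a => Nat.le_floor (hGdeg a)
    have hD1 : 1 ≤ D := by
      by_contra hcon
      have hD0 : D = 0 := by omega
      have : vol G = 0 := by
        rw [vol]
        refine Finset.sum_eq_zero fun a _ => ?_
        have := hGD a
        omega
      rw [this] at hvol0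
      simp at hvol0
    have hDle : (D : ℝ) ≤ l * N ^ (α - 1) := Nat.floor_le (by positivity)
    -- the number of maps
    set M : ℕ := ⌈4 * N ^ 2 / (vol G : ℝ)⌉₊ with hM
    have hM1 : 4 * N ^ 2 ≤ M * (vol G : ℝ) := by
      rw [← div_le_iff₀ hvol0]
      exact Nat.le_ceil _
    have hM2 : (M : ℝ) ≤ C2 * (d : ℝ) ^ γ := by
      have h1 : (M : ℝ) < 4 * N ^ 2 / (vol G : ℝ) + 1 := Nat.ceil_lt_add_one (by positivity)
      have h2 : 4 * N ^ 2 / (vol G : ℝ) ≤ 8 / c * N ^ γ := by
        rw [div_le_iff₀ hvol0]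
        have h3 : N ^ γ * N ^ α = N ^ 2 := by
          rw [← Real.rpow_add hN0, hγ, sub_add_cancel]
          norm_cast
        calc 4 * N ^ 2 = 8 / c * N ^ γ * (c / 2 * N ^ α) := by
              rw [← h3]
              field_simp
              ring
          _ ≤ 8 / c * N ^ γ * vol G := mul_le_mul_of_nonneg_left hGvol (by positivity)
      have h4 : N ≤ 5 * d := by
        rw [hNm]
        have h5 : 16 * m ≤ 5 * d := by omega
        exact_mod_cast h5
      have h6 : N ^ γ ≤ 5 * (d : ℝ) ^ γ := by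
        calc N ^ γ ≤ (5 * d) ^ γ := Real.rpow_le_rpow hN0.le h4 hγ0.le
          _ = 5 ^ γ * (d : ℝ) ^ γ := Real.mul_rpow (by norm_num) (by positivity)
          _ ≤ 5 * (d : ℝ) ^ γ := by
              refine mul_le_mul_of_nonneg_right ?_ (by positivity)
              calc (5 : ℝ) ^ γ ≤ 5 ^ (1 : ℝ) :=
                    Real.rpow_le_rpow_of_exponent_le (by norm_num) hγ1.le
                _ = 5 := Real.rpow_one 5
      have h7 : (1 : ℝ) ≤ N ^ γ := Real.one_le_rpow hN1 hγ0.le
      calc (M : ℝ) ≤ 8 / c * N ^ γ + N ^ γ := by linarith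
        _ = (8 / c + 1) * N ^ γ := by ring
        _ ≤ (8 / c + 1) * (5 * (d : ℝ) ^ γ) := mul_le_mul_of_nonneg_left h6 (by positivity)
        _ = C2 * (d : ℝ) ^ γ := by rw [hC2]; ring
    -- the condition of the local lemma
    have hcond : 8 * ((4 * m + 1 : ℕ) : ℝ) ^ 4 ≤ (1 + 1 / (D : ℝ)) ^ m := by
      refine (hm₀ m hmm).trans (pow_lower D m hD1 _ ?_)
      have h1 : (D : ℝ) ≤ l * 16 ^ (α - 1) * (m : ℝ) ^ (α - 1) := by
        refine hDle.trans (le_of_eq ?_)
        rw [hNm, Real.mul_rpow (by norm_num) (by positivity)]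
        ring
      have h2 : (m : ℝ) ^ γ * (m : ℝ) ^ (α - 1) = m := by
        rw [← Real.rpow_add (by linarith), hγ, show 2 - α + (α - 1) = (1 : ℝ) by ring,
          Real.rpow_one]
      have h3 : 0 < l * 16 ^ (α - 1) := by positivity
      calc κ * (m : ℝ) ^ γ * D ≤ κ * (m : ℝ) ^ γ * (l * 16 ^ (α - 1) * (m : ℝ) ^ (α - 1)) :=
            mul_le_mul_of_nonneg_left h1 (by positivity)
        _ = κ * (l * 16 ^ (α - 1)) * ((m : ℝ) ^ γ * (m : ℝ) ^ (α - 1)) := by ring
        _ = κ * (l * 16 ^ (α - 1)) * m := by rw [h2]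
        _ ≤ 1 / 2 * m := by
            refine mul_le_mul_of_nonneg_right ?_ (by linarith)
            rw [hκ, div_mul_eq_mul_div, one_mul, div_le_div_iff₀ (by positivity) (by norm_num)]
            linarith
        _ = m / 2 := by ring
    obtain ⟨f, hf⟩ := stage (W := Fin (16 * m)) H G m (fun x => (hH x).trans hm4)
      (by rw [hcardF]) (by rw [hcardF]; omega) D hD1 hGD M (by rw [hcardF]; exact hM1) hcond
    -- the rest
    obtain ⟨M', hM', hcov⟩ := ih (3 * m) (by omega)
      (leftover H (fun i => Pool.Agent.H55.pull H G (f i))) (by omega) (fun x => by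
        refine le_trans (Finset.card_le_card ?_) (hf x)
        intro y hy
        have := mem_nb.mp hy
        rw [rest, Finset.mem_filter, mem_nb]
        exact this)
    have hNd : N ≤ 5 * d := by
      rw [hNm]
      have h5 : 16 * m ≤ 5 * d := by omega
      exact_mod_cast h5
    have hDd : (D : ℝ) ≤ K * (d : ℝ) ^ (α - 1) := by
      calc (D : ℝ) ≤ l * N ^ (α - 1) := hDle
        _ ≤ l * (5 * d) ^ (α - 1) :=
            mul_le_mul_of_nonneg_left (Real.rpow_le_rpow hN0.le hNd (by linarith)) hl.le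
        _ = l * (5 ^ (α - 1) * (d : ℝ) ^ (α - 1)) := by
            rw [Real.mul_rpow (by norm_num) (by positivity)]
        _ ≤ l * (5 * (d : ℝ) ^ (α - 1)) := by
            refine mul_le_mul_of_nonneg_left (mul_le_mul_of_nonneg_right ?_ (by positivity)) hl.le
            calc (5 : ℝ) ^ (α - 1) ≤ 5 ^ (1 : ℝ) :=
                  Real.rpow_le_rpow_of_exponent_le (by norm_num) (by linarith)
              _ = 5 := Real.rpow_one 5
        _ = 5 * l * (d : ℝ) ^ (α - 1) := by ring
        _ ≤ K * (d : ℝ) ^ (α - 1) := mul_le_mul_of_nonneg_right hK3 (by positivity)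
    refine ⟨M + M', ?_, Cov.add (fun i => Pool.Agent.H55.pull H G (f i)) (fun i =>
      ⟨pull_le H G (f i), hP.pull _ G (f i) (pull_locInj H G (f i)) hPG, fun x => ?_⟩)
        (hcov.imp' fun F hF => ⟨hF.1, fun x => (hF.2 x).trans ?_⟩)⟩
    rotate_left
    · refine le_trans ?_ hDd
      have h9 := pull_deg H G D hGD (f i) x univ
      have h10 : ((Pool.Agent.H55.pull H G (f i)).neighborSet x).ncard ≤ D := by
        rw [← Set.ncard_coe_finset] at h9
        convert h9 using 2
        ext y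
        simp
      exact_mod_cast h10
    · refine mul_le_mul_of_nonneg_left (Real.rpow_le_rpow (by positivity) ?_ (by linarith)) hK0.le
      exact_mod_cast (by omega : 3 * m ≤ d)
    have h1 : ((3 * m : ℕ) : ℝ) ^ γ ≤ (7 / 8 : ℝ) ^ γ * (d : ℝ) ^ γ := by
      rw [← Real.mul_rpow (by norm_num) (by positivity)]
      refine Real.rpow_le_rpow (by positivity) ?_ hγ0.le
      have : (8 : ℝ) * ((3 * m : ℕ) : ℝ) ≤ 7 * d := by exact_mod_cast hm5
      linarith
    have h2 : 0 < (d : ℝ) ^ γ := by positivity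
    push_cast
    calc (M : ℝ) + M' ≤ C2 * (d : ℝ) ^ γ + K * ((3 * m : ℕ) : ℝ) ^ γ := add_le_add hM2 hM'
      _ ≤ C2 * (d : ℝ) ^ γ + K * ((7 / 8 : ℝ) ^ γ * (d : ℝ) ^ γ) := by
          have := mul_le_mul_of_nonneg_left h1 hK0.le
          linarith
      _ ≤ K * (1 - (7 / 8 : ℝ) ^ γ) * (d : ℝ) ^ γ + K * ((7 / 8 : ℝ) ^ γ * (d : ℝ) ^ γ) := by
          have := mul_le_mul_of_nonneg_right hK1 h2.le
          linarith
      _ = K * (d : ℝ) ^ γ := by ring

lemma dense_decomposesB3 {P : ∀ V : Type, SimpleGraph V → Prop} (hP : LIClass P) (α : ℝ)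
    (hα : 1 < α) (hα2 : α < 2) (h : Dense P α) : DecomposesB P (2 - α) (α - 1) := by
  obtain ⟨K, hK, hcov⟩ := cover3 hP α hα hα2 (dense_denseReg hP α hα h)
  refine ⟨K, fun V _ H d hd hH => ?_⟩
  haveI : Fintype V := Fintype.ofFinite V
  obtain ⟨M, hM, hM'⟩ := hcov V H d hd (fun x => by rw [nb_card]; exact hH x)
  exact ⟨M, hM, cov_unionOf hM'⟩

/-- **The four statements are equivalent, for every exponent.** `P` is a class closed under
locally injective homomorphisms which is contained in `Q` and as dense as `Q`. -/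
theorem four_equiv3 {P Q : ∀ V : Type, SimpleGraph V → Prop} (hP : LIClass P) (α : ℝ)
    (hα : 1 < α) (hα2 : α < 2)
    (hmono : ∀ (V : Type) [Finite V] (F G : SimpleGraph V), F ≤ G → Q V G → Q V F)
    (hPQ : ∀ (V : Type) [Finite V] (G : SimpleGraph V), P V G → Q V G)
    (hQP : Dense Q α → Dense P α) :
    (Dense Q α ↔ DecomposesB Q (2 - α) (α - 1)) ∧ (Dense Q α ↔ Relative Q (2 - α)) ∧
      (Dense Q α ↔ Colours Q (2 - α)) := by
  have hbot : ∀ (V : Type) [Finite V], Q V ⊥ := fun V _ => hPQ V ⊥ (hP.single ⊥ (by simp))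
  have h1 : Dense Q α → DecomposesB Q (2 - α) (α - 1) := fun h =>
    decomposesB_mono hPQ (dense_decomposesB3 hP α hα hα2 (hQP h))
  have h2 : DecomposesB Q (2 - α) (α - 1) → Decomposes Q (2 - α) := decomposesB_decomposes
  have h3 : Decomposes Q (2 - α) → Relative Q (2 - α) := decomposes_relative hbot
  have h4 : Relative Q (2 - α) → Dense Q α := relative_dense
  have h5 : Decomposes Q (2 - α) → Colours Q (2 - α) := fun h =>
    decomposes_colours hmono hbot (by linarith) h
  have h6 : Colours Q (2 - α) → Dense Q α := fun h => colours_dense hα hα2 h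
  exact ⟨⟨h1, fun h => h4 (h3 (h2 h))⟩, ⟨fun h => h3 (h2 (h1 h)), h4⟩,
    ⟨fun h => h5 (h2 (h1 h)), h6⟩⟩

end Pool.Agent.H55
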