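import Mathlib
import Pool.Agent.H55.Cover3

/-!
# Graphs of diameter at most three

For every finite graph `A` of diameter at most three with at least two edges, and every exponent
`1 < α < 2`, four statements about graphs without `A` are equivalent.
-/

set_option autoImplicit false
set_option linter.all false

namespace Pool.Agent.H55

open Finset Classical SimpleGraph

/-- The diameter is at most three: any two vertices are joined by a walk of length at most `3`. -/
def DiamLeThree {U : Type} (A : SimpleGraph U) : Prop :=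
  ∀ u v : U, ∃ p : A.Walk u v, p.length ≤ 3

/-- `ex (n, A) ≥ c n ^ α` for some `c > 0` and all large `n`. -/
def TuranAt {U : Type} (A : SimpleGraph U) (α : ℝ) : Prop :=
  ∃ c : ℝ, 0 < c ∧ ∃ N : ℕ, ∀ n : ℕ, N ≤ n → c * (n : ℝ) ^ α ≤ (extremalNumber n A : ℝ)

/-- Every finite graph `G` with all degrees at most `d` is the union of at most `C d ^ (2 - α)`
subgraphs without `A` with all degrees at most `C d ^ (α - 1)`. -/
def DecompositionAt {U : Type} (A : SimpleGraph U) (α : ℝ) : Prop :=
  ∃ C : ℝ, ∀ (V : Type) [Finite V] (G : SimpleGraph V) (d : ℕ), 1 ≤ d →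
    (∀ x, (G.neighborSet x).ncard ≤ d) →
    ∃ M : ℕ, (M : ℝ) ≤ C * (d : ℝ) ^ (2 - α) ∧
      UnionOf (fun F : SimpleGraph V => A.Free F ∧
        ∀ x, ((F.neighborSet x).ncard : ℝ) ≤ C * (d : ℝ) ^ (α - 1)) G M

/-- Every finite graph `G` with all degrees at most `d` has a subgraph without `A` with at least
`c d ^ (α - 2) e(G)` edges. -/
def RelativeAt {U : Type} (A : SimpleGraph U) (α : ℝ) : Prop :=
  ∃ c : ℝ, 0 < c ∧ ∀ (V : Type) [Finite V] (G : SimpleGraph V) (d : ℕ), 1 ≤ d →
    (∀ x, (G.neighborSet x).ncard ≤ d) → ∃ F ≤ G, A.Free F ∧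
      c * (d : ℝ) ^ (α - 2) * (G.edgeSet.ncard : ℝ) ≤ (F.edgeSet.ncard : ℝ)

/-- If `n ≤ c q ^ (1 / (2 - α))`, the edges of the complete graph on `n` vertices can be coloured
with `q` colours without an `A` in one colour. -/
def RamseyAt {U : Type} (A : SimpleGraph U) (α : ℝ) : Prop :=
  ∃ c : ℝ, 0 < c ∧ ∀ q n : ℕ, (n : ℝ) ≤ c * (q : ℝ) ^ (1 / (2 - α)) →
    ∃ χ : Sym2 (Fin n) → Fin q, ∀ i, A.Free (colourClass χ i)

/-- no `A` -/
def AFree {U : Type} (A : SimpleGraph U) (V : Type) (G : SimpleGraph V) : Prop := A.Free G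

/-- no `A` and no triangle -/
def AFree3 {U : Type} (A : SimpleGraph U) (V : Type) (G : SimpleGraph V) : Prop :=
  A.Free G ∧ ∀ a b c, G.Adj a b → G.Adj b c → G.Adj c a → False

lemma aFree_mono {U : Type} {A : SimpleGraph U} {V : Type} {F G : SimpleGraph V} (h : F ≤ G)
    (hG : A.Free G) : A.Free F := fun hF => hG (hF.trans ⟨SimpleGraph.Copy.ofLE F G h⟩)

/-- a connected graph with two edges has a vertex with two neighbours -/
lemma cherry {U : Type} {A : SimpleGraph U} (hA : DiamLeThree A) (he : 2 ≤ A.edgeSet.ncard) :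
    ∃ x y z, A.Adj x y ∧ A.Adj x z ∧ y ≠ z := by
  by_contra hcon
  push Not at hcon
  obtain ⟨e, heA⟩ : A.edgeSet.Nonempty := Set.nonempty_of_ncard_ne_zero (by omega)
  obtain ⟨f, hfA, hne⟩ : ∃ f ∈ A.edgeSet, f ≠ e := by
    by_contra hall
    push Not at hall
    have : A.edgeSet = {e} := by
      ext f
      rw [Set.mem_singleton_iff]
      exact ⟨fun hf => hall f hf, fun hf => hf ▸ heA⟩
    rw [this, Set.ncard_singleton] at he
    omega
  induction e with
  | _ a b =>
  induction f with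
  | _ u v =>
  rw [SimpleGraph.mem_edgeSet] at heA hfA
  have stay : ∀ x y, A.Walk x y → (x = a ∨ x = b) → (y = a ∨ y = b) := by
    intro x y p
    induction p with
    | nil => exact fun h => h
    | @cons x w y hxw p ih =>
      intro hx
      apply ih
      rcases hx with hx | hx
      · subst hx
        right
        exact hcon _ _ _ hxw heA
      · subst hx
        left
        exact hcon _ _ _ hxw heA.symm
  obtain ⟨p, -⟩ := hA a u
  obtain ⟨p', -⟩ := hA a v
  have h1 := stay _ _ p (Or.inl rfl)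
  have h2 := stay _ _ p' (Or.inl rfl)
  apply hne
  rcases h1 with h1 | h1 <;> rcases h2 with h2 | h2
  · rw [h1, h2] at hfA
    exact absurd hfA (A.loopless.irrefl _)
  · rw [h1, h2]
  · rw [h1, h2, Sym2.eq_swap]
  · rw [h1, h2] at hfA
    exact absurd hfA (A.loopless.irrefl _)

lemma aFree3_class {U : Type} {A : SimpleGraph U} (hA : DiamLeThree A)
    (hc : ∃ x y z, A.Adj x y ∧ A.Adj x z ∧ y ≠ z) : LIClass (AFree3 A) where
  pull := by
    rintro V W _ _ F G f hf ⟨hG, hG3⟩
    refine ⟨?_, fun a b c hab hbc hca =>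
      hG3 _ _ _ (hf.hom _ _ hab) (hf.hom _ _ hbc) (hf.hom _ _ hca)⟩
    rintro ⟨φ⟩
    have hF : ∀ {u v}, A.Adj u v → F.Adj (φ u) (φ v) := fun h => φ.toHom.map_adj h
    refine hG ⟨⟨⟨fun u => f (φ u), fun {u v} huv => hf.hom _ _ (hF huv)⟩, ?_⟩⟩
    intro u v huv
    have huv' : f (φ u) = f (φ v) := huv
    obtain ⟨p, hp⟩ := hA u v
    cases p with
    | nil => rfl
    | cons h1 p =>
      cases p with
      | nil => exact absurd huv' (hf.hom _ _ (hF h1)).ne
      | cons h2 p =>
        cases p with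
        | nil => exact φ.injective (hf.inj _ _ _ (hF h1).symm (hF h2) huv')
        | cons h3 p =>
          cases p with
          | nil =>
            have g1 := hf.hom _ _ (hF h1)
            have g2 := hf.hom _ _ (hF h2)
            have g3 := hf.hom _ _ (hF h3)
            rw [← huv'] at g3
            exact (hG3 _ _ _ g1 g2 g3).elim
          | cons h4 p =>
            simp only [SimpleGraph.Walk.length_cons] at hp
            omega
  single := by
    rintro V _ F hF
    refine ⟨?_, fun a b c hab hbc hca => ?_⟩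
    · rintro ⟨φ⟩
      obtain ⟨x, y, z, hxy, hxz, hyz⟩ := hc
      exact hyz (φ.injective (hF _ _ _ (φ.toHom.map_adj hxy) (φ.toHom.map_adj hxz)))
    · have := hF a b c hab hca.symm
      subst this
      exact F.loopless.irrefl _ hbc

lemma turanAt_iff {U : Type} {A : SimpleGraph U} (hne : A ≠ ⊥) (α : ℝ) :
    TuranAt A α ↔ Dense (AFree A) α := by
  constructor
  · rintro ⟨c, hc, N, h⟩
    refine ⟨c, hc, N, fun n hn => ?_⟩
    obtain ⟨G, _, hG⟩ := exists_isExtremal_free (V := Fin n) hne
    refine ⟨G, hG.prop, ?_⟩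
    have h1 := card_edgeFinset_of_isExtremal_free hG
    rw [Fintype.card_fin] at h1
    have h2 : G.edgeSet.ncard = G.edgeFinset.card := by
      rw [Set.ncard_eq_toFinset_card', SimpleGraph.edgeFinset]
    rw [h2, h1]
    exact h n hn
  · rintro ⟨c, hc, N, h⟩
    refine ⟨c, hc, N, fun n hn => ?_⟩
    obtain ⟨G, hG, hd⟩ := h n hn
    refine hd.trans ?_
    have h2 : G.edgeSet.ncard = G.edgeFinset.card := by
      rw [Set.ncard_eq_toFinset_card', SimpleGraph.edgeFinset]
    have h1 := card_edgeFinset_le_extremalNumber (G := G) hG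
    rw [Fintype.card_fin] at h1
    rw [h2]
    exact_mod_cast h1

lemma dense_aFree3 {U : Type} {A : SimpleGraph U} {α : ℝ} (h : Dense (AFree A) α) :
    Dense (AFree3 A) α := by
  obtain ⟨c, hc, N, h⟩ := h
  refine ⟨c / 2, by positivity, N, fun n hn => ?_⟩
  obtain ⟨G, hG, hGe⟩ := h n hn
  obtain ⟨G', hle, hcol, hv⟩ := bip_sub G
  refine ⟨G', ⟨aFree_mono hle hG, ?_⟩, ?_⟩
  · intro a b c' hab hbc hca
    obtain ⟨C⟩ := hcol
    have h1 := C.valid hab
    have h2 := C.valid hbc
    have h3 := C.valid hca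
    have e1 := (C a).isLt
    have e2 := (C b).isLt
    have e3 := (C c').isLt
    have f1 : (C a : ℕ) ≠ C b := fun h => h1 (Fin.ext h)
    have f2 : (C b : ℕ) ≠ C c' := fun h => h2 (Fin.ext h)
    have f3 : (C c' : ℕ) ≠ C a := fun h => h3 (Fin.ext h)
    omega
  · rw [vol_eq, vol_eq] at hv
    push_cast at hv
    have : c / 2 * (n : ℝ) ^ α = (c * (n : ℝ) ^ α) / 2 := by ring
    rw [this]
    linarith

theorem diam3 {U : Type} {A : SimpleGraph U} (hA : DiamLeThree A)
    (hc : ∃ x y z, A.Adj x y ∧ A.Adj x z ∧ y ≠ z) (α : ℝ) (hα : 1 < α) (hα2 : α < 2) :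
    (TuranAt A α ↔ DecompositionAt A α) ∧ (TuranAt A α ↔ RelativeAt A α) ∧
      (TuranAt A α ↔ RamseyAt A α) := by
  have hne : A ≠ ⊥ := by
    obtain ⟨x, y, z, hxy, _⟩ := hc
    intro h
    rw [h] at hxy
    exact hxy
  rw [turanAt_iff hne α]
  have h := four_equiv3 (P := AFree3 A) (Q := AFree A) (aFree3_class hA hc) α hα hα2
    (fun V _ F G hle hG => aFree_mono hle hG) (fun V _ G hG => hG.1) dense_aFree3
  have e : -(2 - α) = α - 2 := by ring
  rw [Relative, e] at h
  exact h

end Pool.Agent.H55
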