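import Mathlib
import Pool.Agent.H55.Diam

/-!
# Sharp exponents
-/

set_option autoImplicit false
set_option linter.all false

namespace Pool.Agent.H55

open Finset Classical SimpleGraph

/-- the exponent `β` is attained up to `ε`: for every `ε > 0` one has `ex (n, A) ≥ n ^ (β - ε)` for
all large `n` -/
def SharpAt {U : Type} (A : SimpleGraph U) (β : ℝ) : Prop :=
  ∀ ε : ℝ, 0 < ε → ∃ N : ℕ, ∀ n : ℕ, N ≤ n → (n : ℝ) ^ (β - ε) ≤ (extremalNumber n A : ℝ)

lemma sharpAt_iff {U : Type} {A : SimpleGraph U} {β : ℝ} (hβ : 1 < β) :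
    SharpAt A β ↔ ∀ α : ℝ, 1 < α → α < β → TuranAt A α := by
  constructor
  · intro h α hα hαβ
    obtain ⟨N, hN⟩ := h (β - α) (by linarith)
    refine ⟨1, one_pos, N, fun n hn => ?_⟩
    have := hN n hn
    rw [show β - (β - α) = α by ring] at this
    rw [one_mul]
    exact this
  · intro h ε hε
    set α : ℝ := max ((1 + β) / 2) (β - ε / 2) with hα
    have h1 : 1 < α := lt_of_lt_of_le (by linarith) (le_max_left _ _)
    have h2 : α < β := max_lt (by linarith) (by linarith)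
    have h3 : β - ε < α := lt_of_lt_of_le (by linarith) (le_max_right _ _)
    obtain ⟨c, hc, N, hN⟩ := h α h1 h2
    have ht : Filter.Tendsto (fun n : ℕ => (n : ℝ) ^ (α - (β - ε))) Filter.atTop Filter.atTop :=
      (tendsto_rpow_atTop (by linarith)).comp tendsto_natCast_atTop_atTop
    obtain ⟨N', hN'⟩ := Filter.eventually_atTop.mp (ht.eventually_ge_atTop (1 / c))
    refine ⟨max (max N N') 1, fun n hn => ?_⟩
    have hn1 : N ≤ n := le_trans (le_trans (le_max_left _ _) (le_max_left _ _)) hn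
    have hn2 : N' ≤ n := le_trans (le_trans (le_max_right _ _) (le_max_left _ _)) hn
    have hn3 : 1 ≤ n := le_trans (le_max_right _ _) hn
    have hn0 : (0 : ℝ) < n := by exact_mod_cast hn3
    refine le_trans ?_ (hN n hn1)
    have h4 := hN' n hn2
    rw [div_le_iff₀ hc] at h4
    calc (n : ℝ) ^ (β - ε) = (n : ℝ) ^ (β - ε) * 1 := (mul_one _).symm
      _ ≤ (n : ℝ) ^ (β - ε) * ((n : ℝ) ^ (α - (β - ε)) * c) :=
          mul_le_mul_of_nonneg_left h4 (by positivity)
      _ = c * ((n : ℝ) ^ (β - ε) * (n : ℝ) ^ (α - (β - ε))) := by ring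
      _ = c * (n : ℝ) ^ α := by
          rw [← Real.rpow_add hn0]
          ring_nf

/-- The four forms of: the exponent `β` is attained up to `ε`. -/
theorem sharp_equiv {U : Type} {A : SimpleGraph U} (hA : DiamLeThree A)
    (hc : ∃ x y z, A.Adj x y ∧ A.Adj x z ∧ y ≠ z) {β : ℝ} (hβ : 1 < β) (hβ2 : β ≤ 2) :
    (SharpAt A β ↔ ∀ α : ℝ, 1 < α → α < β → DecompositionAt A α) ∧
    (SharpAt A β ↔ ∀ α : ℝ, 1 < α → α < β → RelativeAt A α) ∧
    (SharpAt A β ↔ ∀ α : ℝ, 1 < α → α < β → RamseyAt A α) := by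
  rw [sharpAt_iff hβ]
  refine ⟨?_, ?_, ?_⟩
  · exact forall_congr' fun α => forall_congr' fun h1 => forall_congr' fun h2 =>
      (diam3 hA hc α h1 (lt_of_lt_of_le h2 hβ2)).1
  · exact forall_congr' fun α => forall_congr' fun h1 => forall_congr' fun h2 =>
      (diam3 hA hc α h1 (lt_of_lt_of_le h2 hβ2)).2.1
  · exact forall_congr' fun α => forall_congr' fun h1 => forall_congr' fun h2 =>
      (diam3 hA hc α h1 (lt_of_lt_of_le h2 hβ2)).2.2

lemma diam_of_dec {U : Type} {A : SimpleGraph U}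
    (h : ∀ u v, u = v ∨ A.Adj u v ∨ (∃ w, A.Adj u w ∧ A.Adj w v) ∨
      (∃ w x, A.Adj u w ∧ A.Adj w x ∧ A.Adj x v)) : DiamLeThree A := by
  intro u v
  rcases h u v with h | h | ⟨w, h1, h2⟩ | ⟨w, x, h1, h2, h3⟩
  · subst h
    exact ⟨SimpleGraph.Walk.nil, by simp⟩
  · exact ⟨h.toWalk, by simp⟩
  · exact ⟨SimpleGraph.Walk.cons h1 h2.toWalk, by simp⟩
  · exact ⟨SimpleGraph.Walk.cons h1 (SimpleGraph.Walk.cons h2 h3.toWalk), by simp⟩

end Pool.Agent.H55
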